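import Pool.Agent.Lib.MP_e9c0f3_ag.HY.Frame

/-! Three short exact sequences of coefficient systems. -/

open Matrix ExteriorAlgebra
open scoped Classical

noncomputable section

namespace H5T.Hyp

open HY

variable {n : ℕ} {α β : Type} {H : Hyp n α β} {K : Finset (Ix α β) → Prop}
  {vx up : Finset (Ix α β) → Finset (Ix α β)} {rk : Finset (Ix α β) → ℝ}

/-- Forget the height. -/
def halg_tl (n : ℕ) : (Fin (n + 1) → ℚ) →ₗ[ℚ] (Fin n → ℚ) := LinearMap.funLeft ℚ ℚ Fin.succ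

/-- The horizontal inclusion. -/
def halg_in (n : ℕ) : (Fin n → ℚ) →ₗ[ℚ] (Fin (n + 1) → ℚ) :=
  LinearMap.pi (Fin.cases 0 LinearMap.proj)

/-- The vertical vector. -/
def halg_e (n : ℕ) : Fin (n + 1) → ℚ := Fin.cons 1 0

/-- The graph of the covector `w`. -/
def halg_s (w : Fin n → ℚ) : (Fin n → ℚ) →ₗ[ℚ] (Fin (n + 1) → ℚ) :=
  halg_in n + (dl w).smulRight (halg_e n)

theorem halg_vw (y : Mv n) : vw n y = ι ℚ (halg_e n) * ExteriorAlgebra.map (halg_in n) y := rfl

theorem halg_in_apply (x : Fin n → ℚ) : halg_in n x = Fin.cons 0 x := by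
  funext i
  refine Fin.cases ?_ (fun i => ?_) i <;> simp [halg_in]

theorem halg_s_eq (w x : Fin n → ℚ) : halg_s w x = halg_in n x + (w ⬝ᵥ x) • halg_e n := rfl

theorem halg_s_apply (w x : Fin n → ℚ) : halg_s w x = Fin.cons (w ⬝ᵥ x) x := by
  rw [halg_s_eq, halg_in_apply]
  funext i
  refine Fin.cases ?_ (fun i => ?_) i <;> simp [halg_e]

theorem halg_tl_cons (t : ℚ) (x : Fin n → ℚ) : halg_tl n (Fin.cons t x) = x := by
  funext i
  simp [halg_tl]

theorem halg_split (y : Fin (n + 1) → ℚ) : y = Fin.cons (y 0) (halg_tl n y) := by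
  funext i
  refine Fin.cases ?_ (fun i => ?_) i <;> simp [halg_tl]

theorem halg_l (w x : Fin n → ℚ) (t : ℚ) :
    dl (Fin.cons 1 (-w) : Fin (n + 1) → ℚ) (Fin.cons t x) = t - w ⬝ᵥ x := by
  simp [dotProduct, Fin.sum_univ_succ, sub_eq_add_neg]

theorem halg_dl_sub (v w : Fin n → ℚ) : dl (v - w) = dl v - dl w :=
  LinearMap.ext fun y => sub_dotProduct v w y

theorem halg_ctr_mul {m : ℕ} (φ : Module.Dual ℚ (Fin m → ℚ)) (v : Fin m → ℚ) (y : Mv m) :
    ctr φ (ι ℚ v * y) = φ v • y - ι ℚ v * ctr φ y :=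
  CliffordAlgebra.contractLeft_ι_mul φ v y

theorem halg_ctr_alg {m : ℕ} (φ : Module.Dual ℚ (Fin m → ℚ)) (r : ℚ) :
    ctr φ (algebraMap ℚ (Mv m) r) = 0 :=
  CliffordAlgebra.contractLeft_algebraMap _ φ r

theorem halg_ctr_sub {m : ℕ} (φ ψ : Module.Dual ℚ (Fin m → ℚ)) (y : Mv m) :
    ctr (φ - ψ) y = ctr φ y - ctr ψ y := by
  simp only [ctr, map_sub, LinearMap.sub_apply]

theorem halg_swap {m : ℕ} (u v : Fin m → ℚ) : (ι ℚ u * ι ℚ v : Mv m) = -(ι ℚ v * ι ℚ u) :=
  eq_neg_of_add_eq_zero_left (ι_add_mul_swap u v)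

/-- The lift to a graph is the horizontal lift plus a vertical term. -/
theorem halg_map_s (w : Fin n → ℚ) (y : Mv n) : ExteriorAlgebra.map (halg_s w) y =
    ExteriorAlgebra.map (halg_in n) y + vw n (ctr (dl w) y) := by
  induction y using CliffordAlgebra.left_induction with
  | algebraMap r => rw [halg_ctr_alg, map_zero, add_zero, AlgHom.commutes, AlgHom.commutes]
  | add x y hx hy =>
    simp only [map_add, hx, hy]
    abel
  | ι_mul x m hx =>
    have h2 : (ι ℚ (halg_e n) * ι ℚ (halg_e n) : Mv (n + 1)) = 0 := ι_sq_zero _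
    rw [halg_ctr_mul, map_mul, map_mul, hx, map_apply_ι, map_apply_ι, halg_s_eq, map_sub,
      map_smul, halg_vw, halg_vw, halg_vw, map_mul, map_apply_ι, map_add, map_smul, add_mul,
      mul_add, smul_mul_assoc, mul_add, ← mul_assoc (ι ℚ (halg_e n)) (ι ℚ (halg_e n)), h2,
      zero_mul, add_zero, ← mul_assoc, ← mul_assoc, halg_swap (halg_in n m) (halg_e n), neg_mul,
      dl_apply]
    abel

theorem halg_diff (v w : Fin n → ℚ) (y : Mv n) :
    ExteriorAlgebra.map (halg_s v) y - ExteriorAlgebra.map (halg_s w) y =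
      vw n (ctr (dl (v - w)) y) := by
  rw [halg_map_s, halg_map_s, halg_dl_sub, halg_ctr_sub, map_sub]
  abel

theorem halg_map_map {a b c : ℕ} (f : (Fin a → ℚ) →ₗ[ℚ] (Fin b → ℚ))
    (g : (Fin b → ℚ) →ₗ[ℚ] (Fin c → ℚ)) (y : Mv a) :
    ExteriorAlgebra.map g (ExteriorAlgebra.map f y) = ExteriorAlgebra.map (g ∘ₗ f) y := by
  rw [← ExteriorAlgebra.map_comp_map]
  rfl

theorem halg_tl_s (w : Fin n → ℚ) (y : Mv n) :
    ExteriorAlgebra.map (halg_tl n) (ExteriorAlgebra.map (halg_s w) y) = y := by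
  have : halg_tl n ∘ₗ halg_s w = LinearMap.id :=
    LinearMap.ext fun x => by rw [LinearMap.comp_apply, halg_s_apply, halg_tl_cons]; rfl
  rw [halg_map_map, this, ExteriorAlgebra.map_id]
  rfl

theorem halg_tl_in (y : Mv n) :
    ExteriorAlgebra.map (halg_tl n) (ExteriorAlgebra.map (halg_in n) y) = y := by
  have : halg_tl n ∘ₗ halg_in n = LinearMap.id :=
    LinearMap.ext fun x => by rw [LinearMap.comp_apply, halg_in_apply, halg_tl_cons]; rfl
  rw [halg_map_map, this, ExteriorAlgebra.map_id]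
  rfl

theorem halg_tl_e (z : Mv (n + 1)) :
    ExteriorAlgebra.map (halg_tl n) (ι ℚ (halg_e n) * z) = 0 := by
  rw [map_mul, map_apply_ι, halg_e, halg_tl_cons, map_zero, zero_mul]

theorem halg_wedge_map {a b : ℕ} (f : (Fin a → ℚ) →ₗ[ℚ] (Fin b → ℚ))
    {T : Submodule ℚ (Fin a → ℚ)} {T' : Submodule ℚ (Fin b → ℚ)} (hf : ∀ u ∈ T, f u ∈ T')
    (p : ℕ) : ∀ y ∈ wedge T p, ExteriorAlgebra.map f y ∈ wedge T' p := by
  induction p with
  | zero =>
    intro y hy
    obtain ⟨r, rfl⟩ := Submodule.mem_one.1 (by simpa [wedge] using hy : y ∈ (1 : Submodule ℚ _))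
    rw [AlgHom.commutes]
    simp [wedge]
  | succ p ih =>
    intro y hy
    rw [EA.wedge_succ] at hy
    refine Submodule.mul_induction_on hy (fun u hu y hy => ?_) fun u v hu hv => ?_
    · obtain ⟨w, hw, rfl⟩ := hu
      rw [map_mul, map_apply_ι]
      exact EA.mul_mem_wedge (hf w hw) (ih y hy)
    · rw [map_add]
      exact add_mem hu hv

theorem halg_ideal_map {a b : ℕ} (f : (Fin a → ℚ) →ₗ[ℚ] (Fin b → ℚ))
    {T : Submodule ℚ (Fin a → ℚ)} {T' : Submodule ℚ (Fin b → ℚ)} (hf : ∀ u ∈ T, f u ∈ T')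
    {y : Mv a} (hy : y ∈ T.map (ι ℚ) * (⊤ : Submodule ℚ (Mv a))) :
    ExteriorAlgebra.map f y ∈ T'.map (ι ℚ) * (⊤ : Submodule ℚ (Mv b)) := by
  refine Submodule.mul_induction_on hy (fun u hu y _ => ?_) fun u v hu hv => ?_
  · obtain ⟨w, hw, rfl⟩ := hu
    rw [map_mul, map_apply_ι]
    exact Submodule.mul_mem_mul (Submodule.mem_map_of_mem (hf w hw)) Submodule.mem_top
  · rw [map_add]
    exact add_mem hu hv

theorem halg_ideal_ctr {a : ℕ} (φ : Module.Dual ℚ (Fin a → ℚ)) {T : Submodule ℚ (Fin a → ℚ)}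
    (hf : ∀ u ∈ T, φ u = 0) {y : Mv a} (hy : y ∈ T.map (ι ℚ) * (⊤ : Submodule ℚ (Mv a))) :
    ctr φ y ∈ T.map (ι ℚ) * (⊤ : Submodule ℚ (Mv a)) := by
  refine Submodule.mul_induction_on hy (fun u hu y _ => ?_) fun u v hu hv => ?_
  · obtain ⟨w, hw, rfl⟩ := hu
    rw [halg_ctr_mul, hf w hw, zero_smul, zero_sub]
    exact neg_mem (Submodule.mul_mem_mul (Submodule.mem_map_of_mem hw) Submodule.mem_top)
  · rw [map_add]
    exact add_mem hu hv

theorem halg_ctr_ker {a : ℕ} (φ : Module.Dual ℚ (Fin a → ℚ)) (p : ℕ) :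
    ∀ y ∈ wedge (LinearMap.ker φ) p, ctr φ y = 0 := by
  induction p with
  | zero =>
    intro y hy
    obtain ⟨r, rfl⟩ := Submodule.mem_one.1 (by simpa [wedge] using hy : y ∈ (1 : Submodule ℚ _))
    exact halg_ctr_alg φ r
  | succ p ih =>
    intro y hy
    rw [EA.wedge_succ] at hy
    refine Submodule.mul_induction_on hy (fun u hu y hy => ?_) fun u v hu hv => ?_
    · obtain ⟨w, hw, rfl⟩ := hu
      rw [halg_ctr_mul, LinearMap.mem_ker.1 hw, ih y hy, zero_smul, mul_zero, sub_zero]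
    · rw [map_add, hu, hv, add_zero]

theorem halg_unit {a : ℕ} {φ : Module.Dual ℚ (Fin a → ℚ)} (h : φ ≠ 0) : ∃ t, φ t = 1 := by
  obtain ⟨u, hu⟩ : ∃ u, φ u ≠ 0 := by
    by_contra k
    exact h (LinearMap.ext fun u => by_contra fun e => k ⟨u, e⟩)
  exact ⟨(φ u)⁻¹ • u, by rw [map_smul, smul_eq_mul, inv_mul_cancel₀ hu]⟩

theorem halg_ctr_mem {a : ℕ} (φ : Module.Dual ℚ (Fin a → ℚ)) (p : ℕ) {y : Mv a}
    (hy : y ∈ wedge ⊤ (p + 1)) : ctr φ y ∈ wedge (LinearMap.ker φ) p := by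
  by_cases h : φ = 0
  · have : ctr φ y = 0 := by simp only [h, ctr, map_zero, LinearMap.zero_apply]
    rw [this]
    exact zero_mem _
  · obtain ⟨t, ht⟩ := halg_unit h
    have hle : (⊤ : Submodule ℚ (Fin a → ℚ)) ≤ LinearMap.ker φ ⊔ Submodule.span ℚ {t} := by
      intro u _
      refine Submodule.mem_sup.2 ⟨u - φ u • t, ?_, φ u • t,
        Submodule.smul_mem _ _ (Submodule.mem_span_singleton_self t), sub_add_cancel _ _⟩
      rw [LinearMap.mem_ker, map_sub, map_smul, ht, smul_eq_mul, mul_one, sub_self]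
    obtain ⟨x, hx, z, hz, rfl⟩ := EA.wedge_sup _ t p y (EA.wedge_mono hle _ hy)
    rw [map_add, halg_ctr_mul, ht, halg_ctr_ker φ _ x hx, halg_ctr_ker φ _ z hz, one_smul,
      mul_zero, sub_zero, add_zero]
    exact hx

theorem halg_lam (a : α) : H.lam (some (.inl a)) = Fin.cons 1 (-H.ex a) := rfl

theorem halg_s_mem (a : α) (r : ℕ) {y : Mv n} (hy : y ∈ wedge ⊤ r) :
    ExteriorAlgebra.map (halg_s (H.ex a)) y ∈
      wedge (LinearMap.ker (dl (H.lam (some (.inl a))))) r :=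
  halg_wedge_map _ (fun u _ => by
    rw [LinearMap.mem_ker, halg_lam, halg_s_apply, halg_l, sub_self]) r y hy

theorem halg_s_tl (a : α) (r : ℕ) {x : Mv (n + 1)}
    (hx : x ∈ wedge (LinearMap.ker (dl (H.lam (some (.inl a))))) r) :
    ExteriorAlgebra.map (halg_s (H.ex a)) (ExteriorAlgebra.map (halg_tl n) x) = x := by
  rw [halg_map_map]
  refine EA.map_wedge _ (fun u hu => ?_) r x hx
  rw [LinearMap.mem_ker, halg_lam, halg_split u, halg_l, sub_eq_zero] at hu
  rw [LinearMap.comp_apply, halg_s_apply, ← hu, ← halg_split]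

theorem halg_le_Fh {S : Finset (Ix α β)} {a : α} (ha : a ∈ mons S) (r : ℕ) :
    wedge (LinearMap.ker (dl (H.lam (some (.inl a))))) r ≤ H.Fh r S :=
  le_iSup₂_of_le a ha le_rfl

theorem halg_Fh_le (r : ℕ) (S : Finset (Ix α β)) : H.Fh r S ≤ wedge ⊤ r :=
  iSup₂_le fun _ _ => EA.wedge_mono le_top r

theorem halg_Fh_bot (r : ℕ) {S : Finset (Ix α β)} (h : ¬ (mons S).Nonempty) : H.Fh r S ≤ ⊥ :=
  iSup₂_le fun a ha => absurd ⟨a, ha⟩ h

theorem halg_FX_bot (r : ℕ) {S : Finset (Ix α β)} (h : ¬ (mons S).Nonempty) : H.FX r S ≤ ⊥ :=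
  iSup₂_le fun a ha => absurd ⟨a, ha⟩ h

theorem halg_tl_Ih (S : Finset (Ix α β)) {x : Mv (n + 1)} (hx : x ∈ H.Ih S) :
    ExteriorAlgebra.map (halg_tl n) x ∈ H.I0 S := by
  unfold Ih at hx
  unfold I0
  split_ifs at hx ⊢ with e
  · exact Submodule.mem_top
  · refine halg_ideal_map _ (fun u hu => ?_) hx
    refine Submodule.mem_comap.1
      ((Submodule.span_le (p := Submodule.comap (halg_tl n) _)).2 ?_ hu)
    rintro _ ⟨j, hj, rfl⟩
    exact Submodule.subset_span ⟨j, hj, (halg_tl_cons _ _).symm⟩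

theorem halg_vw_I0 (S : Finset (Ix α β)) {x : Mv n} (hx : x ∈ H.I0 S) : vw n x ∈ H.Ih S := by
  unfold I0 at hx
  unfold Ih
  split_ifs at hx ⊢ with e
  · exact Submodule.mem_top
  · refine Submodule.mul_induction_on hx (fun u hu y _ => ?_) fun u v hu hv => ?_
    · obtain ⟨w, hw, rfl⟩ := hu
      have hle : Submodule.span ℚ (H.dir '' cuts S) ≤
          (Submodule.span ℚ (H.dh '' cuts S)).map (halg_tl n) := by
        refine Submodule.span_le.2 ?_
        rintro _ ⟨j, hj, rfl⟩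
        exact ⟨H.dh j, Submodule.subset_span ⟨j, hj, rfl⟩, halg_tl_cons _ _⟩
      obtain ⟨u, hu, rfl⟩ := hle hw
      have h1 : halg_in n (halg_tl n u) = u - u 0 • halg_e n := by
        rw [halg_in_apply]
        funext i
        refine Fin.cases ?_ (fun i => ?_) i <;> simp [halg_tl, halg_e]
      have h2 : (ι ℚ (halg_e n) * ι ℚ (halg_e n) : Mv (n + 1)) = 0 := ι_sq_zero _
      rw [halg_vw, map_mul, map_apply_ι, h1, map_sub, map_smul, ← mul_assoc, mul_sub,
        mul_smul_comm, h2, smul_zero, sub_zero, halg_swap, neg_mul, mul_assoc]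
      exact neg_mem (Submodule.mul_mem_mul (Submodule.mem_map_of_mem hu) Submodule.mem_top)
    · rw [map_add]
      exact add_mem hu hv

theorem halg_s_I0 (h : H.Fm K vx up rk) {S : Finset (Ix α β)} (hS : K S) {a : α}
    (ha : a ∈ mons S) {x : Mv n} (hx : x ∈ H.I0 S) :
    ExteriorAlgebra.map (halg_s (H.ex a)) x ∈ H.Ih S := by
  unfold I0 at hx
  unfold Ih
  split_ifs at hx ⊢ with e
  · exact Submodule.mem_top
  · refine halg_ideal_map _ (fun u hu => ?_) hx
    refine Submodule.mem_comap.1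
      ((Submodule.span_le (p := Submodule.comap (halg_s (H.ex a)) _)).2 ?_ hu)
    rintro _ ⟨j, hj, rfl⟩
    refine Submodule.subset_span ⟨j, hj, ?_⟩
    rw [halg_s_apply, h.face S hS a ha j hj]
    rfl

theorem halg_ctr_Ih (h : H.Fm K vx up rk) {S : Finset (Ix α β)} (hS : K S) {a : α}
    (ha : a ∈ mons S) {x : Mv (n + 1)} (hx : x ∈ H.Ih S) :
    ctr (dl (H.lam (some (.inl a)))) x ∈ H.Ih S := by
  unfold Ih at hx ⊢
  split_ifs at hx ⊢ with e
  · exact Submodule.mem_top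
  · refine halg_ideal_ctr _ (fun u hu => ?_) hx
    refine LinearMap.mem_ker.1 ((Submodule.span_le (p := LinearMap.ker _)).2 ?_ hu)
    rintro _ ⟨j, hj, rfl⟩
    refine LinearMap.mem_ker.2 ?_
    rw [halg_lam, dh, halg_l, h.face S hS a ha j hj, sub_self]

theorem halg_back (a : α) (x : Mv n) : ExteriorAlgebra.map (halg_tl n)
    (ctr (dl (H.lam (some (.inl a)))) (vw n x)) = x := by
  have : dl (H.lam (some (.inl a))) (halg_e n) = 1 := by
    rw [halg_lam, halg_e, halg_l, dotProduct_zero, sub_zero]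
  rw [halg_vw, halg_ctr_mul, this, one_smul, map_sub, halg_tl_e, halg_tl_in, sub_zero]

theorem halg_mod {S : Finset (Ix α β)} {a : α} (ha : a ∈ mons S) (p : ℕ) {x : Mv (n + 1)}
    (hx : x ∈ H.Fh (p + 1) S) :
    x - ExteriorAlgebra.map (halg_s (H.ex a)) (ExteriorAlgebra.map (halg_tl n) x) ∈
      (H.FX p S).map (vw n) := by
  have : H.Fh (p + 1) S ≤ ((H.FX p S).map (vw n)).comap (LinearMap.id -
      (ExteriorAlgebra.map (halg_s (H.ex a))).toLinearMap ∘ₗ
        (ExteriorAlgebra.map (halg_tl n)).toLinearMap) := by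
    refine iSup₂_le fun b hb y hy => ?_
    change y - ExteriorAlgebra.map (halg_s (H.ex a)) (ExteriorAlgebra.map (halg_tl n) y) ∈
      (H.FX p S).map (vw n)
    by_cases e : b = a
    · subst e
      rw [halg_s_tl b _ hy, sub_self]
      exact zero_mem _
    · have k := halg_diff (H.ex b) (H.ex a) (ExteriorAlgebra.map (halg_tl n) y)
      rw [halg_s_tl b _ hy] at k
      rw [k]
      refine Submodule.mem_map_of_mem ?_
      have hle : wedge (LinearMap.ker (dl (H.ex b - H.ex a))) p ≤ H.FX p S :=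
        le_iSup₂_of_le b hb (le_iSup₂_of_le a ha (le_iSup_of_le e le_rfl))
      exact hle (halg_ctr_mem _ p
        (halg_wedge_map _ (fun _ _ => Submodule.mem_top) _ y hy))
  exact this hx

theorem halg_G_le (h : H.Fm K vx up rk) {S : Finset (Ix α β)} (hS : K S) (p : ℕ) :
    (H.FX p S).map (vw n) ≤ H.Fh (p + 1) S := by
  refine Submodule.map_le_iff_le_comap.2 (iSup₂_le fun a ha => iSup₂_le fun b hb =>
    iSup_le fun e x hx => ?_)
  have hne : dl (H.ex a - H.ex b) ≠ 0 := fun k => by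
    have k1 : H.ex a = H.ex b := by
      have := LinearMap.congr_fun k (H.ex a - H.ex b)
      rw [dl_apply, LinearMap.zero_apply, dotProduct_self_eq_zero, sub_eq_zero] at this
      exact this
    have k2 := (h.indep S hS).injOn (Finset.mem_coe.2 ha) (Finset.mem_coe.2 hb)
      (by rw [halg_lam, halg_lam, k1])
    exact e (Sum.inl_injective (Option.some_injective _ k2))
  obtain ⟨t, ht⟩ := halg_unit hne
  have hy : ι ℚ t * x ∈ wedge ⊤ (p + 1) :=
    EA.mul_mem_wedge Submodule.mem_top (EA.wedge_mono le_top p hx)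
  have k := halg_diff (H.ex a) (H.ex b) (ι ℚ t * x)
  rw [halg_ctr_mul, ht, halg_ctr_ker _ p x hx, one_smul, mul_zero, sub_zero] at k
  rw [Submodule.mem_comap, ← k]
  exact sub_mem (halg_le_Fh ha _ (halg_s_mem a _ hy)) (halg_le_Fh hb _ (halg_s_mem b _ hy))

theorem Fm.ex_FX (h : H.Fm K vx up rk) {c : List (Finset (Ix α β)) → Prop} (hc : Cv c)
    (hK : ∀ S l, c (S :: l) → K S) {p g : ℕ}
    (e1 : Ex c (fun _ => wedge ⊤ (p + 1)) (fun S => H.Ih S ⊔ H.Fh (p + 1) S) (g + 1))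
    (e2 : Ex c (fun _ => wedge ⊤ (p + 1)) H.Ih g)
    (e3 : Ex c (fun _ => wedge ⊤ (p + 1)) (fun S => H.I0 S ⊔ H.FY (p + 1) S) (g + 2))
    (e4 : Ex c (fun _ => wedge ⊤ (p + 1)) H.I0 (g + 1)) : Ex c (H.FX p) H.I0 g := by
  have s1 : Ex c (H.Fh (p + 1)) H.Ih g :=
    Ex.sub hc monotone_const (H.Fh_mono _) H.Ih_mono (fun S _ _ => halg_Fh_le _ S) e1 e2
  have s2 : Ex c (H.FY (p + 1)) H.I0 (g + 1) :=
    Ex.sub hc monotone_const (H.FY_mono _) H.I0_mono (fun S _ _ => by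
      unfold FY
      split_ifs
      · exact le_rfl
      · exact bot_le) e3 e4
  have s3 : Ex c (H.Fh (p + 1)) (fun S => H.Ih S ⊔ (H.FX p S).map (vw n)) (g + 1) := by
    refine Ex.pull (ExteriorAlgebra.map (halg_tl n)).toLinearMap hc (H.Fh_mono _)
      (fun S _ _ x hx => ?_) (fun S _ _ x hx => ?_) (fun S _ _ => ?_) (fun S l hl x hx k => ?_) s2
    · unfold FY
      split_ifs with e
      · exact halg_wedge_map _ (fun _ _ => Submodule.mem_top) _ x (halg_Fh_le _ S hx)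
      · rw [(Submodule.mem_bot ℚ).1 (halg_Fh_bot _ e hx), map_zero]
        exact zero_mem _
    · obtain ⟨u, hu, _, ⟨v, -, rfl⟩, rfl⟩ := Submodule.mem_sup.1 hx
      rw [map_add, AlgHom.toLinearMap_apply, AlgHom.toLinearMap_apply, halg_vw, halg_tl_e,
        add_zero]
      exact halg_tl_Ih S hu
    · unfold FY
      split_ifs with e
      · obtain ⟨a, ha⟩ := e
        exact fun y hy => ⟨_, halg_le_Fh ha _ (halg_s_mem a _ hy), halg_tl_s _ y⟩
      · exact bot_le
    · by_cases e : (mons S).Nonempty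
      · obtain ⟨a, ha⟩ := e
        exact Submodule.mem_sup.2 ⟨_, halg_s_I0 h (hK S l hl) ha k, _, halg_mod ha p hx,
          add_sub_cancel _ _⟩
      · rw [(Submodule.mem_bot ℚ).1 (halg_Fh_bot _ e hx)]
        exact zero_mem _
  have s4 : Ex c (fun S => (H.FX p S).map (vw n)) H.Ih g :=
    Ex.sub hc (H.Fh_mono _) (fun _ _ k => Submodule.map_mono (H.FX_mono p k)) H.Ih_mono
      (fun S l hl => halg_G_le h (hK S l hl) p) s3 s1
  refine Ex.pull (vw n) hc (H.FX_mono p) (fun S _ _ x hx => Submodule.mem_map_of_mem hx)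
    (fun S _ _ x hx => halg_vw_I0 S hx) (fun S _ _ => le_rfl) (fun S l hl x hx k => ?_) s4
  by_cases e : (mons S).Nonempty
  · obtain ⟨a, ha⟩ := e
    rw [← halg_back (H := H) a x]
    exact halg_tl_Ih S (halg_ctr_Ih h (hK S l hl) ha k)
  · rw [(Submodule.mem_bot ℚ).1 (halg_FX_bot _ e hx)]
    exact zero_mem _

end H5T.Hyp
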