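import Pool.Agent.Lib.MP_e9c0f3_ag.HY.Morse

/-! A linear function in general position shells the boundary complex of a simple polytope. -/

open Matrix
open scoped Classical

noncomputable section

namespace H5T.HY

variable {I : Type} [Fintype I] {m : ℕ}

/-- The polyhedron `cs s ≤ lam s · y`. -/
def body (lam : I → Fin m → ℚ) (cs : I → ℝ) : Set (Pt m) := {y | ∀ s, cs s ≤ rv (lam s) ⬝ᵥ y}

/-- Sets of constraints that are tight at a common point. -/
def nerve (lam : I → Fin m → ℚ) (cs : I → ℝ) (S : Finset I) : Prop :=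
  ∃ y ∈ body lam cs, ∀ s ∈ S, rv (lam s) ⬝ᵥ y = cs s

/-- Bounded and simple. -/
structure Simple (lam : I → Fin m → ℚ) (cs : I → ℝ) : Prop where
  bdd : Bornology.IsBounded (body lam cs)
  indep : ∀ y ∈ body lam cs, LinearIndepOn ℚ lam {s | rv (lam s) ⬝ᵥ y = cs s}

variable {lam : I → Fin m → ℚ} {cs : I → ℝ}

omit [Fintype I] in
/-- Independent rational covectors take prescribed rational values. -/
theorem exists_dual_vec {T : Set I} (h : LinearIndepOn ℚ lam T) (x : I → ℚ) :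
    ∃ w : Fin m → ℚ, ∀ s ∈ T, lam s ⬝ᵥ w = x s := by
  obtain ⟨g, hg⟩ := (Finsupp.linearCombination ℚ fun s : T => lam s).exists_leftInverse_of_injective
    (LinearMap.ker_eq_bot.2 h)
  let f : (Fin m → ℚ) →ₗ[ℚ] ℚ := (Finsupp.linearCombination ℚ fun s : T => x s) ∘ₗ g
  have hf : ∀ s : T, f (lam s) = x s := fun s => by
    have h1 := LinearMap.congr_fun hg (Finsupp.single s 1)
    simp only [LinearMap.comp_apply, Finsupp.linearCombination_single, one_smul,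
      LinearMap.id_apply] at h1
    simp only [f, LinearMap.comp_apply, h1, Finsupp.linearCombination_single, one_smul]
  refine ⟨fun i => f (Pi.single i 1), fun s hs => ?_⟩
  rw [← hf ⟨s, hs⟩, LinearMap.pi_apply_eq_sum_univ f (lam s), dotProduct]
  refine Finset.sum_congr rfl fun i _ => ?_
  rw [smul_eq_mul]
  congr 2
  ext j
  simp [Pi.single_apply, eq_comm]

omit [Fintype I] in
lemma poly_dot (s : I) (y : Pt m) (τ : ℝ) (w : Fin m → ℚ) :
    rv (lam s) ⬝ᵥ (y + τ • rv w) = rv (lam s) ⬝ᵥ y + τ * ((lam s ⬝ᵥ w : ℚ) : ℝ) := by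
  rw [dotProduct_add, dotProduct_smul, G33.rv_dot, smul_eq_mul]

theorem Simple.exists_exact (h : Simple lam cs) {S : Finset I} (hS : nerve lam cs S) :
    ∃ y ∈ body lam cs, ∀ s, rv (lam s) ⬝ᵥ y = cs s ↔ s ∈ S := by
  obtain ⟨y, hy, hyS⟩ := hS
  obtain ⟨w, hw⟩ := exists_dual_vec (h.indep y hy) fun s => if s ∈ S then 0 else 1
  have h1 : ∀ᶠ e in nhdsWithin (0 : ℝ) (Set.Ioi 0), ∀ s, s ∉ S →
      cs s < rv (lam s) ⬝ᵥ (y + e • rv w) := by
    refine Filter.eventually_all.2 fun s => ?_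
    simp only [poly_dot]
    rcases (hy s).lt_or_eq with c | c
    · have hc : ContinuousAt (fun e : ℝ => rv (lam s) ⬝ᵥ y + e * ((lam s ⬝ᵥ w : ℚ) : ℝ)) 0 := by
        fun_prop
      have : ∀ᶠ e in nhds (0 : ℝ), cs s < rv (lam s) ⬝ᵥ y + e * ((lam s ⬝ᵥ w : ℚ) : ℝ) :=
        continuousAt_const.eventually_lt hc (by simpa)
      exact (this.filter_mono nhdsWithin_le_nhds).mono fun e he _ => he
    · refine (eventually_mem_nhdsWithin).mono fun e he hs => ?_
      have he' : 0 < e := he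
      rw [hw s c.symm, if_neg hs, ← c]
      simpa using he'
  obtain ⟨e, he⟩ := h1.exists
  have h2 : ∀ s ∈ S, rv (lam s) ⬝ᵥ (y + e • rv w) = cs s := fun s hs => by
    rw [poly_dot, hw s (hyS s hs), if_pos hs, hyS s hs]
    simp
  refine ⟨y + e • rv w, fun s => ?_, fun s => ⟨fun c => ?_, h2 s⟩⟩
  · by_cases hs : s ∈ S
    · exact (h2 s hs).ge
    · exact (he s hs).le
  · by_contra hs
    exact (he s hs).ne' c

omit [Fintype I] in
lemma poly_indep (h : Simple lam cs) {S : Finset I} (hS : nerve lam cs S) :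
    LinearIndepOn ℚ lam (S : Set I) := by
  obtain ⟨y, hy, hyS⟩ := hS
  exact (h.indep y hy).mono fun s hs => hyS s hs

omit [Fintype I] in
lemma poly_card (h : Simple lam cs) {S : Finset I} (hS : nerve lam cs S) : S.card ≤ m := by
  have := LinearIndependent.fintype_card_le_finrank (poly_indep h hS)
  simpa using this

/-- Moving in a nonzero direction one meets a first constraint that decreases. -/
lemma poly_move (h : Simple lam cs) {y : Pt m} (hy : y ∈ body lam cs) {w : Fin m → ℚ}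
    (hw : w ≠ 0) : ∃ (τ : ℝ) (t : I), 0 ≤ τ ∧ lam t ⬝ᵥ w < 0 ∧ y + τ • rv w ∈ body lam cs ∧
      rv (lam t) ⬝ᵥ (y + τ • rv w) = cs t := by
  have hN : (Finset.univ.filter fun t => lam t ⬝ᵥ w < 0).Nonempty := by
    by_contra hn
    have h1 : ∀ t, 0 ≤ lam t ⬝ᵥ w := fun t => by
      by_contra c
      exact hn ⟨t, Finset.mem_filter.2 ⟨Finset.mem_univ _, not_le.1 c⟩⟩
    obtain ⟨C, hC⟩ := h.bdd.exists_norm_le
    have hw' : 0 < ‖rv w‖ := by
      refine norm_pos_iff.2 fun c => hw (funext fun i => ?_)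
      have := congrFun c i
      rw [G33.rv_apply, Pi.zero_apply] at this
      exact Rat.cast_eq_zero.1 this
    have hC0 := (norm_nonneg y).trans (hC y hy)
    have hτ : 0 ≤ (2 * C + 1) / ‖rv w‖ := by positivity
    have h2 : y + ((2 * C + 1) / ‖rv w‖) • rv w ∈ body lam cs := fun s => by
      rw [poly_dot]
      have h3 : (0 : ℝ) ≤ ((lam s ⬝ᵥ w : ℚ) : ℝ) := by exact_mod_cast h1 s
      exact (hy s).trans (le_add_of_nonneg_right (mul_nonneg hτ h3))
    have h4 := norm_sub_le (y + ((2 * C + 1) / ‖rv w‖) • rv w) y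
    rw [add_sub_cancel_left, norm_smul, Real.norm_of_nonneg hτ, div_mul_cancel₀ _ hw'.ne'] at h4
    linarith [hC _ h2, hC y hy]
  obtain ⟨t, ht, hmin⟩ := Finset.exists_min_image _
    (fun t => (rv (lam t) ⬝ᵥ y - cs t) / (-((lam t ⬝ᵥ w : ℚ) : ℝ))) hN
  have ht' := (Finset.mem_filter.1 ht).2
  have ht2 : (0 : ℝ) < -((lam t ⬝ᵥ w : ℚ) : ℝ) := by
    rw [neg_pos]; exact_mod_cast ht'
  have hτ : 0 ≤ (rv (lam t) ⬝ᵥ y - cs t) / (-((lam t ⬝ᵥ w : ℚ) : ℝ)) :=
    div_nonneg (sub_nonneg.2 (hy t)) ht2.le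
  refine ⟨_, t, hτ, ht', fun s => ?_, ?_⟩
  · rw [poly_dot]
    rcases lt_or_ge (lam s ⬝ᵥ w) 0 with c | c
    · have h1 := hmin s (Finset.mem_filter.2 ⟨Finset.mem_univ _, c⟩)
      have hs2 : (0 : ℝ) < -((lam s ⬝ᵥ w : ℚ) : ℝ) := by
        rw [neg_pos]; exact_mod_cast c
      rw [le_div_iff₀ hs2] at h1
      linarith
    · have h3 : (0 : ℝ) ≤ ((lam s ⬝ᵥ w : ℚ) : ℝ) := by exact_mod_cast c
      exact (hy s).trans (le_add_of_nonneg_right (mul_nonneg hτ h3))
  · rw [poly_dot]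
    have := div_mul_cancel₀ (rv (lam t) ⬝ᵥ y - cs t) ht2.ne'
    linarith

/-- Every member of the nerve lies in a member with `m` elements. -/
lemma poly_extend (h : Simple lam cs) (k : ℕ) : ∀ S : Finset I, nerve lam cs S → S.card + k = m →
    ∃ v, nerve lam cs v ∧ v.card = m ∧ S ⊆ v := by
  induction k with
  | zero => exact fun S hS hc => ⟨S, hS, hc, subset_rfl⟩
  | succ k ih =>
    intro S hS hc
    have hU : Submodule.span ℚ (Set.range fun s : S => lam s) ≠ ⊤ := fun c => by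
      have h1 := finrank_range_le_card (R := ℚ) fun s : S => lam s
      rw [Set.finrank, c] at h1
      simp at h1
      omega
    obtain ⟨a, ha⟩ : ∃ a, a ∉ Submodule.span ℚ (Set.range fun s : S => lam s) := by
      by_contra c
      exact hU (eq_top_iff.2 fun a _ => by_contra fun c' => c ⟨a, c'⟩)
    obtain ⟨w, hw, hwa⟩ := EA.exists_sep ha
    have hw0 : w ≠ 0 := fun c => hwa (by rw [c, zero_dotProduct])
    have hwS : ∀ s ∈ S, lam s ⬝ᵥ w = 0 := fun s hs => by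
      rw [dotProduct_comm]
      exact hw _ (Submodule.subset_span ⟨⟨s, hs⟩, rfl⟩)
    obtain ⟨y, hy, hyS⟩ := hS
    obtain ⟨τ, t, -, ht, hb, htt⟩ := poly_move h hy hw0
    have htS : t ∉ S := fun c => ht.ne (hwS t c)
    obtain ⟨v, hv, hvc, hsub⟩ := ih (insert t S) ⟨_, hb, fun s hs => by
      rcases Finset.mem_insert.1 hs with rfl | hs
      · exact htt
      · rw [poly_dot, hwS s hs, hyS s hs]
        simp⟩ (by rw [Finset.card_insert_of_notMem htS]; omega)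
    exact ⟨v, hv, hvc, (Finset.subset_insert _ _).trans hsub⟩

omit [Fintype I] in
/-- Expansion of a covector in the basis given by a vertex. -/
lemma poly_expand {v : Finset I} (hi : LinearIndepOn ℚ lam (v : Set I)) (hc : v.card = m)
    {e : I → Fin m → ℚ} (he : ∀ s ∈ v, ∀ t ∈ v, lam t ⬝ᵥ e s = if t = s then 1 else 0)
    (g : Fin m → ℚ) : g = ∑ s ∈ v, (g ⬝ᵥ e s) • lam s := by
  have hsp := LinearIndependent.span_eq_top_of_card_eq_finrank' hi (by simpa using hc)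
  obtain ⟨c, hcg⟩ := (Submodule.mem_span_range_iff_exists_fun ℚ).1
    (hsp ▸ Submodule.mem_top : g ∈ Submodule.span ℚ (Set.range fun s : (v : Set I) => lam s))
  have h1 : ∀ s : (v : Set I), g ⬝ᵥ e s = c s := fun s => by
    rw [← hcg, sum_dotProduct, Finset.sum_eq_single s]
    · rw [smul_dotProduct, he s s.2 s s.2]; simp
    · intro t _ hts
      rw [smul_dotProduct, he s s.2 t t.2, if_neg fun c => hts (Subtype.ext c)]; simp
    · simp
  rw [← Finset.sum_coe_sort v]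
  refine hcg.symm.trans ?_
  exact Finset.sum_congr rfl fun s _ => by rw [h1 s]

/-- A small generic perturbation of a covector. -/
lemma poly_generic {J : Type} [Finite J] (e : J → Fin m → ℚ) (he : ∀ j, e j ≠ 0)
    (γ : Fin m → ℚ) : ∃ γ' : Fin m → ℚ, ∀ j, γ' ⬝ᵥ e j ≠ 0 ∧ (0 < γ ⬝ᵥ e j → 0 < γ' ⬝ᵥ e j) ∧
      (γ ⬝ᵥ e j < 0 → γ' ⬝ᵥ e j < 0) := by
  obtain ⟨ξ, hξ⟩ := Module.Dual.exists_forall_ne_zero_of_forall_exists (K := ℚ)
    (fun j => (dotProductBilin ℚ ℚ (e j) : (Fin m → ℚ) →ₗ[ℚ] ℚ)) fun j =>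
      ⟨e j, fun c => he j (dotProduct_self_eq_zero.1 c)⟩
  have hξ' : ∀ j, ξ ⬝ᵥ e j ≠ 0 := fun j => by rw [dotProduct_comm]; exact hξ j
  have h1 : ∀ᶠ ε in nhdsWithin (0 : ℚ) (Set.Ioi 0), ∀ j, (γ + ε • ξ) ⬝ᵥ e j ≠ 0 ∧
      (0 < γ ⬝ᵥ e j → 0 < (γ + ε • ξ) ⬝ᵥ e j) ∧ (γ ⬝ᵥ e j < 0 → (γ + ε • ξ) ⬝ᵥ e j < 0) := by
    refine Filter.eventually_all.2 fun j => ?_
    simp only [add_dotProduct, smul_dotProduct, smul_eq_mul]
    have hc : ContinuousAt (fun ε : ℚ => γ ⬝ᵥ e j + ε * ξ ⬝ᵥ e j) 0 := by fun_prop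
    rcases lt_trichotomy (γ ⬝ᵥ e j) 0 with c | c | c
    · have : ∀ᶠ ε in nhds (0 : ℚ), γ ⬝ᵥ e j + ε * ξ ⬝ᵥ e j < 0 :=
        hc.eventually_lt continuousAt_const (by simpa)
      exact (this.filter_mono nhdsWithin_le_nhds).mono fun ε hε =>
        ⟨hε.ne, fun c' => absurd c c'.not_gt, fun _ => hε⟩
    · refine (eventually_mem_nhdsWithin).mono fun ε hε => ?_
      have hε' : 0 < ε := hε
      rw [c, zero_add]
      exact ⟨mul_ne_zero hε'.ne' (hξ' j), fun c' => absurd c' (lt_irrefl _),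
        fun c' => absurd c' (lt_irrefl _)⟩
    · have : ∀ᶠ ε in nhds (0 : ℚ), 0 < γ ⬝ᵥ e j + ε * ξ ⬝ᵥ e j :=
        continuousAt_const.eventually_lt hc (by simpa)
      exact (this.filter_mono nhdsWithin_le_nhds).mono fun ε hε =>
        ⟨hε.ne', fun _ => hε, fun c' => absurd c c'.not_gt⟩
  obtain ⟨ε, hε⟩ := h1.exists
  exact ⟨_, hε⟩

theorem Simple.shell (h : Simple lam cs) (γ : Fin m → ℚ) : ∃ vx up rk,
    Shell (nerve lam cs) vx up rk ∧ ∀ S, nerve lam cs S → (vx S).card = m ∧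
      (∀ w : Fin m → ℚ, (∀ s ∈ vx S, 0 ≤ lam s ⬝ᵥ w) → (∀ s ∈ up (vx S), lam s ⬝ᵥ w = 0) →
        γ ⬝ᵥ w ≤ 0) ∧
      ∀ w : Fin m → ℚ, (∀ s ∈ vx S, 0 ≤ lam s ⬝ᵥ w) →
        (∀ s ∈ vx S, s ∉ up (vx S) → lam s ⬝ᵥ w = 0) → 0 ≤ γ ⬝ᵥ w := by
  -- points and edge vectors
  have hP : ∀ v : Finset I, ∃ y : Pt m, nerve lam cs v →
      y ∈ body lam cs ∧ ∀ s ∈ v, rv (lam s) ⬝ᵥ y = cs s := fun v => by
    by_cases hv : nerve lam cs v
    · obtain ⟨y, hy⟩ := hv
      exact ⟨y, fun _ => hy⟩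
    · exact ⟨0, fun c => absurd c hv⟩
  choose P hP using hP
  have hE : ∀ (v : Finset I) (s : I), ∃ w : Fin m → ℚ, nerve lam cs v →
      ∀ t ∈ v, lam t ⬝ᵥ w = if t = s then 1 else 0 := fun v s => by
    by_cases hv : nerve lam cs v
    · obtain ⟨w, hw⟩ := exists_dual_vec (poly_indep h hv) fun t => if t = s then 1 else 0
      exact ⟨w, fun _ t ht => hw t ht⟩
    · exact ⟨0, fun c => absurd c hv⟩
  choose e hE using hE
  have hE0 : ∀ v s, nerve lam cs v → s ∈ v → e v s ≠ 0 := fun v s hv hs c => by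
    have := hE v s hv s hs
    rw [c] at this
    simp at this
  obtain ⟨γ', hγ'⟩ := poly_generic (J := {q : Finset I × I // nerve lam cs q.1 ∧ q.2 ∈ q.1})
    (fun q => e q.1.1 q.1.2) (fun q => hE0 _ _ q.2.1 q.2.2) γ
  have hg : ∀ v s, nerve lam cs v → s ∈ v → γ' ⬝ᵥ e v s ≠ 0 ∧
      (0 < γ ⬝ᵥ e v s → 0 < γ' ⬝ᵥ e v s) ∧ (γ ⬝ᵥ e v s < 0 → γ' ⬝ᵥ e v s < 0) :=
    fun v s hv hs => hγ' ⟨(v, s), hv, hs⟩
  let up : Finset I → Finset I := fun v => v.filter fun s => 0 < γ' ⬝ᵥ e v s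
  let rk : Finset I → ℝ := fun v => rv γ' ⬝ᵥ P v
  have hup : ∀ v s, s ∈ up v ↔ s ∈ v ∧ 0 < γ' ⬝ᵥ e v s := fun v s => Finset.mem_filter
  have hex : ∀ v, nerve lam cs v → v.card = m → ∀ g : Fin m → ℚ,
      g = ∑ s ∈ v, (g ⬝ᵥ e v s) • lam s := fun v hv hc g =>
    poly_expand (poly_indep h hv) hc (fun s _ t ht => hE v s hv t ht) g
  have hF : ∀ v, nerve lam cs v → v.card = m → ∀ y : Pt m, rv γ' ⬝ᵥ y - rk v
      = ∑ s ∈ v, ((γ' ⬝ᵥ e v s : ℚ) : ℝ) * (rv (lam s) ⬝ᵥ y - cs s) := fun v hv hc y => by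
    have h1 : rv γ' = ∑ s ∈ v, ((γ' ⬝ᵥ e v s : ℚ) : ℝ) • rv (lam s) := by
      conv_lhs => rw [hex v hv hc γ']
      rw [map_sum]
      exact Finset.sum_congr rfl fun s _ => by rw [map_smul, Rat.cast_smul_eq_qsmul]
    rw [show rk v = rv γ' ⬝ᵥ P v from rfl, ← dotProduct_sub, h1, sum_dotProduct]
    refine Finset.sum_congr rfl fun s hs => ?_
    rw [smul_dotProduct, smul_eq_mul, dotProduct_sub, (hP v hv).2 s hs]
  -- the tight constraints at a vertex
  have htight : ∀ v, nerve lam cs v → v.card = m → ∀ t, rv (lam t) ⬝ᵥ P v = cs t → t ∈ v := by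
    intro v hv hc t ht
    by_contra c
    have h1 := poly_card h (S := insert t v) ⟨P v, (hP v hv).1, fun s hs => by
      rcases Finset.mem_insert.1 hs with rfl | hs
      · exact ht
      · exact (hP v hv).2 s hs⟩
    rw [Finset.card_insert_of_notMem c] at h1
    omega
  have cmp : ∀ v v', nerve lam cs v → v.card = m → nerve lam cs v' → v'.card = m → up v ⊆ v' →
      v = v' ∨ rk v' < rk v := by
    intro v v' hv hc hv' hc' hsub
    have hle : ∀ s ∈ v, ((γ' ⬝ᵥ e v s : ℚ) : ℝ) * (rv (lam s) ⬝ᵥ P v' - cs s) ≤ 0 := by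
      intro s hs
      by_cases c : 0 < γ' ⬝ᵥ e v s
      · rw [(hP v' hv').2 s (hsub ((hup v s).2 ⟨hs, c⟩)), sub_self, mul_zero]
      · exact mul_nonpos_of_nonpos_of_nonneg (by exact_mod_cast not_lt.1 c)
          (sub_nonneg.2 ((hP v' hv').1 s))
    have h1 := hF v hv hc (P v')
    rcases (Finset.sum_nonpos hle).lt_or_eq with c | c
    · exact Or.inr (sub_neg.1 (h1 ▸ c))
    · refine Or.inl (Finset.eq_of_subset_of_card_le (fun s hs => ?_) (by omega))
      have h2 := (Finset.sum_eq_zero_iff_of_nonpos hle).1 c s hs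
      rcases mul_eq_zero.1 h2 with c' | c'
      · exact absurd (by exact_mod_cast c') (hg v s hv hs).1
      · exact htight v' hv' hc' s (sub_eq_zero.1 c')
  have hM : ∀ S : Finset I, ∃ v : Finset I, nerve lam cs S →
      nerve lam cs v ∧ v.card = m ∧ S ⊆ v ∧ up v ⊆ S := by
    intro S
    by_cases hS : nerve lam cs S
    swap
    · exact ⟨∅, fun c => absurd c hS⟩
    obtain ⟨k, hk⟩ := Nat.exists_eq_add_of_le (poly_card h hS)
    obtain ⟨v₀, hv₀⟩ := poly_extend h k S hS hk.symm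
    obtain ⟨v, hv, hmax⟩ := Finset.exists_max_image
      (Finset.univ.filter fun v : Finset I => nerve lam cs v ∧ v.card = m ∧ S ⊆ v) rk
      ⟨v₀, Finset.mem_filter.2 ⟨Finset.mem_univ _, hv₀⟩⟩
    obtain ⟨hv, hc, hSv⟩ := (Finset.mem_filter.1 hv).2
    refine ⟨v, fun _ => ⟨hv, hc, hSv, fun s₀ hs₀ => ?_⟩⟩
    by_contra hn
    obtain ⟨hs₀v, hpos⟩ := (hup v s₀).1 hs₀
    obtain ⟨τ, t, hτ, ht, hb, htt⟩ := poly_move h (hP v hv).1 (hE0 v s₀ hv hs₀v)
    have htv : t ∉ v := fun c => by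
      rw [hE v s₀ hv t c] at ht
      split_ifs at ht <;> norm_num at ht
    have hτ' : 0 < τ := hτ.lt_of_ne fun c => htv (htight v hv hc t (by simpa [← c] using htt))
    have htight' : ∀ s ∈ insert t (v.erase s₀),
        rv (lam s) ⬝ᵥ (P v + τ • rv (e v s₀)) = cs s := fun s hs => by
      rcases Finset.mem_insert.1 hs with rfl | hs
      · exact htt
      · obtain ⟨h1, h2⟩ := Finset.mem_erase.1 hs
        rw [poly_dot, hE v s₀ hv s h2, if_neg h1, (hP v hv).2 s h2]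
        simp
    have hv' : nerve lam cs (insert t (v.erase s₀)) := ⟨_, hb, htight'⟩
    have hc' : (insert t (v.erase s₀)).card = m := by
      rw [Finset.card_insert_of_notMem fun c => htv (Finset.mem_of_mem_erase c),
        Finset.card_erase_add_one hs₀v, hc]
    have h1 := hmax _ (Finset.mem_filter.2 ⟨Finset.mem_univ _, hv', hc', fun s hs =>
      Finset.mem_insert_of_mem (Finset.mem_erase.2 ⟨fun c => hn (c ▸ hs), hSv hs⟩)⟩)
    have h2 := hF _ hv' hc' (P v + τ • rv (e v s₀))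
    rw [Finset.sum_eq_zero fun s hs => by rw [htight' s hs, sub_self, mul_zero], dotProduct_add,
      dotProduct_smul, G33.rv_dot, smul_eq_mul] at h2
    have h3 : (0 : ℝ) < ((γ' ⬝ᵥ e v s₀ : ℚ) : ℝ) := by exact_mod_cast hpos
    have h4 := mul_pos hτ' h3
    have h5 : rk v = rv γ' ⬝ᵥ P v := rfl
    linarith
  choose vx hvx using hM
  have hdown : ∀ S S' : Finset I, S ⊆ S' → nerve lam cs S' → nerve lam cs S :=
    fun S S' hs ⟨y, hy, hyS⟩ => ⟨y, hy, fun s c => hyS s (hs c)⟩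
  refine ⟨vx, up, rk, ⟨hdown, fun S hS => (hvx S hS).1, fun S hS => (hvx S hS).2.2.1,
    fun S hS => (hvx S hS).2.2.2, fun S S' hS' h1 h2 => ?_, fun S S' hS' h1 => ?_⟩,
    fun S hS => ⟨(hvx S hS).2.1, fun w h1 h2 => ?_, fun w h1 h2 => ?_⟩⟩
  · obtain ⟨a', b', -, -⟩ := hvx S' hS'
    obtain ⟨a, b, c, d⟩ := hvx S (hdown _ _ h1 a')
    rcases cmp _ _ a b a' b' (d.trans h1) with k | k
    · exact k
    · rcases cmp _ _ a' b' a b (h2.trans c) with k' | k'
      · exact k'.symm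
      · exact absurd k k'.not_gt
  · obtain ⟨a', b', c', -⟩ := hvx S' hS'
    obtain ⟨a, b, -, d⟩ := hvx S (hdown _ _ h1 hS')
    exact cmp _ _ a b a' b' (d.trans (h1.trans c'))
  · obtain ⟨a, b, -, -⟩ := hvx S hS
    rw [hex _ a b γ, sum_dotProduct]
    refine Finset.sum_nonpos fun s hs => ?_
    rw [smul_dotProduct, smul_eq_mul]
    by_cases c : 0 < γ ⬝ᵥ e (vx S) s
    · rw [h2 s ((hup _ s).2 ⟨hs, (hg _ s a hs).2.1 c⟩), mul_zero]
    · exact mul_nonpos_of_nonpos_of_nonneg (not_lt.1 c) (h1 s hs)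
  · obtain ⟨a, b, -, -⟩ := hvx S hS
    rw [hex _ a b γ, sum_dotProduct]
    refine Finset.sum_nonneg fun s hs => ?_
    rw [smul_dotProduct, smul_eq_mul]
    by_cases c : γ ⬝ᵥ e (vx S) s < 0
    · rw [h2 s hs fun k => ((hup _ s).1 k).2.not_gt ((hg _ s a hs).2.2 c), mul_zero]
    · exact mul_nonneg (not_lt.1 c) (h1 s hs)

end H5T.HY
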