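import Pool.Agent.Lib.MP_e9c0f3_ag.HY.Frame
import Pool.Agent.Lib.MP_e9c0f3_ag.HY.Poly

/-! Cells of the hypersurface and sets of constraints. -/

open Matrix ExteriorAlgebra
open scoped Classical

noncomputable section

namespace H5T.Hyp

variable {n : ℕ} {α β : Type} [Fintype α] [Fintype β] (H : Hyp n α β)

/-- The cell of a set of constraints. -/
def cx (S : Finset (Ix α β)) : Set (Pt n) :=
  {x ∈ H.box | (∀ a ∈ mons S, H.Top a x) ∧ ∀ j ∈ cuts S, H.On j x}

/-- The constraints that are tight on a set. -/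
def ix (σ : Set (Pt n)) : Finset (Ix α β) := Finset.univ.filter fun s => match s with
  | none => False
  | some (.inl a) => ∀ x ∈ σ, H.Top a x
  | some (.inr j) => ∀ x ∈ σ, H.On j x

variable {H} {K : Finset (Ix α β) → Prop} {vx up : Finset (Ix α β) → Finset (Ix α β)}
  {rk : Finset (Ix α β) → ℝ} {X : TropCx n}

/-- The dictionary between cells and sets of constraints. -/
structure Dict (H : Hyp n α β) (K : Finset (Ix α β) → Prop) (X : TropCx n) : Prop where
  ix_K : ∀ σ ∈ X.cells, K (H.ix σ)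
  ix_top : ∀ σ, none ∉ H.ix σ
  ix_mon : ∀ σ ∈ X.cells, (mons (H.ix σ)).Nontrivial
  cx_ix : ∀ σ ∈ X.cells, H.cx (H.ix σ) = σ
  cx_mem : ∀ S, K S → (mons S).Nontrivial → H.cx S ∈ X.cells ∧ H.ix (H.cx S) = S
  ix_anti : ∀ σ ρ, ρ ⊆ σ → H.ix σ ⊆ H.ix ρ
  cx_anti : ∀ S S', S ⊆ S' → H.cx S' ⊆ H.cx S
  F_eq : ∀ σ ∈ X.cells, ∀ p, X.F p σ = H.FX p (H.ix σ)
  I_eq : ∀ σ ∈ X.cells, X.I σ = H.I0 (H.ix σ)
  FX_bot : ∀ S, K S → ∀ p, n ≤ p → H.FX p S = ⊥

theorem hc_mon {σ : Set (Pt n)} {a : α} : a ∈ mons (H.ix σ) ↔ ∀ x ∈ σ, H.Top a x := by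
  simp [mons, ix]

theorem hc_cut {σ : Set (Pt n)} {j : β} : j ∈ cuts (H.ix σ) ↔ ∀ x ∈ σ, H.On j x := by
  simp [cuts, ix]

theorem hc_none (σ : Set (Pt n)) : none ∉ H.ix σ := by
  simp [ix]

theorem hc_anti {σ ρ : Set (Pt n)} (h : ρ ⊆ σ) : H.ix σ ⊆ H.ix ρ := by
  rintro (_ | a | j) hs
  · exact absurd hs (hc_none σ)
  · exact hc_mon.2 fun x hx => hc_mon.1 hs x (h hx)
  · exact hc_cut.2 fun x hx => hc_cut.1 hs x (h hx)

omit [Fintype α] [Fintype β] in
theorem hc_cx_anti {S S' : Finset (Ix α β)} (h : S ⊆ S') : H.cx S' ⊆ H.cx S :=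
  fun _ hx => ⟨hx.1, fun a ha => hx.2.1 a (h ha), fun j hj => hx.2.2 j (h hj)⟩

theorem hc_wedge_bot {T : Submodule ℚ (Fin n → ℚ)} {p : ℕ} (h : Module.finrank ℚ T < p) :
    wedge T p = ⊥ := by
  unfold wedge
  rw [Submodule.pow_eq_span_pow_set, Submodule.span_eq_bot]
  intro y hy
  obtain ⟨f, rfl⟩ := Set.mem_pow.1 hy
  choose g hg hg' using fun i => Submodule.mem_map.1 (f i).2
  have h1 : (List.ofFn fun i => (f i : Mv n)) = List.ofFn fun i => ι ℚ (g i) := by
    congr 1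
    funext i
    exact (hg' i).symm
  rw [h1, ← ιMulti_apply]
  refine AlternatingMap.map_linearDependent _ _ fun hl => ?_
  have h2 : LinearIndependent ℚ fun i => (⟨g i, hg i⟩ : T) :=
    LinearIndependent.of_comp T.subtype hl
  have h3 := h2.fintype_card_le_finrank
  rw [Fintype.card_fin] at h3
  omega

theorem hc_ker_lt {w : Fin n → ℚ} (hw : w ≠ 0) :
    Module.finrank ℚ (LinearMap.ker (dl w)) < n := by
  have h1 : LinearMap.ker (dl w) ≠ ⊤ := by
    intro h
    apply hw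
    have h2 : w ∈ LinearMap.ker (dl w) := h ▸ Submodule.mem_top
    exact dotProduct_self_eq_zero.1 h2
  simpa using Submodule.finrank_lt h1

omit [Fintype α] [Fintype β] in
theorem hc_tang_le {σ : Set (Pt n)} {a b : α} (ha : ∀ x ∈ σ, H.Top a x)
    (hb : ∀ x ∈ σ, H.Top b x) : tang σ ≤ LinearMap.ker (dl (H.ex a - H.ex b)) := by
  intro v hv
  have h1 : ∀ x ∈ σ, rv (H.ex a - H.ex b) ⬝ᵥ x = H.co b - H.co a := by
    intro x hx
    have h2 := ha x hx b
    have h3 := hb x hx a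
    rw [map_sub, sub_dotProduct]
    linarith
  have h4 := G33.kill h1 (rv v) hv
  rw [G33.rv_dot] at h4
  exact_mod_cast h4

theorem hc_le_tang {S : Finset (Ix α β)} {a b : α} {x : Pt n} (hx : x ∈ H.box)
    (hm : ∀ c, c ∈ mons S ↔ c = a ∨ c = b) (hc : ∀ j, j ∉ cuts S)
    (h1 : ∀ c, H.Top c x ↔ c ∈ mons S) (h2 : ∀ j, H.On j x ↔ j ∈ cuts S) :
    LinearMap.ker (dl (H.ex a - H.ex b)) ≤ tang (H.cx S) := by
  intro v hv
  have hv' : rv (H.ex a - H.ex b) ⬝ᵥ rv v = 0 := by
    rw [G33.rv_dot]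
    exact_mod_cast hv
  have ha : H.Top a x := (h1 a).2 ((hm a).2 (Or.inl rfl))
  have hb : H.Top b x := (h1 b).2 ((hm b).2 (Or.inr rfl))
  obtain ⟨e, he, h3⟩ := G33.slack
    ((Finset.univ.image fun j => (-H.nm j, -H.lev j)) ∪
      Finset.univ.image fun c => (H.ex a - H.ex c, H.co c - H.co a)) (p := x) (w := rv v)
    (by
      intro g hg
      rcases Finset.mem_union.1 hg with hg | hg
      · obtain ⟨j, -, rfl⟩ := Finset.mem_image.1 hg
        have := hx j
        simp only [map_neg, neg_dotProduct]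
        linarith
      · obtain ⟨c, -, rfl⟩ := Finset.mem_image.1 hg
        have := ha c
        simp only [map_sub, sub_dotProduct]
        linarith)
    (by
      intro g hg ht
      rcases Finset.mem_union.1 hg with hg | hg
      · obtain ⟨j, -, rfl⟩ := Finset.mem_image.1 hg
        simp only [map_neg, neg_dotProduct, neg_inj] at ht
        exact absurd ((h2 j).1 ht) (hc j)
      · obtain ⟨c, -, rfl⟩ := Finset.mem_image.1 hg
        have h4 : H.Top c x := by
          intro d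
          have := ha d
          simp only [map_sub, sub_dotProduct] at ht
          linarith
        rcases (hm c).1 ((h1 c).1 h4) with rfl | rfl
        · simp
        · exact hv')
  have h5 : H.Top a (x + e • rv v) := by
    intro c
    have := h3 _ (Finset.mem_union_right _ (Finset.mem_image_of_mem _ (Finset.mem_univ c)))
    simp only [map_sub, sub_dotProduct] at this
    linarith
  have h6 : x + e • rv v ∈ H.cx S := by
    refine ⟨fun j => ?_, fun c hc' => ?_, fun j hj => absurd hj (hc j)⟩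
    · have := h3 _ (Finset.mem_union_left _ (Finset.mem_image_of_mem _ (Finset.mem_univ j)))
      simp only [map_neg, neg_dotProduct] at this
      linarith
    · rcases (hm c).1 hc' with rfl | rfl
      · exact h5
      · intro d
        have h7 := h5 d
        have h8 := hb a
        rw [map_sub, sub_dotProduct, sub_eq_zero] at hv'
        simp only [dotProduct_add, dotProduct_smul, smul_eq_mul] at h7 ⊢
        rw [hv'] at h7
        linarith
  have h9 : x ∈ H.cx S := ⟨hx, fun c hc' => (h1 c).2 hc', fun j hj => (h2 j).2 hj⟩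
  have h10 := (vectorSpan ℝ (H.cx S)).smul_mem e⁻¹ (vsub_mem_vectorSpan ℝ h6 h9)
  rw [vsub_eq_sub, add_sub_cancel_left, smul_smul, inv_mul_cancel₀ he.ne', one_smul] at h10
  exact h10

theorem Fm.dict (h : H.Fm K vx up rk) (hX : H.Is X) : Dict H K X := by
  have hK : ∀ σ ∈ X.cells, K (H.ix σ) := by
    intro σ hσ
    obtain ⟨⟨x, hx⟩, τ, J, -, e⟩ := (hX.1 σ).1 hσ
    exact h.of_pt x (e ▸ hx : x ∈ H.cell τ J).1 _ (hc_none σ) (fun a ha => hc_mon.1 ha x hx)
      fun j hj => hc_cut.1 hj x hx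
  have hM : ∀ σ ∈ X.cells, (mons (H.ix σ)).Nontrivial := by
    intro σ hσ
    obtain ⟨-, τ, J, hτ, rfl⟩ := (hX.1 σ).1 hσ
    obtain ⟨a, ha, b, hb, hab⟩ := Finset.one_lt_card.1 hτ
    exact ⟨a, hc_mon.2 fun x hx => hx.2.1 a ha, b, hc_mon.2 fun x hx => hx.2.1 b hb, hab⟩
  have hC : ∀ σ ∈ X.cells, H.cx (H.ix σ) = σ := by
    intro σ hσ
    obtain ⟨-, τ, J, -, rfl⟩ := (hX.1 σ).1 hσ
    refine Set.Subset.antisymm (fun x hx => ⟨hx.1, fun a ha => ?_, fun j hj => ?_⟩)
      fun x hx => ⟨hx.1, fun a ha => hc_mon.1 ha x hx, fun j hj => hc_cut.1 hj x hx⟩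
    · exact hx.2.1 a (hc_mon.2 fun y hy => hy.2.1 a ha)
    · exact hx.2.2 j (hc_cut.2 fun y hy => hy.2.2 j hj)
  have hS : ∀ S, K S → (mons S).Nontrivial → H.cx S ∈ X.cells ∧ H.ix (H.cx S) = S := by
    intro S hK hN
    obtain ⟨x, hx, h1, h2⟩ := h.exact S hK hN.nonempty
    have hxS : x ∈ H.cx S := ⟨hx, fun c hc => (h1 c).2 hc, fun j hj => (h2 j).2 hj⟩
    constructor
    · refine (hX.1 _).2 ⟨⟨x, hxS⟩, Finset.univ.filter (· ∈ mons S),
        Finset.univ.filter (· ∈ cuts S), ?_, ?_⟩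
      · obtain ⟨a, ha, b, hb, hab⟩ := hN
        exact Finset.one_lt_card.2 ⟨a, by simpa using ha, b, by simpa using hb, hab⟩
      · ext y
        simp [cx, cell]
    · ext s
      rcases s with _ | a | j
      · refine iff_of_false (hc_none _) fun h0 => ?_
        have h3 := hN.nonempty
        rw [h.sep S hK h0] at h3
        exact Set.not_nonempty_empty h3
      · exact hc_mon.trans ⟨fun h3 => (h1 a).1 (h3 x hxS), fun h3 y hy => hy.2.1 a h3⟩
      · exact hc_cut.trans ⟨fun h3 => (h2 j).1 (h3 x hxS), fun h3 y hy => hy.2.2 j h3⟩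
  refine ⟨hK, hc_none, hM, hC, hS, fun _ _ => hc_anti, fun _ _ => hc_cx_anti, ?_, ?_, ?_⟩
  · intro σ hσ p
    refine le_antisymm (iSup₂_le fun η hη => iSup_le fun hση => ?_)
      (iSup₂_le fun a ha => iSup₂_le fun b hb => iSup_le fun hab => ?_)
    · obtain ⟨a, ha, b, hb, hab⟩ := hM η hη
      exact le_iSup₂_of_le a (hc_anti hση ha) (le_iSup₂_of_le b (hc_anti hση hb)
        (le_iSup_of_le hab (EA.wedge_mono (hc_tang_le (hc_mon.1 ha) (hc_mon.1 hb)) p)))
    · let S : Finset (Ix α β) := {some (.inl a), some (.inl b)}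
      have hm : ∀ c, c ∈ mons S ↔ c = a ∨ c = b := fun c => by simp [S, mons]
      have hc : ∀ j, j ∉ cuts S := fun j => by simp [S, cuts]
      have hle : S ⊆ H.ix σ := Finset.insert_subset ha (Finset.singleton_subset_iff.2 hb)
      have hKS : K S := h.shell.down _ _ hle (hK σ hσ)
      have hN : (mons S).Nontrivial := ⟨a, (hm a).2 (Or.inl rfl), b, (hm b).2 (Or.inr rfl), hab⟩
      obtain ⟨x, hx, h1, h2⟩ := h.exact S hKS hN.nonempty
      have hσS : σ ⊆ H.cx S := (hC σ hσ).symm.subset.trans (hc_cx_anti hle)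
      exact le_iSup₂_of_le (H.cx S) (hS S hKS hN).1
        (le_iSup_of_le hσS (EA.wedge_mono (hc_le_tang hx hm hc h1 h2) p))
  · intro σ hσ
    have h1 : cuts (H.ix σ) = {j | ∀ x ∈ σ, H.On j x} := Set.ext fun j => hc_cut
    rw [TropCx.I, I0, if_neg (hc_none σ), TropCx.sed, hX.2 σ hσ, h1]
  · intro S hK p hp
    refine le_bot_iff.1 (iSup₂_le fun a ha => iSup₂_le fun b hb => iSup_le fun hab => ?_)
    refine (hc_wedge_bot ((hc_ker_lt fun h0 => hab ?_).trans_le hp)).le
    have h1 : H.lam (some (.inl a)) = H.lam (some (.inl b)) := by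
      simp only [lam, cov, sub_eq_zero.1 h0]
    simpa using (h.indep S hK).injOn ha hb h1

end H5T.Hyp
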