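import Pool.Agent.Lib.MP_e9c0f3_ag.HY.Prism

/-! Flags in a Boolean lattice. -/

open scoped Classical

noncomputable section

namespace H5T.HY

variable {I E : Type} [AddCommGroup E] [Module ℚ E]
variable {φ : List (Finset I)} {u v s : Finset I} {G J : Finset I → Submodule ℚ E} {g : ℕ}

theorem bool_head {S T : Finset I} {l : List (Finset I)} (h : (S :: l).Pairwise (· ⊂ ·))
    (hT : T ∈ S :: l) : S ⊆ T := by
  rcases List.mem_cons.1 hT with rfl | hT
  · exact subset_rfl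
  · exact ((List.pairwise_cons.1 h).1 T hT).subset

theorem bool_cmp {l : List (Finset I)} (h : l.Pairwise (· ⊂ ·)) {S T : Finset I} (hS : S ∈ l)
    (hT : T ∈ l) : S ⊆ T ∨ T ⊆ S := by
  induction l with
  | nil => simp at hS
  | cons a l ih =>
    rcases List.mem_cons.1 hS with rfl | hS'
    · exact .inl (bool_head h hT)
    · rcases List.mem_cons.1 hT with rfl | hT'
      · exact .inr (bool_head h hS)
      · exact ih (List.pairwise_cons.1 h).2 hS' hT'

theorem bool_sub {l : List (Finset I)} (h : l.Pairwise (· ⊂ ·)) {S T : Finset I} (hS : S ∈ l)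
    (hT : T ∈ l) (hc : S.card ≤ T.card) : S ⊆ T := by
  rcases bool_cmp h hS hT with e | e
  · exact e
  · exact (Finset.eq_of_subset_of_card_le e hc).symm.subset

theorem bool_len {l : List (Finset I)} (h : l.Pairwise (· ⊂ ·)) (hu : ∀ S ∈ l, S ⊆ u) :
    l.length ≤ u.card + 1 := by
  have h1 : (l.map Finset.card).Nodup :=
    List.pairwise_map.2 (h.imp fun h => (Finset.card_lt_card h).ne)
  have h2 : (l.map Finset.card).toFinset ⊆ Finset.range (u.card + 1) := by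
    intro i hi
    obtain ⟨S, hS, rfl⟩ := List.mem_map.1 (List.mem_toFinset.1 hi)
    exact Finset.mem_range.2 (Nat.lt_succ_of_le (Finset.card_le_card (hu S hS)))
  have h3 := Finset.card_le_card h2
  rwa [List.toFinset_card_of_nodup h1, List.length_map, Finset.card_range] at h3

theorem bool_mono : Monotone fun S : Finset I => if S ⊆ s then (⊥ : Submodule ℚ E) else ⊤ := by
  intro S T h
  by_cases e : T ⊆ s
  · simp only [if_pos e, if_pos (Finset.Subset.trans h e), le_rfl]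
  · simp only [if_neg e, le_top]

theorem bool_le {S T : Finset I} (h : T ⊆ s → S ⊆ s) :
    (if S ⊆ s then (⊥ : Submodule ℚ E) else ⊤) ≤ if T ⊆ s then ⊥ else ⊤ := by
  by_cases e : T ⊆ s
  · rw [if_pos e, if_pos (h e)]
  · rw [if_neg e]; exact le_top

theorem bool_erase {b : I} (hb : b ∈ s) (S : Finset I) :
    (if S ⊆ s then (⊥ : Submodule ℚ E) else ⊤) ≤ if S.erase b ⊆ s then ⊥ else ⊤ := by
  refine bool_le fun h x hx => ?_
  by_cases e : x = b
  · exact e ▸ hb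
  · exact h (Finset.mem_erase.2 ⟨e, hx⟩)

theorem ex_insert {b : I} (hb : b ∈ v) (hu : b ∉ u) (hφ : ∀ S ∈ φ, b ∉ S) (hG : Monotone G)
    (hJ : Monotone J) (h : (∀ S, b ∈ S → J S = ⊤) ∨ φ ≠ []) : Ex (Cl (· ⊆ v) φ u) G J g := by
  refine Ex.retract_up (P' := fun S => S ⊆ v ∧ b ∈ S) (insert b) (fun _ h => h.1)
    (fun S hS => ⟨⟨Finset.insert_subset hb hS, Finset.mem_insert_self _ _⟩,
      Finset.subset_insert _ _⟩)
    (fun _ _ _ _ h => Finset.insert_subset_insert _ h)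
    (fun T hT S _ e => absurd (e ▸ Finset.mem_insert_self b S) (hφ T hT))
    (fun S _ h => (Finset.subset_insert_iff_of_notMem hu).1 h)
    (fun S _ => hG (Finset.subset_insert _ _)) (fun S _ => hJ (Finset.subset_insert _ _))
    (Ex.of_le fun S l hl _ => ?_)
  rcases h with h | h
  · rw [h S (hl.2.1 S (by simp)).2]
    exact le_top
  · obtain ⟨T, hT⟩ := List.exists_mem_of_ne_nil φ h
    exact absurd (hl.2.1 T (hl.2.2.1 hT)).2 (hφ T hT)

theorem ex_erase {b : I} (hφ : ∀ S ∈ φ, b ∈ S) (h : b ∈ u ∨ φ ≠ [])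
    (hG : ∀ S, G S ≤ G (S.erase b)) (hJ : ∀ S, J S ≤ J (S.erase b)) :
    Ex (Cl (· ⊆ v) φ u) G J g := by
  refine Ex.retract_down (P' := fun S => S ⊆ v ∧ b ∉ S) (fun S => S.erase b) (fun _ h => h.1)
    (fun S hS => ⟨⟨(Finset.erase_subset _ _).trans hS, Finset.notMem_erase _ _⟩,
      Finset.erase_subset _ _⟩)
    (fun _ _ _ _ h => Finset.erase_subset_erase _ h)
    (fun T hT S _ e => absurd (hφ T hT) (e ▸ Finset.notMem_erase b S))
    (fun S _ => hG S) (fun S _ => hJ S) (Ex.of_le fun S l hl _ => ?_)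
  rcases h with h | h
  · obtain ⟨T, hT, e⟩ := hl.2.2.2
    exact absurd (e h) (hl.2.1 T hT).2
  · obtain ⟨T, hT⟩ := List.exists_mem_of_ne_nil φ h
    exact absurd (hφ T hT) (hl.2.1 T (hl.2.2.1 hT)).2

/-- The flags that miss the atom `insert b S₁` of a gap of `φ` form a cone. -/
theorem bool_gap {S₁ S₂ : Finset I} {b : I} (m1 : S₁ ∈ φ) (m2 : S₂ ∈ φ) (h12 : S₁ ⊆ S₂)
    (hc : S₁.card + 2 ≤ S₂.card) (hv : S₂ ⊆ v) (b1 : b ∉ S₁) (b2 : b ∈ S₂)
    (hφ : ∀ S ∈ φ, S ⊆ S₁ ∨ S₂ ⊆ S) (W W' : Submodule ℚ E) :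
    Ex (fun l => Cl (· ⊆ v) φ ∅ l ∧ insert b S₁ ∉ l) (fun _ => W) (fun _ => W') g := by
  have hM : S₁ ⊆ S₂.erase b := Finset.subset_erase.2 ⟨h12, b1⟩
  have hM' : ¬ S₂.erase b ⊆ S₁ := fun h => by
    have := Finset.card_le_card h
    rw [Finset.card_erase_of_mem b2] at this
    omega
  have hT : ∀ S : Finset I, S.erase b ≠ insert b S₁ := fun S e =>
    Finset.notMem_erase b S (e ▸ Finset.mem_insert_self b S₁)
  refine Ex.congr (c := Cl (fun S => S ⊆ v ∧ S ≠ insert b S₁ ∧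
    (S ⊆ S₁ ∨ (S₁ ⊂ S ∧ S ⊂ S₂) ∨ S₂ ⊆ S)) φ ∅) (G := fun _ => W) (J := fun _ => W') ?_
    (fun l => ?_) (fun _ _ _ => rfl) (fun _ _ _ => rfl)
  · refine Ex.retract_down (P' := fun S => (S ⊆ v ∧ S ≠ insert b S₁ ∧
      (S ⊆ S₁ ∨ (S₁ ⊂ S ∧ S ⊂ S₂) ∨ S₂ ⊆ S)) ∧ (S ⊆ S₂.erase b ∨ S₂.erase b ⊆ S))
      (fun S => if S₁ ⊂ S ∧ S ⊂ S₂ then S.erase b else S) (fun _ h => h.1) (fun S hS => ?_)
      (fun S S' hS hS' h => ?_) (fun T hT' S hS e => ?_) (fun _ _ => le_rfl) (fun _ _ => le_rfl)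
      (Ex.cone (S₂.erase b) ⟨⟨(Finset.erase_subset _ _).trans hv, hT _,
        .inr (.inl ⟨⟨hM, hM'⟩, Finset.erase_ssubset b2⟩)⟩, .inl subset_rfl⟩ (fun _ h => h.2)
        (fun h => ?_) (List.ne_nil_of_mem m1) W W')
    · by_cases e : S₁ ⊂ S ∧ S ⊂ S₂
      · simp only [if_pos e]
        refine ⟨⟨⟨(Finset.erase_subset _ _).trans hS.1, hT _, ?_⟩,
          .inl (Finset.erase_subset_erase _ e.2.subset)⟩, Finset.erase_subset _ _⟩
        by_cases e2 : S.erase b ⊆ S₁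
        · exact .inl e2
        · exact .inr (.inl ⟨⟨Finset.subset_erase.2 ⟨e.1.subset, b1⟩, e2⟩,
            (Finset.erase_subset _ _).trans_ssubset e.2⟩)
      · simp only [if_neg e]
        refine ⟨⟨hS, ?_⟩, subset_rfl⟩
        rcases hS.2.2 with h | h | h
        exacts [.inl (h.trans hM), absurd h e, .inr ((Finset.erase_subset _ _).trans h)]
    · by_cases e : S₁ ⊂ S ∧ S ⊂ S₂ <;> by_cases e' : S₁ ⊂ S' ∧ S' ⊂ S₂
      · simp only [if_pos e, if_pos e']
        exact Finset.erase_subset_erase _ h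
      · simp only [if_pos e, if_neg e']
        exact (Finset.erase_subset _ _).trans h
      · simp only [if_neg e, if_pos e']
        rcases hS.2.2 with h1 | h1 | h1
        exacts [h1.trans (Finset.subset_erase.2 ⟨e'.1.subset, b1⟩), absurd h1 e,
          absurd (h1.trans h) e'.2.2]
      · simpa only [if_neg e, if_neg e'] using h
    · by_cases e1 : S₁ ⊂ S ∧ S ⊂ S₂
      · simp only [if_pos e1] at e
        subst e
        exfalso
        rcases hφ _ hT' with h | h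
        · have hb : b ∈ S := by
            by_contra hb
            rw [Finset.erase_eq_of_notMem hb] at h
            exact e1.1.2 h
          exact hS.2.1 (Finset.Subset.antisymm (Finset.subset_insert_iff.2 h)
            (Finset.insert_subset hb e1.1.subset))
        · exact Finset.notMem_erase b S (h b2)
      · simpa only [if_neg e1] using e
    · rcases hφ _ h with h | h
      exacts [hM' h, Finset.notMem_erase b S₂ (h b2)]
  · refine ⟨fun ⟨h, hn⟩ => ⟨h.1, fun S hS => ⟨h.2.1 S hS, fun e => hn (e ▸ hS), ?_⟩, h.2.2⟩,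
      fun h => ⟨⟨h.1, fun S hS => (h.2.1 S hS).1, h.2.2⟩, fun hn => (h.2.1 _ hn).2.1 rfl⟩⟩
    by_cases e1 : S ⊆ S₁
    · exact .inl e1
    by_cases e2 : S₂ ⊆ S
    · exact .inr (.inr e2)
    exact .inr (.inl ⟨⟨(bool_cmp h.1 hS (h.2.2.1 m1)).resolve_left e1, e1⟩,
      ⟨(bool_cmp h.1 hS (h.2.2.1 m2)).resolve_right e2, e2⟩⟩)

/-- Intervals of a Boolean lattice have homology in the top degree only. -/
theorem ex_core (h0 : ∅ ∈ φ) (h1 : v ∈ φ) (hg : g ≤ v.card) (W W' : Submodule ℚ E) :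
    Ex (Cl (· ⊆ v) φ ∅) (fun _ => W) (fun _ => W') g := by
  induction hn : (v.powerset \ φ.toFinset).card using Nat.strong_induction_on generalizing φ with
  | _ n ih =>
  by_cases hne : ∃ l, Cl (· ⊆ v) φ ∅ l
  swap
  · exact Ex.of_le fun S l hl _ => absurd ⟨_, hl⟩ hne
  obtain ⟨l₀, hl₀⟩ := hne
  by_cases hall : ∀ i ≤ v.card, ∃ S ∈ φ, S.card = i
  · refine Ex.of_le fun S l hl e => ?_
    have h2 : Finset.range (v.card + 1) ⊆ ((S :: l).map Finset.card).toFinset := by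
      intro i hi
      obtain ⟨T, hT, rfl⟩ := hall i (Nat.lt_succ_iff.1 (Finset.mem_range.1 hi))
      exact List.mem_toFinset.2 (List.mem_map_of_mem (hl.2.2.1 hT))
    have h3 := (Finset.card_le_card h2).trans (List.toFinset_card_le _)
    rw [Finset.card_range, List.length_map] at h3
    omega
  push Not at hall
  obtain ⟨i, hi, hmiss⟩ := hall
  obtain ⟨S₁, q1, r1⟩ := (φ.toFinset.filter fun S => S.card < i).exists_max_image Finset.card
    ⟨∅, Finset.mem_filter.2 ⟨List.mem_toFinset.2 h0, Nat.pos_of_ne_zero (hmiss _ h0).symm⟩⟩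
  obtain ⟨S₂, q2, r2⟩ := (φ.toFinset.filter fun S => i < S.card).exists_min_image Finset.card
    ⟨v, Finset.mem_filter.2 ⟨List.mem_toFinset.2 h1, lt_of_le_of_ne hi (hmiss _ h1).symm⟩⟩
  simp only [Finset.mem_filter, List.mem_toFinset] at q1 r1 q2 r2
  have sub : ∀ S ∈ φ, ∀ T ∈ φ, S.card ≤ T.card → S ⊆ T := fun S hS T hT =>
    bool_sub hl₀.1 (hl₀.2.2.1 hS) (hl₀.2.2.1 hT)
  have hφ : ∀ S ∈ φ, S ⊆ S₁ ∨ S₂ ⊆ S := fun S hS => by
    rcases lt_or_gt_of_ne (hmiss S hS) with h | h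
    exacts [.inl (sub S hS _ q1.1 (r1 S ⟨hS, h⟩)), .inr (sub _ q2.1 S hS (r2 S ⟨hS, h⟩))]
  have hc : S₁.card + 2 ≤ S₂.card := by have := q1.2; have := q2.2; omega
  have h12 : S₁ ⊆ S₂ := sub _ q1.1 _ q2.1 (by omega)
  have hv : S₂ ⊆ v := hl₀.2.1 _ (hl₀.2.2.1 q2.1)
  obtain ⟨b, b2, b1⟩ := Finset.exists_mem_notMem_of_card_lt_card (show S₁.card < S₂.card by omega)
  have hT : insert b S₁ ∉ φ := fun h => by
    rcases hφ _ h with h | h
    · exact b1 (h (Finset.mem_insert_self _ _))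
    · have := Finset.card_le_card h
      rw [Finset.card_insert_of_notMem b1] at this
      omega
  have hlt : (v.powerset \ (insert b S₁ :: φ).toFinset).card < n := by
    rw [← hn, List.toFinset_cons, Finset.sdiff_insert]
    exact Finset.card_erase_lt_of_mem (Finset.mem_sdiff.2 ⟨Finset.mem_powerset.2
      ((Finset.insert_subset b2 h12).trans hv), fun h => hT (List.mem_toFinset.1 h)⟩)
  refine Ex.glue (cv_Cl _ _ _) monotone_const monotone_const (fun _ h => h.1)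
    (fun l l' h hs h' => ⟨h', fun e => h.2 (hs.subset e)⟩)
    (bool_gap q1.1 q2.1 h12 hc hv b1 b2 hφ W W')
    ((ih _ hlt (List.mem_cons_of_mem _ h0) (List.mem_cons_of_mem _ h1) rfl).congr (fun l => ?_)
      (fun _ _ _ => rfl) fun _ _ _ => rfl)
  refine ⟨fun ⟨h, hn⟩ => ⟨h.1, h.2.1, List.cons_subset.2 ⟨?_, h.2.2.1⟩, h.2.2.2⟩,
    fun h => ⟨⟨h.1, h.2.1, (List.cons_subset.1 h.2.2.1).2, h.2.2.2⟩,
      fun hn => hn.2 (List.cons_subset.1 h.2.2.1).1⟩⟩
  by_contra e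
  exact hn ⟨h, e⟩

/-- The case where all lists contain `v` and a head inside `s` is empty. -/
theorem bool_last (hu : u ⊆ v) (hg : g ≤ v.card) (W : Submodule ℚ E)
    (h1 : ∀ l, Cl (· ⊆ v) φ u l → v ∈ l)
    (h2 : ∀ S l, Cl (· ⊆ v) φ u (S :: l) → S ⊆ s → S = ∅) :
    Ex (Cl (· ⊆ v) φ u) (fun _ => W) (fun S => if S ⊆ s then ⊥ else ⊤) g := by
  refine Ex.glue (c' := fun l => Cl (· ⊆ v) φ u l ∧ ∅ ∉ l) (cv_Cl _ _ _) monotone_const bool_mono
    (fun _ h => h.1) (fun l l' h hs h' => ⟨h', fun e => h.2 (hs.subset e)⟩)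
    (Ex.of_le fun S l hl _ => ?_)
    ((ex_core (φ := ∅ :: v :: φ) (by simp) (by simp) hg W ⊥).congr (fun l => ?_)
      (fun _ _ _ => rfl) fun S l hl => ?_)
  · rw [if_neg fun e => hl.2 (by simp [h2 S l hl.1 e])]
    exact le_top
  · refine ⟨fun ⟨h, hn⟩ => ?_, fun h => ?_⟩
    · have e : ∅ ∈ l := by
        by_contra e
        exact hn ⟨h, e⟩
      exact ⟨h.1, h.2.1, List.cons_subset.2 ⟨e, List.cons_subset.2 ⟨h1 l h, h.2.2.1⟩⟩,
        ∅, e, subset_rfl⟩
    · obtain ⟨a1, a2⟩ := List.cons_subset.1 h.2.2.1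
      obtain ⟨a2, a3⟩ := List.cons_subset.1 a2
      exact ⟨⟨h.1, h.2.1, a3, v, a2, hu⟩, fun hn => hn.2 a1⟩
  · exact if_pos ((bool_head hl.1 (hl.2.2.1 (by simp))).trans (Finset.empty_subset s))

theorem ex_global (hu : u ⊆ v) (W : Submodule ℚ E)
    (h : Disjoint u s → v ⊆ u ∪ s → g ≠ u.card + 1) :
    Ex (Cl (· ⊆ v) [] u) (fun _ => W) (fun S => if S ⊆ s then ⊥ else ⊤) g := by
  by_cases c1 : ∃ b ∈ u, b ∈ s
  · obtain ⟨b, hb, hs⟩ := c1
    exact ex_erase (by simp) (.inl hb) (fun _ => le_rfl) (bool_erase hs)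
  by_cases c2 : ∃ b ∈ v, b ∉ u ∧ b ∉ s
  · obtain ⟨b, hb, h1, h2⟩ := c2
    exact ex_insert hb h1 (by simp) monotone_const bool_mono
      (.inl fun S hS => if_neg fun e => h2 (e hS))
  have d : Disjoint u s := Finset.disjoint_left.2 fun b h1 h2 => c1 ⟨b, h1, h2⟩
  have e : v ⊆ u ∪ s := fun b hb => by
    by_contra hn
    rw [Finset.mem_union, not_or] at hn
    exact c2 ⟨b, hb, hn⟩
  have hg := h d e
  refine Ex.retract_down (P' := (· ⊆ u)) (· ∩ u) (fun _ h => h.trans hu)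
    (fun _ _ => ⟨Finset.inter_subset_right, Finset.inter_subset_left⟩)
    (fun _ _ _ _ h => Finset.inter_subset_inter_right h) (by simp) (fun _ _ => le_rfl)
    (fun S hS => bool_le fun h x hx => ?_) ?_
  · rcases Finset.mem_union.1 (e (hS hx)) with h1 | h1
    exacts [h (Finset.mem_inter.2 ⟨hx, h1⟩), h1]
  by_cases hle : g ≤ u.card
  · refine bool_last subset_rfl hle W (fun l hl => ?_) fun S l hl hs => ?_
    · obtain ⟨S, hS, h1⟩ := hl.2.2.2
      exact Finset.Subset.antisymm (hl.2.1 S hS) h1 ▸ hS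
    · exact Finset.eq_empty_of_forall_notMem fun b hb =>
        c1 ⟨b, hl.2.1 S (by simp) hb, hs hb⟩
  · refine Ex.of_le fun S l hl e => ?_
    have := bool_len hl.1 hl.2.1
    omega

theorem ex_local (hφ : φ ≠ []) (hg : g ≤ v.card) (W : Submodule ℚ E) :
    Ex (Cl (· ⊆ v) φ u) (fun _ => W) (fun S => if S ⊆ s then ⊥ else ⊤) g := by
  by_cases c1 : ∃ b ∈ s, ∀ S ∈ φ, b ∈ S
  · obtain ⟨b, hs, hb⟩ := c1
    exact ex_erase hb (.inr hφ) (fun _ => le_rfl) (bool_erase hs)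
  by_cases c2 : ∃ b ∈ v, b ∉ u ∧ ∀ S ∈ φ, b ∉ S
  · obtain ⟨b, hb, h1, h2⟩ := c2
    exact ex_insert hb h1 h2 monotone_const bool_mono (.inr hφ)
  by_cases hu : u ⊆ v
  swap
  · refine Ex.of_le fun S l hl _ => ?_
    obtain ⟨T, hT, h1⟩ := hl.2.2.2
    exact absurd (h1.trans (hl.2.1 T hT)) hu
  refine bool_last hu hg W (fun l hl => ?_) fun S l hl hs => ?_
  · obtain ⟨T, hT, h1⟩ := hl.2.2.2
    obtain ⟨M, hM, hmax⟩ := l.toFinset.exists_max_image Finset.card ⟨T, List.mem_toFinset.2 hT⟩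
    simp only [List.mem_toFinset] at hM hmax
    have top : ∀ S ∈ l, S ⊆ M := fun S hS => bool_sub hl.1 hS hM (hmax S hS)
    refine Finset.Subset.antisymm (hl.2.1 M hM) (fun b hb => ?_) ▸ hM
    by_contra hn
    exact c2 ⟨b, hb, fun h => hn (top T hT (h1 h)), fun S hS h => hn (top S (hl.2.2.1 hS) h)⟩
  · exact Finset.eq_empty_of_forall_notMem fun b hb =>
      c1 ⟨b, hs hb, fun T hT => bool_head hl.1 (hl.2.2.1 hT) hb⟩

end H5T.HY
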