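import Pool.Agent.Lib.MP_e9c0f3_ag.HY.HCov
import Pool.Agent.Lib.MP_e9c0f3_ag.H5T.Geo

/-! The cells of a simple tropical hypersurface form a polyhedral complex. -/

open Matrix
open scoped Classical

set_option linter.unusedSectionVars false

noncomputable section

namespace H5T.Hyp

variable {n : ℕ} {α ι : Type} [Fintype α] [Fintype ι] (H : Hyp n α ι)

/-- The nonempty cells with at least two monomials. -/
def cells : Finset (Set (Pt n)) :=
  (((Finset.univ : Finset (Finset α × Finset ι)).filter fun t => 2 ≤ t.1.card).image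
    fun t => H.cell t.1 t.2).filter Set.Nonempty

/-- The facets that contain `σ`. -/
def fac (σ : Set (Pt n)) : Set ι := {j | ∀ x ∈ σ, H.On j x}

variable {H}

namespace HExAux

/-- The inequalities of a cell. -/
def cons (H : Hyp n α ι) (τ : Finset α) (J : Finset ι) : Finset ((Fin n → ℚ) × ℝ) :=
  (Finset.univ.image fun j => (-H.nm j, -H.lev j)) ∪ (J.image fun j => (H.nm j, H.lev j)) ∪
    (τ ×ˢ Finset.univ).image fun t : α × α => (H.ex t.1 - H.ex t.2, H.co t.2 - H.co t.1)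

lemma all_cons {τ : Finset α} {J : Finset ι} {P : (Fin n → ℚ) × ℝ → Prop} :
    (∀ h ∈ cons H τ J, P h) ↔ (∀ j, P (-H.nm j, -H.lev j)) ∧ (∀ j ∈ J, P (H.nm j, H.lev j)) ∧
      ∀ a ∈ τ, ∀ b, P (H.ex a - H.ex b, H.co b - H.co a) := by
  constructor
  · intro h
    refine ⟨fun j => h _ ?_, fun j hj => h _ ?_, fun a ha b => h _ ?_⟩
    · exact Finset.mem_union_left _ (Finset.mem_union_left _
        (Finset.mem_image.2 ⟨j, Finset.mem_univ _, rfl⟩))
    · exact Finset.mem_union_left _ (Finset.mem_union_right _ (Finset.mem_image.2 ⟨j, hj, rfl⟩))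
    · exact Finset.mem_union_right _ (Finset.mem_image.2
        ⟨(a, b), Finset.mem_product.2 ⟨ha, Finset.mem_univ _⟩, rfl⟩)
  · rintro ⟨h1, h2, h3⟩ h hh
    rcases Finset.mem_union.1 hh with hh | hh
    · rcases Finset.mem_union.1 hh with hh | hh
      · obtain ⟨j, -, rfl⟩ := Finset.mem_image.1 hh
        exact h1 j
      · obtain ⟨j, hj, rfl⟩ := Finset.mem_image.1 hh
        exact h2 j hj
    · obtain ⟨t, ht, rfl⟩ := Finset.mem_image.1 hh
      exact h3 t.1 (Finset.mem_product.1 ht).1 t.2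

lemma neg_dot (u : Fin n → ℚ) (x : Pt n) : rv (-u) ⬝ᵥ x = -(rv u ⬝ᵥ x) := by
  rw [map_neg, neg_dotProduct]

lemma sub_dot (u v : Fin n → ℚ) (x : Pt n) : rv (u - v) ⬝ᵥ x = rv u ⬝ᵥ x - rv v ⬝ᵥ x := by
  rw [map_sub, sub_dotProduct]

lemma mem_cell {τ : Finset α} {J : Finset ι} {x : Pt n} :
    x ∈ H.cell τ J ↔ ∀ h ∈ cons H τ J, h.2 ≤ rv h.1 ⬝ᵥ x := by
  rw [all_cons]
  simp only [neg_dot, sub_dot]
  constructor
  · rintro ⟨h1, h2, h3⟩
    refine ⟨fun j => ?_, fun j hj => (h3 j hj).ge, fun a ha b => ?_⟩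
    · have := h1 j
      linarith
    · have := h2 a ha b
      linarith
  · rintro ⟨h1, h2, h3⟩
    have h4 : x ∈ H.box := fun j => by
      have := h1 j
      linarith
    refine ⟨h4, fun a ha b => ?_, fun j hj => le_antisymm (h4 j) (h2 j hj)⟩
    have := h3 a ha b
    linarith

lemma convex_cell (τ : Finset α) (J : Finset ι) : Convex ℝ (H.cell τ J) := by
  intro x hx y hy a b ha hb hs
  rw [mem_cell] at hx hy ⊢
  intro h hh
  rw [dotProduct_add, dotProduct_smul, dotProduct_smul, smul_eq_mul, smul_eq_mul]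
  have h4 := mul_le_mul_of_nonneg_left (hx h hh) ha
  have h5 := mul_le_mul_of_nonneg_left (hy h hh) hb
  have h6 : h.2 = a * h.2 + b * h.2 := by rw [← add_mul, hs, one_mul]
  linarith

lemma top_eq {a b : α} {x : Pt n} (ha : H.Top a x) (hb : H.Top b x) :
    rv (H.ex a) ⬝ᵥ x + H.co a = rv (H.ex b) ⬝ᵥ x + H.co b := le_antisymm (hb a) (ha b)

lemma top_of_eq {a b : α} {x : Pt n} (ha : H.Top a x)
    (h : rv (H.ex a) ⬝ᵥ x + H.co a = rv (H.ex b) ⬝ᵥ x + H.co b) : H.Top b x :=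
  fun c => (ha c).trans h.le

/-- A facet through a relatively interior point contains the whole set. -/
lemma on_all {s : Set (Pt n)} (hs : s ⊆ H.box) {p : Pt n} (hp : p ∈ intrinsicInterior ℝ s) {j : ι}
    (hj : H.On j p) : ∀ x ∈ s, H.On j x := by
  intro x hx
  have h1 := G33.tight hp (u := rv (-H.nm j)) (c := -H.lev j)
    (fun y hy => by
      have := hs hy j
      rw [neg_dot]
      linarith)
    (by rw [neg_dot, show rv (H.nm j) ⬝ᵥ p = H.lev j from hj]) x hx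
  rw [neg_dot] at h1
  exact neg_injective h1

/-- Finitely many valid inequalities cut out an exposed face. -/
lemma exposed {κ : Type} (σ : Set (Pt n)) (T : Finset κ) (u : κ → Pt n) (c : κ → ℝ)
    (h : ∀ k ∈ T, ∀ y ∈ σ, u k ⬝ᵥ y ≤ c k) :
    IsExposed ℝ σ {x ∈ σ | ∀ k ∈ T, u k ⬝ᵥ x = c k} := by
  rintro ⟨x0, hx0, h0⟩
  let f : Pt n →ₗ[ℝ] ℝ :=
    { toFun := fun x => ∑ k ∈ T, u k ⬝ᵥ x
      map_add' := fun x y => by simp only [dotProduct_add, Finset.sum_add_distrib]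
      map_smul' := fun a x => by
        simp only [dotProduct_smul, smul_eq_mul, RingHom.id_apply, Finset.mul_sum] }
  refine ⟨LinearMap.toContinuousLinearMap f, ?_⟩
  ext x
  change (x ∈ σ ∧ ∀ k ∈ T, u k ⬝ᵥ x = c k) ↔
    x ∈ σ ∧ ∀ y ∈ σ, ∑ k ∈ T, u k ⬝ᵥ y ≤ ∑ k ∈ T, u k ⬝ᵥ x
  refine and_congr_right fun hx => ⟨fun h1 y hy => ?_, fun h1 => ?_⟩
  · exact Finset.sum_le_sum fun k hk => (h k hk y hy).trans (h1 k hk).ge
  · have h2 := h1 x0 hx0
    rw [Finset.sum_congr rfl h0] at h2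
    have h3 : ∀ k ∈ T, u k ⬝ᵥ x ≤ c k := fun k hk => h k hk x hx
    exact (Finset.sum_eq_sum_iff_of_le h3).1 (le_antisymm (Finset.sum_le_sum h3) h2)

/-- The directions of the facets through a point are detected by the normals. -/
lemma key (h : H.Good) {x : Pt n} (hx : x ∈ H.box) {g : ι → ℚ} (hg : ∀ i, ¬ H.On i x → g i = 0)
    (h0 : ∀ l, H.On l x → H.nm l ⬝ᵥ ∑ i, g i • H.dir i = 0) : g = 0 := by
  have hs : ∀ g : ι → ℚ, (∀ i, ¬ H.On i x → g i = 0) → ∀ l, H.nm l ⬝ᵥ ∑ i, g i • H.dir i =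
      ∑ i : {j // H.On j x}, (H.nm l ⬝ᵥ H.dir i) * g i := by
    intro g hg l
    rw [← Finset.sum_subtype (Finset.univ.filter fun j => H.On j x) (by simp)
      fun i => (H.nm l ⬝ᵥ H.dir i) * g i, Finset.sum_filter, dotProduct_sum]
    refine Finset.sum_congr rfl fun i _ => ?_
    rw [dotProduct_smul, smul_eq_mul]
    split_ifs with c
    · exact mul_comm _ _
    · rw [hg i c, zero_mul]
  choose μ _ h1 h2 h3 using fun j : {j // H.On j x} => h.cut x hx j.1 j.2
  let A : Matrix {j // H.On j x} {j // H.On j x} ℚ := Matrix.of fun l i => H.nm l ⬝ᵥ H.dir i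
  let M : Matrix {j // H.On j x} {j // H.On j x} ℚ := Matrix.of fun i j => μ j i
  have hAM : A * M = 1 := by
    ext l j
    rw [Matrix.mul_apply]
    change ∑ i : {j // H.On j x}, (H.nm l ⬝ᵥ H.dir i) * μ j i = _
    rw [← hs (μ j) (h1 j) l]
    by_cases c : l = j
    · rw [c, h2 j, Matrix.one_apply_eq]
    · rw [h3 j l l.2 fun e => c (Subtype.ext e), Matrix.one_apply_ne c]
  have hMA : M * A = 1 := mul_eq_one_comm.1 hAM
  have hA : A *ᵥ (fun i : {j // H.On j x} => g i) = 0 := by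
    ext l
    change ∑ i : {j // H.On j x}, (H.nm l ⬝ᵥ H.dir i) * g i = 0
    rw [← hs g hg l, h0 l l.2]
  have hz : (fun i : {j // H.On j x} => g i) = 0 := by
    rw [← Matrix.one_mulVec fun i : {j // H.On j x} => g i, ← hMA, ← Matrix.mulVec_mulVec, hA,
      Matrix.mulVec_zero]
  ext i
  by_cases c : H.On i x
  · exact congrFun hz ⟨i, c⟩
  · exact hg i c

lemma comb (l : ι →₀ ℚ) : Finsupp.linearCombination ℚ H.dir l = ∑ i, l i • H.dir i := by
  rw [Finsupp.linearCombination_apply]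
  exact Finsupp.sum_fintype l (fun i a => a • H.dir i) fun i => zero_smul ℚ _

end HExAux

theorem mem_cells {σ : Set (Pt n)} :
    σ ∈ H.cells ↔ σ.Nonempty ∧ ∃ τ J, 2 ≤ τ.card ∧ σ = H.cell τ J := by
  rw [cells, Finset.mem_filter, Finset.mem_image, and_comm]
  refine and_congr_right fun _ => ⟨?_, ?_⟩
  · rintro ⟨t, ht, rfl⟩
    exact ⟨t.1, t.2, (Finset.mem_filter.1 ht).2, rfl⟩
  · rintro ⟨τ, J, h, rfl⟩
    exact ⟨(τ, J), Finset.mem_filter.2 ⟨Finset.mem_univ _, h⟩, rfl⟩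

theorem cells_poly : ∀ σ ∈ H.cells,
    ∃ S : Finset ((Fin n → ℚ) × ℝ), σ = {x | ∀ h ∈ S, h.2 ≤ rv h.1 ⬝ᵥ x} := by
  intro σ hσ
  obtain ⟨-, τ, J, -, rfl⟩ := mem_cells.1 hσ
  exact ⟨HExAux.cons H τ J, Set.ext fun _ => HExAux.mem_cell⟩

theorem cells_face : ∀ σ ∈ H.cells, ∀ ρ, IsExposed ℝ σ ρ → ρ.Nonempty → ρ ∈ H.cells := by
  intro σ hσ ρ hE hne
  obtain ⟨-, τ, J, h2, rfl⟩ := mem_cells.1 hσ
  obtain ⟨p, hp⟩ := hne.intrinsicInterior (hE.convex (HExAux.convex_cell τ J))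
  have hsub : ρ ⊆ H.cell τ J := hE.subset
  have hpρ : p ∈ ρ := intrinsicInterior_subset hp
  have hpσ := hsub hpρ
  obtain ⟨a0, ha0⟩ : τ.Nonempty := Finset.card_pos.1 (by omega)
  have hτ : τ ⊆ Finset.univ.filter fun a => H.Top a p := fun a ha =>
    Finset.mem_filter.2 ⟨Finset.mem_univ _, hpσ.2.1 a ha⟩
  refine mem_cells.2 ⟨hne, Finset.univ.filter fun a => H.Top a p,
    Finset.univ.filter fun j => H.On j p, h2.trans (Finset.card_le_card hτ), ?_⟩
  ext x
  constructor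
  · intro hx
    refine ⟨(hsub hx).1, fun a ha => ?_, fun j hj =>
      HExAux.on_all (fun y hy => (hsub hy).1) hp (Finset.mem_filter.1 hj).2 x hx⟩
    have h3 := G33.tight hp (u := rv (H.ex a0 - H.ex a)) (c := H.co a - H.co a0)
      (fun y hy => by
        have := (hsub hy).2.1 a0 ha0 a
        rw [HExAux.sub_dot]
        linarith)
      (by
        have := HExAux.top_eq (hpσ.2.1 a0 ha0) (Finset.mem_filter.1 ha).2
        rw [HExAux.sub_dot]
        linarith) x hx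
    rw [HExAux.sub_dot] at h3
    exact HExAux.top_of_eq ((hsub hx).2.1 a0 ha0) (by linarith)
  · rintro ⟨h3, h4, h5⟩
    have h4' : ∀ a, H.Top a p → H.Top a x := fun a ha =>
      h4 a (Finset.mem_filter.2 ⟨Finset.mem_univ _, ha⟩)
    have h5' : ∀ j, H.On j p → H.On j x := fun j hj =>
      h5 j (Finset.mem_filter.2 ⟨Finset.mem_univ _, hj⟩)
    have hxσ : x ∈ H.cell τ J :=
      ⟨h3, fun a ha => h4' a (hpσ.2.1 a ha), fun j hj => h5' j (hpσ.2.2 j hj)⟩
    obtain ⟨l, hl⟩ := hE hne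
    have hpl : ∀ y ∈ H.cell τ J, l y ≤ l p := by
      rw [hl] at hpρ
      exact hpρ.2
    obtain ⟨e, he, h6⟩ := G33.slack (HExAux.cons H τ J) (w := p - x) (HExAux.mem_cell.1 hpσ) (by
      rw [HExAux.all_cons]
      simp only [HExAux.neg_dot, HExAux.sub_dot, dotProduct_sub]
      refine ⟨fun j hj => ?_, fun j _ hj => ?_, fun a ha b hb => ?_⟩
      · have h7 : H.On j p := neg_injective hj
        have h8 : rv (H.nm j) ⬝ᵥ x = H.lev j := h5' j h7
        linarith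
      · have h8 : rv (H.nm j) ⬝ᵥ x = H.lev j := h5' j hj
        linarith
      · have h7 := hpσ.2.1 a ha
        have h8 := HExAux.top_eq (h4' a h7) (h4' b (HExAux.top_of_eq h7 (by linarith)))
        linarith)
    have h7 := hpl _ (HExAux.mem_cell.2 h6)
    rw [map_add, map_smul, map_sub, smul_eq_mul] at h7
    have h8 : l p ≤ l x := by nlinarith
    rw [hl]
    exact ⟨hxσ, fun y hy => (hpl y hy).trans h8⟩

theorem cells_inter : ∀ σ ∈ H.cells, ∀ ρ ∈ H.cells, IsExposed ℝ σ (σ ∩ ρ) := by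
  intro σ hσ ρ hρ
  obtain ⟨-, τ, J, h2, rfl⟩ := mem_cells.1 hσ
  obtain ⟨-, τ', J', -, rfl⟩ := mem_cells.1 hρ
  obtain ⟨a, ha⟩ : τ.Nonempty := Finset.card_pos.1 (by omega)
  have h1 := HExAux.exposed (H.cell τ J) (τ'.disjSum J')
    (Sum.elim (fun b => rv (H.ex b - H.ex a)) fun j => rv (H.nm j))
    (Sum.elim (fun b => H.co a - H.co b) H.lev) (by
      rintro (b | j) - y hy
      · have := hy.2.1 a ha b
        simp only [Sum.elim_inl, HExAux.sub_dot]
        linarith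
      · exact hy.1 j)
  convert h1 using 1
  ext x
  refine and_congr_right fun hx => ⟨fun h3 => ?_, fun h3 => ⟨hx.1, fun b hb => ?_, fun j hj => ?_⟩⟩
  · rintro (b | j) hk
    · have := HExAux.top_eq (hx.2.1 a ha) (h3.2.1 b (Finset.inl_mem_disjSum.1 hk))
      simp only [Sum.elim_inl, HExAux.sub_dot]
      linarith
    · exact h3.2.2 j (Finset.inr_mem_disjSum.1 hk)
  · have h4 := h3 (.inl b) (Finset.inl_mem_disjSum.2 hb)
    simp only [Sum.elim_inl, HExAux.sub_dot] at h4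
    exact HExAux.top_of_eq (hx.2.1 a ha) (by linarith)
  · exact h3 (.inr j) (Finset.inr_mem_disjSum.2 hj)

theorem cells_pt : ∀ σ ∈ H.cells, (intrinsicInterior ℝ σ).Nonempty := by
  intro σ hσ
  obtain ⟨hne, τ, J, -, rfl⟩ := mem_cells.1 hσ
  exact hne.intrinsicInterior (HExAux.convex_cell τ J)

theorem Good.fac_indep (h : H.Good) : ∀ σ ∈ H.cells, LinearIndepOn ℚ H.dir (H.fac σ) := by
  intro σ hσ
  obtain ⟨⟨x, hx⟩, τ, J, -, rfl⟩ := mem_cells.1 hσ
  rw [linearIndepOn_iff]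
  intro l hl h0
  rw [HExAux.comb] at h0
  have h1 := HExAux.key h hx.1 (g := l)
    (fun i hi => (Finsupp.mem_supported' ℚ l).1 hl i fun hc => hi (hc x hx))
    fun j _ => by rw [h0, dotProduct_zero]
  ext i
  exact congrFun h1 i

theorem Good.fac_disj (h : H.Good) : ∀ σ ∈ H.cells,
    Disjoint (Submodule.span ℚ (H.dir '' H.fac σ)) (tang σ) := by
  intro σ hσ
  obtain ⟨x, hx⟩ := cells_pt σ hσ
  obtain ⟨-, τ, J, -, rfl⟩ := mem_cells.1 hσ
  have hxσ : x ∈ H.cell τ J := intrinsicInterior_subset hx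
  rw [Submodule.disjoint_def]
  intro v hv hv'
  obtain ⟨l, hl, rfl⟩ := (Finsupp.mem_span_image_iff_linearCombination ℚ).1 hv
  rw [HExAux.comb] at hv' ⊢
  have h1 := HExAux.key h hxσ.1 (g := l)
    (fun i hi => (Finsupp.mem_supported' ℚ l).1 hl i fun hc => hi (hc x hxσ))
    fun j hj => by
      have h2 := G33.kill (HExAux.on_all (fun y hy => hy.1) hx hj) _ hv'
      rw [G33.rv_dot] at h2
      exact_mod_cast h2
  rw [h1]
  simp

end H5T.Hyp
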