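import Pool.Agent.Lib.MP_e9c0f3_ag.HY.Sys

/-! Gluing exactness along a shelling. -/

open scoped Classical

noncomputable section

namespace H5T.HY

variable {I E : Type} [AddCommGroup E] [Module ℚ E]

/-- A partition of the complex `K` into intervals `[up w, w]`, ordered by a height. -/
structure Shell (K : Finset I → Prop) (vx up : Finset I → Finset I) (rk : Finset I → ℝ) :
    Prop where
  down : ∀ S S', S ⊆ S' → K S' → K S
  mem : ∀ S, K S → K (vx S)
  le : ∀ S, K S → S ⊆ vx S
  up_le : ∀ S, K S → up (vx S) ⊆ S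
  eq : ∀ S S', K S' → S ⊆ vx S' → up (vx S') ⊆ S → vx S = vx S'
  lt : ∀ S S', K S' → S ⊆ S' → vx S = vx S' ∨ rk (vx S') < rk (vx S)

theorem morse_cmp {l : List (Finset I)} (hl : l.Pairwise (· ⊂ ·)) {S T : Finset I} (hS : S ∈ l)
    (hT : T ∈ l) : S ⊆ T ∨ T ⊆ S := by
  have h : l.Pairwise fun a b => a ⊆ b ∨ b ⊆ a := hl.imp fun h => Or.inl h.subset
  exact List.Pairwise.forall_of_forall_of_flip (R := fun a b : Finset I => a ⊆ b ∨ b ⊆ a)
    (fun _ _ => Or.inl subset_rfl) h (h.imp Or.symm) hS hT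

theorem Shell.ex [Fintype I] {K : Finset I → Prop} {vx up : Finset I → Finset I}
    {rk : Finset I → ℝ} (h : Shell K vx up rk) {φ : List (Finset I)}
    {G J : Finset I → Submodule ℚ E} {g : ℕ} (hG : Monotone G) (hJ : Monotone J)
    (e : ∀ S, K S → Ex (Cl (· ⊆ vx S) φ (up (vx S))) G J g) : Ex (Cl K φ ∅) G J g := by
  have key : ∀ F : Finset (Finset I), (∀ S, K S → ∀ w ∈ F, rk w < rk (vx S) → vx S ∈ F) →
      Ex (Cl (fun S => K S ∧ vx S ∈ F) φ ∅) G J g := by
    intro F
    induction F using Finset.induction_on_min_value rk with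
    | empty => exact fun _ => Ex.of_le fun S l hc _ => by simpa using hc.2.1 S (by simp)
    | insert a s ha hmin ih =>
      intro hcl
      have hle : ∀ w ∈ insert a s, rk a ≤ rk w := fun w hw =>
        (Finset.mem_insert.1 hw).elim (fun e => e ▸ le_rfl) (hmin w)
      have out : ∀ l, Cl (fun S => K S ∧ vx S ∈ insert a s) φ ∅ l →
          ¬ Cl (fun S => K S ∧ vx S ∈ s) φ ∅ l → ∃ S ∈ l, vx S = a := by
        intro l hc hn
        by_contra hx
        exact hn ⟨hc.1, fun S hS => ⟨(hc.2.1 S hS).1, (Finset.mem_insert.1 (hc.2.1 S hS).2).resolve_left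
          fun e => hx ⟨S, hS, e⟩⟩, hc.2.2⟩
      refine Ex.glue (c' := Cl (fun S => K S ∧ vx S ∈ s) φ ∅) (cv_Cl _ _ _) hG hJ
        (fun l hl => ⟨hl.1, fun S hS => ⟨(hl.2.1 S hS).1, Finset.mem_insert_of_mem (hl.2.1 S hS).2⟩,
          hl.2.2⟩)
        (fun l l' hl hs hc => ⟨hc.1, fun S hS => hl.2.1 S (hs.subset hS), hc.2.2⟩)
        (ih fun S hS w hw hr => ?_) ?_
      · refine (Finset.mem_insert.1 (hcl S hS w (Finset.mem_insert_of_mem hw) hr)).resolve_left ?_
        intro e'
        rw [e'] at hr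
        exact absurd (hmin w hw) (not_le.2 hr)
      · by_cases hx : ∃ T, K T ∧ vx T = a
        · obtain ⟨T, hT, rfl⟩ := hx
          refine (e T hT).congr (fun l => ⟨?_, ?_⟩) (fun _ _ _ => rfl) fun _ _ _ => rfl
          · rintro ⟨hc, hn⟩
            obtain ⟨S₀, h0, e0⟩ := out l hc hn
            have k0 := (hc.2.1 S₀ h0).1
            refine ⟨hc.1, fun S hS => ?_, hc.2.2.1, S₀, h0, e0 ▸ h.up_le S₀ k0⟩
            rcases morse_cmp hc.1 hS h0 with h1 | h1
            · exact h1.trans (e0 ▸ h.le S₀ k0)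
            · rcases h.lt S₀ S (hc.2.1 S hS).1 h1 with h2 | h2
              · rw [← e0, h2]
                exact h.le S (hc.2.1 S hS).1
              · rw [e0] at h2
                exact absurd (hle _ (hc.2.1 S hS).2) (not_le.2 h2)
          · rintro ⟨h1, h2, h3, S₀, h0, h4⟩
            have e1 : vx (vx T) = vx T :=
              h.eq _ T hT subset_rfl ((h.up_le T hT).trans (h.le T hT))
            refine ⟨⟨h1, fun S hS => ⟨h.down _ _ (h2 S hS) (h.mem T hT), ?_⟩, h3, S₀, h0,
              Finset.empty_subset _⟩, fun hc => ha ?_⟩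
            · rcases h.lt S _ (h.mem T hT) (h2 S hS) with h5 | h5
              · rw [h5, e1]
                exact Finset.mem_insert_self _ _
              · rw [e1] at h5
                exact hcl S (h.down _ _ (h2 S hS) (h.mem T hT)) _ (Finset.mem_insert_self _ _) h5
            · rw [← h.eq S₀ T hT (h2 S₀ h0) h4]
              exact (hc.2.1 S₀ h0).2
        · refine Ex.of_le fun S l hc _ => ?_
          obtain ⟨S₀, h0, e0⟩ := out _ hc.1 hc.2
          exact absurd ⟨S₀, (hc.1.2.1 S₀ h0).1, e0⟩ hx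
  exact (key Finset.univ fun _ _ _ _ _ => Finset.mem_univ _).congr (fun l => by simp [Cl])
    (fun _ _ _ => rfl) fun _ _ _ => rfl

end H5T.HY
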