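import Pool.Agent.Lib.MP_e9c0f3_ag.HY.HCov
import Pool.Agent.Lib.MP_e9c0f3_ag.HY.Morse

/-! The epigraph polytope of a tropical polynomial and its coefficient systems. Definitions. -/

open Matrix ExteriorAlgebra
open scoped Classical

noncomputable section

namespace H5T

/-- Constraints of the epigraph polytope: the lid, the monomials and the facets. -/
abbrev Ix (α β : Type) := Option (α ⊕ β)

/-- The functional given by a covector. -/
def dl {m : ℕ} (w : Fin m → ℚ) : (Fin m → ℚ) →ₗ[ℚ] ℚ where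
  toFun y := w ⬝ᵥ y
  map_add' := dotProduct_add w
  map_smul' c y := dotProduct_smul c w y

@[simp] theorem dl_apply {m : ℕ} (w y : Fin m → ℚ) : dl w y = w ⬝ᵥ y := rfl

/-- The monomials in `S`. -/
def mons {α β : Type} (S : Finset (Ix α β)) : Set α := {a | some (.inl a) ∈ S}

/-- The facets in `S`. -/
def cuts {α β : Type} (S : Finset (Ix α β)) : Set β := {j | some (.inr j) ∈ S}

/-- Multiplication by the vertical vector. -/
def vw (n : ℕ) : Mv n →ₗ[ℚ] Mv (n + 1) :=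
  LinearMap.mulLeft ℚ (ι ℚ (Fin.cons 1 0 : Fin (n + 1) → ℚ)) ∘ₗ
    (ExteriorAlgebra.map (LinearMap.pi (Fin.cases 0 LinearMap.proj) :
      (Fin n → ℚ) →ₗ[ℚ] (Fin (n + 1) → ℚ))).toLinearMap

namespace Hyp

variable {n : ℕ} {α β : Type} (H : Hyp n α β)

/-- Covectors of the constraints. -/
def lam : Ix α β → Fin (n + 1) → ℚ
  | none => Fin.cons (-1) 0
  | some s => H.cov s

/-- The support function of the Newton polytope at `dir j`. -/
def hh (j : β) : ℚ :=
  if h : ∃ a, ∀ b, H.ex b ⬝ᵥ H.dir j ≤ H.ex a ⬝ᵥ H.dir j then H.ex h.choose ⬝ᵥ H.dir j else 0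

/-- The lift of `dir j`. -/
def dh (j : β) : Fin (n + 1) → ℚ := Fin.cons (H.hh j) (H.dir j)

/-- Sedentarity ideal upstairs. -/
def Ih (S : Finset (Ix α β)) : Submodule ℚ (Mv (n + 1)) :=
  if none ∈ S then ⊤ else (Submodule.span ℚ (H.dh '' cuts S)).map (ι ℚ) * ⊤

/-- Sedentarity ideal downstairs. -/
def I0 (S : Finset (Ix α β)) : Submodule ℚ (Mv n) :=
  if none ∈ S then ⊤ else (Submodule.span ℚ (H.dir '' cuts S)).map (ι ℚ) * ⊤

/-- Multi-tangent spaces of the graph. -/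
def Fh (r : ℕ) (S : Finset (Ix α β)) : Submodule ℚ (Mv (n + 1)) :=
  ⨆ a ∈ mons S, wedge (LinearMap.ker (dl (H.lam (some (.inl a))))) r

/-- Multi-tangent spaces of the hypersurface. -/
def FX (p : ℕ) (S : Finset (Ix α β)) : Submodule ℚ (Mv n) :=
  ⨆ a ∈ mons S, ⨆ b ∈ mons S, ⨆ _ : a ≠ b, wedge (LinearMap.ker (dl (H.ex a - H.ex b))) p

/-- Multi-tangent spaces of the ambient space. -/
def FY (_ : Hyp n α β) (r : ℕ) (S : Finset (Ix α β)) : Submodule ℚ (Mv n) :=
  if (mons S).Nonempty then wedge ⊤ r else ⊥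

/-- What is used of the epigraph polytope. -/
structure Fm (K : Finset (Ix α β) → Prop) (vx up : Finset (Ix α β) → Finset (Ix α β))
    (rk : Finset (Ix α β) → ℝ) : Prop where
  shell : HY.Shell K vx up rk
  card : ∀ S, K S → (vx S).card = n + 1
  top_up : ∀ S, K S → none ∉ up (vx S)
  cut_up : ∀ S, K S → none ∉ vx S → ∀ j, some (.inr j) ∉ up (vx S)
  mon_up : ∀ S, K S → none ∉ vx S → ∃ a, some (.inl a) ∈ up (vx S)
  sep : ∀ S, K S → none ∈ S → mons S = ∅
  indep : ∀ S, K S → LinearIndepOn ℚ H.lam (S : Set (Ix α β))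
  face : ∀ S, K S → ∀ a ∈ mons S, ∀ j ∈ cuts S, H.ex a ⬝ᵥ H.dir j = H.hh j
  dirs : ∀ S, K S → LinearIndepOn ℚ H.dir (cuts S)
  exact : ∀ S, K S → (mons S).Nonempty → ∃ x ∈ H.box,
    (∀ a, H.Top a x ↔ a ∈ mons S) ∧ ∀ j, H.On j x ↔ j ∈ cuts S
  of_pt : ∀ x ∈ H.box, ∀ S, none ∉ S → (∀ a ∈ mons S, H.Top a x) → (∀ j ∈ cuts S, H.On j x) → K S

theorem Ih_mono : Monotone H.Ih := by
  intro S S' h
  unfold Ih
  split_ifs with h1 h2 h2
  · exact le_rfl
  · exact absurd (h h1) h2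
  · exact le_top
  · exact mul_le_mul' (Submodule.map_mono (Submodule.span_mono (Set.image_mono fun _ hx => h hx)))
      le_rfl

theorem I0_mono : Monotone H.I0 := by
  intro S S' h
  unfold I0
  split_ifs with h1 h2 h2
  · exact le_rfl
  · exact absurd (h h1) h2
  · exact le_top
  · exact mul_le_mul' (Submodule.map_mono (Submodule.span_mono (Set.image_mono fun _ hx => h hx)))
      le_rfl

theorem Fh_mono (r : ℕ) : Monotone (H.Fh r) := fun _ _ h =>
  iSup₂_le fun a ha => le_iSup₂_of_le a (h ha) le_rfl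

theorem FX_mono (p : ℕ) : Monotone (H.FX p) := fun _ _ h =>
  iSup₂_le fun a ha => iSup₂_le fun b hb =>
    le_iSup₂_of_le a (h ha) (le_iSup₂_of_le b (h hb) le_rfl)

theorem FY_mono (r : ℕ) : Monotone (H.FY r) := by
  intro S S' h
  unfold FY
  split_ifs with h1 h2
  · exact le_rfl
  · obtain ⟨a, ha⟩ := h1
    exact absurd ⟨a, h ha⟩ h2
  · exact bot_le
  · exact le_rfl

end Hyp

end H5T
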