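import Pool.Agent.Lib.MP_e9c0f3_ag.HY.Sys

/-! Splitting a system of multivectors along the monomials of a basis. -/

open ExteriorAlgebra Module
open scoped Classical

noncomputable section

namespace H5T.HY

variable {I : Type}

namespace Mo

variable {m : ℕ} {κ : Type}

/-- The projection along one basis vector. -/
def pr (b : Basis κ ℚ (Fin m → ℚ)) (k : κ) : (Fin m → ℚ) →ₗ[ℚ] (Fin m → ℚ) :=
  LinearMap.id - (b.coord k).smulRight (b k)

theorem pr_apply (b : Basis κ ℚ (Fin m → ℚ)) (k : κ) (v : Fin m → ℚ) :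
    pr b k v = v - b.coord k v • b k := rfl

theorem pr_self (b : Basis κ ℚ (Fin m → ℚ)) (k : κ) : pr b k (b k) = 0 := by
  simp [pr_apply]

theorem coord_ne (b : Basis κ ℚ (Fin m → ℚ)) {k j : κ} (h : j ≠ k) : b.coord k (b j) = 0 := by
  simp [h]

theorem pr_ker (b : Basis κ ℚ (Fin m → ℚ)) (k : κ) :
    ∀ v ∈ LinearMap.ker (b.coord k), pr b k v = v := by
  intro v hv
  rw [pr_apply, LinearMap.mem_ker.1 hv, zero_smul, sub_zero]

theorem multi_mem {T : Submodule ℚ (Fin m → ℚ)} :
    ∀ (r : ℕ) (v : Fin r → Fin m → ℚ), (∀ i, v i ∈ T) → ιMulti ℚ r v ∈ wedge T r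
  | 0, v, _ => by
    rw [ιMulti_zero_apply]
    simp [wedge]
  | r + 1, v, hv => by
    rw [ιMulti_succ_apply]
    exact EA.mul_mem_wedge (hv 0) (multi_mem r _ fun i => hv _)

theorem sub_map (b : Basis κ ℚ (Fin m → ℚ)) (k : κ) (x : Mv m) :
    ∃ y, x - ExteriorAlgebra.map (pr b k) x = ι ℚ (b k) * y := by
  induction x using CliffordAlgebra.left_induction with
  | algebraMap r => exact ⟨0, by rw [AlgHom.commutes, sub_self, mul_zero]⟩
  | add x y hx hy =>
    obtain ⟨u, hu⟩ := hx
    obtain ⟨v, hv⟩ := hy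
    exact ⟨u + v, by rw [map_add, add_sub_add_comm, hu, hv, mul_add]⟩
  | ι_mul x v hx =>
    obtain ⟨u, hu⟩ := hx
    refine ⟨b.coord k v • ExteriorAlgebra.map (pr b k) x - ι ℚ v * u, ?_⟩
    have h1 : ι ℚ v * ι ℚ (b k) = -(ι ℚ (b k) * ι ℚ v : Mv m) :=
      eq_neg_of_add_eq_zero_left (ι_add_mul_swap v (b k))
    have h2 : x = ExteriorAlgebra.map (pr b k) x + ι ℚ (b k) * u := by rw [← hu]; abel
    change ι ℚ v * x - ExteriorAlgebra.map (pr b k) (ι ℚ v * x) = _
    rw [map_mul, ExteriorAlgebra.map_apply_ι, pr_apply, map_sub, map_smul]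
    generalize ExteriorAlgebra.map (pr b k) x = w at h2
    rw [h2, mul_add, ← mul_assoc, h1, sub_mul, mul_sub, smul_mul_assoc, mul_smul_comm, neg_mul,
      mul_assoc]
    abel

variable [LinearOrder κ] (b : Basis κ ℚ (Fin m → ℚ))

theorem mono_eq (U : Finset κ) : ∃ e : Fin U.card → κ, Set.range e = U ∧
    b.ExteriorAlgebra U = ιMulti ℚ U.card (b ∘ e) := by
  refine ⟨U.orderEmbOfFin rfl, Finset.range_orderEmbOfFin U rfl, ?_⟩
  rw [basis_apply_ofCard b rfl]
  rfl

theorem mono_mem {T : Submodule ℚ (Fin m → ℚ)} {U : Finset κ} (h : ∀ j ∈ U, b j ∈ T) :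
    b.ExteriorAlgebra U ∈ wedge T U.card := by
  obtain ⟨e, he, h1⟩ := mono_eq b U
  rw [h1]
  exact multi_mem _ _ fun i => h _ (by rw [← Finset.mem_coe, ← he]; exact ⟨i, rfl⟩)

theorem mono_ker {k : κ} {U : Finset κ} (h : k ∉ U) :
    b.ExteriorAlgebra U ∈ wedge (LinearMap.ker (b.coord k)) U.card :=
  mono_mem b fun _ hj => LinearMap.mem_ker.2 (coord_ne b fun e => h (e ▸ hj))

theorem map_mono_mem {k : κ} {U : Finset κ} (h : k ∈ U) :
    ExteriorAlgebra.map (pr b k) (b.ExteriorAlgebra U) = 0 := by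
  obtain ⟨e, he, h1⟩ := mono_eq b U
  obtain ⟨i, hi⟩ : k ∈ Set.range e := by rw [he]; exact h
  rw [h1, ExteriorAlgebra.map_apply_ιMulti]
  exact AlternatingMap.map_coord_zero _ i (by simp [hi, pr_self])

theorem coord_map (k : κ) (U : Finset κ) (x : Mv m) :
    b.ExteriorAlgebra.coord U (ExteriorAlgebra.map (pr b k) x) =
      if k ∈ U then 0 else b.ExteriorAlgebra.coord U x := by
  have : b.ExteriorAlgebra.coord U ∘ₗ (ExteriorAlgebra.map (pr b k)).toLinearMap =
      if k ∈ U then 0 else b.ExteriorAlgebra.coord U := by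
    refine b.ExteriorAlgebra.ext fun V => ?_
    rw [LinearMap.comp_apply, AlgHom.toLinearMap_apply]
    by_cases hV : k ∈ V
    · rw [map_mono_mem b hV, map_zero]
      split_ifs with hU
      · rfl
      · have : V ≠ U := fun e => hU (e ▸ hV)
        simp [this]
    · rw [EA.map_wedge _ (pr_ker b k) _ _ (mono_ker b hV)]
      split_ifs with hU
      · have : V ≠ U := fun e => hV (e ▸ hU)
        simp [this]
      · rfl
  have h := LinearMap.congr_fun this x
  rw [LinearMap.comp_apply, AlgHom.toLinearMap_apply] at h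
  rw [h]
  split_ifs <;> rfl

theorem coord_top {r : ℕ} {U : Finset κ} (h : U.card ≠ r) {x : Mv m} (hx : x ∈ wedge ⊤ r) :
    b.ExteriorAlgebra.coord U x = 0 := by
  have h1 : wedge (⊤ : Submodule ℚ (Fin m → ℚ)) r =
      Submodule.span ℚ (Set.range (ιMulti_family ℚ r b)) := by
    rw [exteriorPower.ιMulti_family_span_fixedDegree_of_span ℚ b.span_eq, wedge, Submodule.map_top]
  rw [h1] at hx
  have h2 : Submodule.span ℚ (Set.range (ιMulti_family ℚ r b)) ≤
      LinearMap.ker (b.ExteriorAlgebra.coord U) := by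
    rw [Submodule.span_le]
    rintro _ ⟨s, rfl⟩
    have : (s : Finset κ) ≠ U := fun e => h (e ▸ s.2)
    rw [← basis_apply_powersetCard]
    simp [this]
  exact h2 hx

theorem alive {r : ℕ} {U : Finset κ} {A T : Set κ} (hT : T ⊆ U) (hA : Disjoint A U) :
    (Submodule.span ℚ (b '' A)).map (ι ℚ) * ⊤ ⊔ ⨆ k ∈ T, wedge (LinearMap.ker (b.coord k)) r ≤
      LinearMap.ker (b.ExteriorAlgebra.coord U) := by
  refine sup_le ?_ (iSup₂_le fun k hk x hx => ?_)
  · rw [Submodule.mul_le]
    rintro _ ⟨v, hv, rfl⟩ y -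
    induction hv using Submodule.span_induction with
    | mem v hv =>
      obtain ⟨k, hk, rfl⟩ := hv
      have h := coord_map b k U (ι ℚ (b k) * y)
      rw [if_neg (show k ∉ U from Set.disjoint_left.1 hA hk), map_mul, ExteriorAlgebra.map_apply_ι, pr_self,
        map_zero, zero_mul, map_zero] at h
      exact h.symm
    | zero => simp
    | add u v _ _ hu hv => rw [map_add, add_mul]; exact add_mem hu hv
    | smul a v _ hv => rw [map_smul, smul_mul_assoc]; exact Submodule.smul_mem _ _ hv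
  · have h := coord_map b k U x
    rw [if_pos (show k ∈ U from hT hk), EA.map_wedge _ (pr_ker b k) _ _ hx] at h
    exact h

theorem gone {U : Finset κ} {A T : Set κ} (h : ¬ (T ⊆ U ∧ Disjoint A U)) :
    b.ExteriorAlgebra U ∈ (Submodule.span ℚ (b '' A)).map (ι ℚ) * ⊤ ⊔
      ⨆ k ∈ T, wedge (LinearMap.ker (b.coord k)) U.card := by
  by_cases hT : T ⊆ U
  · obtain ⟨k, hk, hU⟩ := Set.not_disjoint_iff.1 fun hA => h ⟨hT, hA⟩
    obtain ⟨y, hy⟩ := sub_map b k (b.ExteriorAlgebra U)
    rw [map_mono_mem b hU, sub_zero] at hy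
    rw [hy]
    exact Submodule.mem_sup_left (Submodule.mul_mem_mul
      (Submodule.mem_map_of_mem (Submodule.subset_span ⟨k, hk, rfl⟩)) Submodule.mem_top)
  · obtain ⟨k, hk, hU⟩ := Set.not_subset.1 hT
    exact Submodule.mem_sup_right (Submodule.mem_iSup_of_mem k
      (Submodule.mem_iSup_of_mem hk (mono_ker b hU)))

end Mo

theorem Ex.mono_split {m r g : ℕ} {κ : Type} [Fintype κ] (b : Basis κ ℚ (Fin m → ℚ))
    {c : List (Finset I) → Prop} {J : Finset I → Submodule ℚ (Mv m)} (dead : Finset I → Prop)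
    (A T : Finset I → Set κ)
    (hJ : ∀ S l, c (S :: l) → J S = if dead S then ⊤ else
      (Submodule.span ℚ (b '' A S)).map (ι ℚ) * ⊤ ⊔
        ⨆ k ∈ T S, wedge (LinearMap.ker (b.coord k)) r)
    (h : ∀ U : Finset κ, U.card = r → ∀ W : Submodule ℚ (Mv m), Ex c (fun _ => W)
      (fun S => if ¬ dead S ∧ T S ⊆ U ∧ Disjoint (A S) U then ⊥ else ⊤) g) :
    Ex c (fun _ => wedge ⊤ r) J g := by
  let _ : LinearOrder κ := LinearOrder.lift' (Fintype.equivFin κ) (Equiv.injective _)
  intro z hz hb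
  set B := b.ExteriorAlgebra with hB
  let Q : Finset κ → Mv m →ₗ[ℚ] Mv m := fun U => (B.coord U).smulRight (B U)
  have hQ : ∀ U x, Q U x = B.coord U x • B U := fun _ _ => rfl
  have hsum : z = ∑ U, co (Q U) z := by
    ext l
    rw [Finsupp.finsetSum_apply]
    exact (B.sum_repr (z l)).symm
  have hCC : ∀ {W : Submodule ℚ (Mv m)} {g : ℕ} (l : List (Finset I)),
      (if c l ∧ l.length = g then hd (fun _ => W) l else ⊥) ≤ W := by
    intro W g l
    split_ifs
    · cases l with
      | nil => exact bot_le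
      | cons S l => exact le_rfl
    · exact bot_le
  rw [hsum]
  refine Submodule.sum_mem _ fun U _ => ?_
  by_cases hU : U.card = r
  swap
  · have : co (Q U) z = 0 := by
      ext l
      rw [co_apply, hQ, Mo.coord_top b hU (hCC l (mem_Ch.1 hz l)), zero_smul]
      rfl
    rw [this]
    exact zero_mem _
  set W := Submodule.span ℚ {B U} with hW
  have hQW : ∀ x, Q U x ∈ W := fun x =>
    Submodule.smul_mem _ _ (Submodule.mem_span_singleton_self _)
  have hWr : W ≤ wedge ⊤ r := by
    rw [hW, Submodule.span_singleton_le_iff_mem, ← hU]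
    exact Mo.mono_mem b fun _ _ => Submodule.mem_top
  have h1 : co (Q U) z ∈ CC c (fun _ => W) g := by
    refine co_mem_Ch _ (fun l β hβ => ?_) hz
    split_ifs at hβ ⊢
    · cases l with
      | nil => rw [(Submodule.mem_bot ℚ).1 hβ, map_zero]; exact zero_mem _
      | cons S l => exact hQW β
    · rw [(Submodule.mem_bot ℚ).1 hβ, map_zero]; exact zero_mem _
  have h2 : bd (co (Q U) z) ∈
      NN c (fun S => if ¬ dead S ∧ T S ⊆ U ∧ Disjoint (A S) U then ⊥ else ⊤) := by
    rw [bd_co]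
    refine co_mem_Ch _ (fun l β hβ => ?_) hb
    by_cases hl : c l
    · rw [if_pos hl] at hβ ⊢
      cases l with
      | nil => rw [(Submodule.mem_bot ℚ).1 hβ, map_zero]; exact zero_mem _
      | cons S l =>
        change β ∈ J S at hβ
        change Q U β ∈ (if ¬ dead S ∧ T S ⊆ U ∧ Disjoint (A S) U then ⊥ else ⊤)
        split_ifs with ha
        · rw [hJ S l hl, if_neg ha.1] at hβ
          rw [hQ, LinearMap.mem_ker.1 (Mo.alive b ha.2.1 ha.2.2 hβ), zero_smul]
          exact zero_mem _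
        · exact Submodule.mem_top
    · rw [if_neg hl]; exact Submodule.mem_top
  obtain ⟨_, ⟨y, hy, rfl⟩, n, hn, e⟩ := Submodule.mem_sup.1 (h U hU W _ h1 h2)
  rw [← e]
  refine Submodule.add_mem_sup ⟨y, Ch_mono (fun l => ?_) hy, rfl⟩ (mem_Ch.2 fun l => ?_)
  · split_ifs
    · cases l with
      | nil => exact le_rfl
      | cons S l => exact hWr
    · exact le_rfl
  · have hnl := mem_Ch.1 hn l
    by_cases hl : c l
    · rw [if_pos hl] at hnl ⊢
      cases l with
      | nil => exact hnl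
      | cons S l =>
        change n (S :: l) ∈ J S
        change _ ∈ (if ¬ dead S ∧ T S ⊆ U ∧ Disjoint (A S) U then ⊥ else ⊤) at hnl
        split_ifs at hnl with ha
        · rw [(Submodule.mem_bot ℚ).1 hnl]; exact zero_mem _
        · have hy' : bd y ∈ Ch fun _ => W := bd_mem_Ch (fun l _ _ _ => hCC l) hy
          have hn' : n (S :: l) ∈ W := by
            rw [eq_sub_of_add_eq' e, Finsupp.sub_apply]
            exact sub_mem (hQW _) (mem_Ch.1 hy' _)
          rw [hJ S l hl]
          split_ifs with hd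
          · exact Submodule.mem_top
          · refine (Submodule.span_singleton_le_iff_mem _ _).2 ?_ hn'
            rw [← hU]
            exact Mo.gone b fun hh => ha ⟨hd, hh⟩
    · rw [if_neg hl]; exact Submodule.mem_top

end H5T.HY
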