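import Pool.Agent.Lib.MP_e9c0f3_ag.HY.Frame
import Pool.Agent.Lib.MP_e9c0f3_ag.HY.Poly
import Pool.Agent.Lib.MP_e9c0f3_ag.HY.Bool
import Pool.Agent.Lib.MP_e9c0f3_ag.HY.Mono

/-! Exactness of the four monomial systems. -/

open Matrix ExteriorAlgebra
open scoped Classical

noncomputable section

namespace H5T.Hyp

open HY

variable {n : ℕ} {α β : Type} [Fintype α] [Fintype β] {H : Hyp n α β}
  {K : Finset (Ix α β) → Prop} {vx up : Finset (Ix α β) → Finset (Ix α β)}
  {rk : Finset (Ix α β) → ℝ} {φ : List (Finset (Ix α β))} {g r : ℕ}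

/-- It is enough to treat the vertices away from the lid. -/
theorem Fm.hp_red (h : H.Fm K vx up rk) (h0 : ∀ S ∈ φ, none ∉ S) {E : Type} [AddCommGroup E]
    [Module ℚ E] {W : Submodule ℚ E} {J : Finset (Ix α β) → Submodule ℚ E} (hJ : Monotone J)
    (ht : ∀ S, none ∈ S → J S = ⊤)
    (e : ∀ S, K S → none ∉ vx S → Ex (Cl (· ⊆ vx S) φ (up (vx S))) (fun _ => W) J g) :
    Ex (Cl K φ ∅) (fun _ => W) J g := by
  refine h.shell.ex monotone_const hJ fun S hS => ?_
  by_cases hn : none ∈ vx S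
  · exact ex_insert hn (h.top_up S hS) h0 monotone_const hJ (Or.inl ht)
  · exact e S hS hn

/-- Systems that do not see the monomials. -/
theorem Fm.hp_ideal (h : H.Fm K vx up rk) (h0 : ∀ S ∈ φ, none ∉ S)
    (h1 : φ = [] ∨ ∃ a, ∀ S ∈ φ, a ∈ mons S) {E : Type} [AddCommGroup E]
    [Module ℚ E] {W : Submodule ℚ E} {J : Finset (Ix α β) → Submodule ℚ E} (hJ : Monotone J)
    (ht : ∀ S, none ∈ S → J S = ⊤)
    (he : ∀ S S', (none ∈ S' ↔ none ∈ S) → cuts S' = cuts S → J S = J S') :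
    Ex (Cl K φ ∅) (fun _ => W) J g := by
  refine h.hp_red h0 hJ ht fun S hS hn => ?_
  by_cases e : φ = []
  · obtain ⟨a, ha⟩ := h.mon_up S hS hn
    exact ex_erase (b := some (.inl a)) (by simp [e]) (Or.inl ha) (fun _ => le_rfl)
      fun T => (he _ _ (by simp) (by ext j; simp [cuts])).le
  · obtain ⟨a, ha⟩ := h1.resolve_left e
    exact ex_erase (b := some (.inl a)) ha (Or.inr e) (fun _ => le_rfl)
      fun T => (he _ _ (by simp) (by ext j; simp [cuts])).le

/-- The two Boolean lemmas for a system that is given by a predicate. -/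
theorem hp_bool {I E : Type} [AddCommGroup E] [Module ℚ E] {φ : List (Finset I)}
    {u v : Finset I} (s : Finset I) (hu : u ⊆ v) (W : Submodule ℚ E) {p : Finset I → Prop}
    {i : ∀ S, Decidable (p S)} (hp : ∀ S, S ⊆ v → (p S ↔ S ⊆ s))
    (h : (φ = [] ∧ (Disjoint u s → v.card ≤ u.card + s.card → g ≠ u.card + 1)) ∨
      (φ ≠ [] ∧ g ≤ v.card)) :
    Ex (Cl (· ⊆ v) φ u) (fun _ => W) (fun S => @ite _ (p S) (i S) ⊥ ⊤) g := by
  have e : Ex (Cl (· ⊆ v) φ u) (fun _ => W) (fun S => if S ⊆ s then ⊥ else ⊤) g := by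
    rcases h with ⟨rfl, h⟩ | ⟨h1, h2⟩
    · exact ex_global hu W fun a b =>
        h a ((Finset.card_le_card b).trans (Finset.card_union_le _ _))
    · exact ex_local h1 h2 W
  exact e.congr (fun _ => Iff.rfl) (fun _ _ _ => rfl) fun S l hl =>
    if_congr (hp S (hl.2.1 S List.mem_cons_self)) rfl rfl

theorem Fm.ex_Ih (h : H.Fm K vx up rk) (h0 : ∀ S ∈ φ, none ∉ S)
    (h1 : φ = [] ∨ ∃ a, ∀ S ∈ φ, a ∈ mons S) (W : Submodule ℚ (Mv (n + 1))) :
    Ex (Cl K φ ∅) (fun _ => W) H.Ih g :=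
  h.hp_ideal h0 h1 H.Ih_mono (fun S hS => by simp [Ih, hS]) fun S S' a b => by
    simp only [Ih, a, b]

theorem Fm.ex_I0 (h : H.Fm K vx up rk) (h0 : ∀ S ∈ φ, none ∉ S)
    (h1 : φ = [] ∨ ∃ a, ∀ S ∈ φ, a ∈ mons S) (W : Submodule ℚ (Mv n)) :
    Ex (Cl K φ ∅) (fun _ => W) H.I0 g :=
  h.hp_ideal h0 h1 H.I0_mono (fun S hS => by simp [I0, hS]) fun S S' a b => by
    simp only [I0, a, b]

omit [Fintype α] [Fintype β] in
/-- A basis adapted to a vertex away from the lid. -/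
theorem Fm.hp_basis (h : H.Fm K vx up rk) {v : Finset (Ix α β)} (hv : K v) (hc : v.card = n + 1)
    (hn : none ∉ v) : ∃ b : Module.Basis v ℚ (Fin (n + 1) → ℚ),
      (∀ j (hj : some (.inr j) ∈ v), b ⟨_, hj⟩ = H.dh j) ∧
        ∀ a (ha : some (.inl a) ∈ v), b.coord ⟨_, ha⟩ = dl (H.lam (some (.inl a))) := by
  choose e he using fun t : Ix α β =>
    exists_dual_vec (h.indep v hv) fun s => if t = s then 1 else 0
  let w : Ix α β → Fin (n + 1) → ℚ := fun t =>
    t.elim 0 (Sum.elim (fun a => e (some (.inl a))) H.dh)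
  have key : ∀ a, some (.inl a) ∈ v → ∀ t ∈ v,
      H.lam (some (.inl a)) ⬝ᵥ w t = if t = some (.inl a) then 1 else 0 := by
    intro a ha t ht
    rcases t with _ | b | j
    · exact absurd ht hn
    · exact he (some (.inl b)) _ ha
    · have := h.face v hv a ha j ht
      rw [if_neg (by simp)]
      simp only [w, lam, cov, dh, Option.elim, Sum.elim_inr, dotProduct, Fin.sum_univ_succ,
        Fin.cons_zero, Fin.cons_succ, Pi.neg_apply, neg_mul, Finset.sum_neg_distrib, one_mul]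
      rw [← this, dotProduct, add_neg_cancel]
  have li : LinearIndependent ℚ fun k : v => w k := by
    rw [Fintype.linearIndependent_iff]
    intro c hc0
    have m : ∀ a (ha : some (.inl a) ∈ v), c ⟨_, ha⟩ = 0 := by
      intro a ha
      have := congrArg (dl (H.lam (some (.inl a)))) hc0
      rw [map_sum, map_zero, Finset.sum_eq_single ⟨_, ha⟩] at this
      · rwa [map_smul, dl_apply, key a ha _ ha, if_pos rfl, smul_eq_mul, mul_one] at this
      · intro k _ hk
        rw [map_smul, dl_apply, key a ha _ k.2, if_neg fun e => hk (Subtype.ext e), smul_zero]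
      · simp
    rintro ⟨_ | a | j, hk⟩
    · exact absurd hk hn
    · exact m a hk
    · obtain ⟨y, hy⟩ := exists_dual_vec (h.dirs v hv) fun s => if j = s then 1 else 0
      have k2 : ∀ i, some (.inr i) ∈ v →
          (Fin.cons 0 y : Fin (n + 1) → ℚ) ⬝ᵥ w (some (.inr i)) = if j = i then 1 else 0 := by
        intro i hi
        rw [← hy i hi, dotProduct_comm (H.dir i)]
        simp [w, dh, dotProduct, Fin.sum_univ_succ]
      have := congrArg (dl (Fin.cons 0 y : Fin (n + 1) → ℚ)) hc0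
      rw [map_sum, map_zero, Finset.sum_eq_single ⟨_, hk⟩] at this
      · rwa [map_smul, dl_apply, k2 j hk, if_pos rfl, smul_eq_mul, mul_one] at this
      · rintro ⟨_ | a | i, hi⟩ _ hne
        · exact absurd hi hn
        · rw [m a hi, zero_smul, map_zero]
        · rw [map_smul, dl_apply, k2 i hi, if_neg fun e => hne (by subst e; rfl), smul_zero]
      · simp
  let b := basisOfLinearIndependentOfCardEqFinrank' (K := ℚ) _ li (by simp [hc])
  have hb : ∀ k, b k = w k := fun k =>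
    congrFun (coe_basisOfLinearIndependentOfCardEqFinrank' (K := ℚ) _ li _) k
  refine ⟨b, fun j hj => hb _, fun a ha => b.ext fun k => ?_⟩
  rw [dl_apply, hb, key a ha _ k.2, Module.Basis.coord_apply, ← hb, b.repr_self,
    Finsupp.single_apply]
  exact if_congr Subtype.ext_iff rfl rfl

theorem Fm.ex_Fh (h : H.Fm K vx up rk) (h0 : ∀ S ∈ φ, none ∉ S)
    (h1 : (φ = [] ∧ n + 2 < g + r) ∨ (φ ≠ [] ∧ g ≤ n + 1)) :
    Ex (Cl K φ ∅) (fun _ => wedge ⊤ r) (fun S => H.Ih S ⊔ H.Fh r S) g := by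
  refine h.hp_red h0 (fun S S' e => sup_le_sup (H.Ih_mono e) (H.Fh_mono r e))
    (fun S hS => by simp [Ih, hS]) fun S₀ hS₀ hn => ?_
  have hc := h.card S₀ hS₀
  have hu : up (vx S₀) ⊆ vx S₀ := (h.shell.up_le S₀ hS₀).trans (h.shell.le S₀ hS₀)
  have hcut := h.cut_up S₀ hS₀ hn
  have hv := h.shell.mem S₀ hS₀
  generalize up (vx S₀) = u at hu hcut ⊢
  generalize vx S₀ = v at hc hu hv hn ⊢
  obtain ⟨b, hb1, hb2⟩ := h.hp_basis hv hc hn
  refine Ex.mono_split b (fun _ => False) (fun S => {k | (∃ j, k.1 = some (.inr j)) ∧ k.1 ∈ S})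
    (fun S => {k | (∃ a, k.1 = some (.inl a)) ∧ k.1 ∈ S}) (fun S l hl => ?_) fun U hU W => ?_
  · have hS : S ⊆ v := hl.2.1 S List.mem_cons_self
    rw [if_neg not_false, Ih, if_neg fun e => hn (hS e), Fh]
    congr 1
    · congr 3
      ext x
      constructor
      · rintro ⟨j, hj, rfl⟩
        exact ⟨⟨_, hS hj⟩, ⟨⟨j, rfl⟩, hj⟩, hb1 j _⟩
      · rintro ⟨⟨_, hk⟩, ⟨⟨j, rfl⟩, hj⟩, rfl⟩
        exact ⟨j, hj, (hb1 j hk).symm⟩
    · refine le_antisymm (iSup₂_le fun a ha => ?_) (iSup₂_le ?_)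
      · refine le_iSup₂_of_le ⟨_, hS ha⟩ ⟨⟨a, rfl⟩, ha⟩ ?_
        rw [hb2 a]
      · rintro ⟨_, hk⟩ ⟨⟨a, rfl⟩, ha⟩
        refine le_iSup₂_of_le a ha ?_
        rw [hb2 a]
  · let s : Finset (Ix α β) :=
      v.filter fun x => (∃ a, x = some (.inl a)) ↔ ∃ k ∈ U, k.1 = x
    refine hp_bool s hu W (fun S hS => ⟨?_, fun hs => ?_⟩)
      (h1.imp (fun h1 => ⟨h1.1, fun hd _ => ?_⟩) fun h1 => ⟨h1.1, by omega⟩)
    · rintro ⟨-, h2, h3⟩ x hx
      refine Finset.mem_filter.2 ⟨hS hx, fun ha => ⟨⟨x, hS hx⟩, h2 ⟨ha, hx⟩, rfl⟩, ?_⟩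
      rintro ⟨⟨_ | a | j, hk'⟩, hk, rfl⟩
      · exact absurd hk' hn
      · exact ⟨a, rfl⟩
      · exact absurd hk (Set.disjoint_left.1 h3 ⟨⟨j, rfl⟩, hx⟩)
    · refine ⟨not_false, fun k hk => ?_, Set.disjoint_left.2 fun k hk hkU => ?_⟩
      · obtain ⟨k', hk', e'⟩ := (Finset.mem_filter.1 (hs hk.2)).2.1 hk.1
        rwa [← Subtype.ext e']
      · obtain ⟨a, ha⟩ := (Finset.mem_filter.1 (hs hk.2)).2.2 ⟨k, hkU, rfl⟩
        obtain ⟨j, hj⟩ := hk.1
        simp [ha] at hj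
    · have h3 : U.image Subtype.val ⊆ v \ u := by
        intro x hx
        obtain ⟨k, hk, rfl⟩ := Finset.mem_image.1 hx
        refine Finset.mem_sdiff.2 ⟨k.2, fun hku => Finset.disjoint_left.1 hd hku ?_⟩
        refine Finset.mem_filter.2 ⟨k.2, fun _ => ⟨k, hk, rfl⟩, fun _ => ?_⟩
        obtain ⟨_ | a | j, hk'⟩ := k
        · exact absurd hk' hn
        · exact ⟨a, rfl⟩
        · exact absurd hku (hcut j)
      have h4 := Finset.card_le_card h3
      rw [Finset.card_image_of_injective _ Subtype.val_injective,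
        Finset.card_sdiff_of_subset hu] at h4
      have h5 := Finset.card_le_card hu
      omega

theorem Fm.ex_FY (h : H.Fm K vx up rk) (h0 : ∀ S ∈ φ, none ∉ S)
    (h1 : (φ = [] ∧ g ≤ r + 1) ∨ (φ ≠ [] ∧ g ≤ n + 1)) :
    Ex (Cl K φ ∅) (fun _ => wedge ⊤ r) (fun S => H.I0 S ⊔ H.FY r S) g := by
  refine h.hp_red h0 (fun S S' e => sup_le_sup (H.I0_mono e) (H.FY_mono r e))
    (fun S hS => by simp [I0, hS]) fun S₀ hS₀ hn => ?_
  have hc := h.card S₀ hS₀
  have hu : up (vx S₀) ⊆ vx S₀ := (h.shell.up_le S₀ hS₀).trans (h.shell.le S₀ hS₀)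
  have hd := h.dirs _ (h.shell.mem S₀ hS₀)
  generalize up (vx S₀) = u at hu ⊢
  generalize vx S₀ = v at hc hu hd hn ⊢
  refine Ex.pull (H := fun _ => wedge ⊤ r)
    (L := fun S => if (mons S).Nonempty then ⊤ else H.I0 S) LinearMap.id (cv_Cl _ _ _)
    monotone_const (fun _ _ _ _ hx => hx) (fun S _ _ x hx => ?_) (fun _ _ _ => by simp)
    (fun S _ _ x hx hx' => ?_) ?_
  · by_cases e : (mons S).Nonempty
    · simp [e]
    · simpa [e, FY] using hx
  · by_cases e : (mons S).Nonempty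
    · exact Submodule.mem_sup_right (by simpa [e, FY] using hx)
    · exact Submodule.mem_sup_left (by simpa [e] using hx')
  let b := Module.Basis.extend hd.id_image
  have hb : ∀ k, b k = k.1 := Module.Basis.extend_apply_self _
  have hsub := Module.Basis.subset_extend hd.id_image
  let _ := FiniteDimensional.fintypeBasisIndex b
  have hcard := Module.finrank_eq_card_basis b
  rw [Module.finrank_fin_fun] at hcard
  refine Ex.mono_split b (fun S => (mons S).Nonempty) (fun S => {k | k.1 ∈ H.dir '' cuts S})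
    (fun _ => ∅) (fun S l hl => ?_) fun U hU W => ?_
  · have hS : S ⊆ v := hl.2.1 S List.mem_cons_self
    refine if_congr Iff.rfl rfl ?_
    rw [I0, if_neg fun e => hn (hS e)]
    simp only [Set.mem_empty_iff_false, iSup_false, iSup_bot, sup_bot_eq]
    congr 3
    ext x
    constructor
    · rintro ⟨j, hj, rfl⟩
      exact ⟨⟨_, hsub ⟨j, hS hj, rfl⟩⟩, ⟨j, hj, rfl⟩, hb _⟩
    · rintro ⟨k, hk, rfl⟩
      rwa [hb]
  · let s : Finset (Ix α β) :=
      v.filter fun x => ∃ j, x = some (.inr j) ∧ ∀ k ∈ U, k.1 ≠ H.dir j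
    refine hp_bool s hu W (fun S hS => ⟨?_, fun hs => ?_⟩)
      (h1.imp (fun h1 => ⟨h1.1, fun _ h6 => ?_⟩) fun h1 => ⟨h1.1, by omega⟩)
    · rintro ⟨h2, -, h3⟩ x hx
      refine Finset.mem_filter.2 ⟨hS hx, ?_⟩
      rcases x with _ | a | j
      · exact absurd (hS hx) hn
      · exact absurd ⟨a, hx⟩ h2
      · exact ⟨j, rfl, fun k hk e => Set.disjoint_left.1 h3 ⟨j, hx, e.symm⟩ hk⟩
    · refine ⟨fun ⟨a, ha⟩ => ?_, Set.empty_subset _, Set.disjoint_left.2 ?_⟩
      · obtain ⟨j, hj, -⟩ := (Finset.mem_filter.1 (hs ha)).2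
        simp at hj
      · rintro k ⟨j, hj, e⟩ hk
        obtain ⟨j', hj', h3⟩ := (Finset.mem_filter.1 (hs hj)).2
        obtain rfl : j = j' := by simpa using hj'
        exact h3 k hk e.symm
    · let w : Ix α β → Fin n → ℚ := fun t => t.elim 0 (Sum.elim 0 H.dir)
      have h3 : s.image w ⊆ (Finset.univ \ U).image Subtype.val := by
        intro x hx
        obtain ⟨t, ht, rfl⟩ := Finset.mem_image.1 hx
        obtain ⟨htv, j, rfl, hj⟩ := Finset.mem_filter.1 ht
        exact Finset.mem_image.2 ⟨⟨_, hsub ⟨j, htv, rfl⟩⟩,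
          Finset.mem_sdiff.2 ⟨Finset.mem_univ _, fun e => hj _ e rfl⟩, rfl⟩
      have h4 : Set.InjOn w s := by
        intro t ht t' ht' e
        obtain ⟨htv, j, rfl, -⟩ := Finset.mem_filter.1 ht
        obtain ⟨htv', j', rfl, -⟩ := Finset.mem_filter.1 ht'
        rw [hd.injOn htv htv' e]
      have h5 := Finset.card_le_card h3
      rw [Finset.card_image_of_injOn h4, Finset.card_image_of_injective _ Subtype.val_injective,
        Finset.card_sdiff_of_subset (Finset.subset_univ _), Finset.card_univ, ← hcard] at h5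
      have h7 := (Finset.card_le_univ U).trans_eq hcard.symm
      omega

end H5T.Hyp
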