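import Pool.Agent.Lib.MP_e9c0f3_ag.HY.HCell

/-! From flags of constraint sets to flags of cells. -/

open scoped Classical

noncomputable section

namespace H5T.Hyp

open HY

variable {n : ℕ} {α β : Type} [Fintype α] [Fintype β] {H : Hyp n α β}
  {K : Finset (Ix α β) → Prop} {X : TropCx n}

theorem htr_bd {V W E : Type} [AddCommGroup E] [Module ℚ E] (f : V → W) (w : List V →₀ E) :
    bd (Finsupp.mapDomain (List.map f) w) = Finsupp.mapDomain (List.map f) (bd w) := by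
  induction w using Finsupp.induction_linear with
  | zero => simp
  | add a b ha hb => simp only [Finsupp.mapDomain_add, map_add, ha, hb]
  | single l x =>
    rw [Finsupp.mapDomain_single, bd_single, bd_single, List.length_map]
    change _ = Finsupp.lmapDomain E ℚ (List.map f) _
    rw [map_sum]
    refine Finset.sum_congr rfl fun i _ => ?_
    rw [map_smul, Finsupp.lmapDomain_apply, Finsupp.mapDomain_single, List.eraseIdx_map]

/-- Evaluation of a pushed chain when the map has a left inverse on the members. -/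
theorem htr_md {V W E : Type} [AddCommGroup E] (f : V → W) (g : W → V) (P : V → Prop)
    (hP : ∀ x, P x → g (f x) = x) {w : List V →₀ E} (hw : ∀ l, w l ≠ 0 → ∀ x ∈ l, P x) :
    (∀ l, (∀ x ∈ l, P x) → Finsupp.mapDomain (List.map f) w (l.map f) = w l) ∧
      ∀ L, Finsupp.mapDomain (List.map f) w L ≠ 0 → ∃ l, w l ≠ 0 ∧ l.map f = L := by
  have hinv : ∀ l : List V, (∀ x ∈ l, P x) → (l.map f).map g = l := fun l hl => by
    rw [List.map_map]
    conv_rhs => rw [← List.map_id l]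
    exact List.map_congr_left fun x hx => hP x (hl x hx)
  refine ⟨fun l hl => ?_, fun L hL => ?_⟩
  · refine Finsupp.mapDomain_apply' {l : List V | ∀ x ∈ l, P x} w
      (fun l hl => hw l (Finsupp.mem_support_iff.1 hl)) (fun a ha b hb e => ?_) hl
    rw [← hinv a ha, ← hinv b hb, e]
  · have h1 := Finsupp.mapDomain_support (Finsupp.mem_support_iff.2 hL)
    obtain ⟨l, hl, e⟩ := Finset.mem_image.1 h1
    exact ⟨l, Finsupp.mem_support_iff.1 hl, e⟩

theorem htr_bdP {V E : Type} [AddCommGroup E] [Module ℚ E] (P : V → Prop) {w : List V →₀ E}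
    (hw : ∀ l, w l ≠ 0 → ∀ x ∈ l, P x) : ∀ l, bd w l ≠ 0 → ∀ x ∈ l, P x := by
  intro l hl x hx
  by_contra hP
  refine hl (sys_zero fun L h1 _ => ?_)
  by_contra h2
  exact hP (hw L h2 x (h1.subset hx))

/-- Strictly decreasing lists of cells. -/
def htrFl (X : TropCx n) (l : List (Set (Pt n))) : Prop :=
  l.Pairwise (· ⊃ ·) ∧ ∀ ρ ∈ l, ρ ∈ X.cells

theorem htr_sub {l L : List (Set (Pt n))} (h : l.Sublist L) (hL : htrFl X L) : htrFl X l :=
  ⟨hL.1.sublist h, fun ρ hρ => hL.2 ρ (h.subset hρ)⟩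

theorem htr_sup (h : Dict H K X) {G : Set (Pt n) → Submodule ℚ (Mv n)}
    {G0 : Finset (Ix α β) → Submodule ℚ (Mv n)} (hG0 : Monotone G0)
    (hG : ∀ σ ∈ X.cells, G σ = G0 (H.ix σ)) {l : List (Set (Pt n))} (hl : l ≠ []) (Q : Prop) :
    (⨆ σ ∈ X.cells, ⨆ _ : X.Flag l σ ∧ Q, G σ) =
      if htrFl X l ∧ Q then hd G0 (l.map H.ix) else ⊥ := by
  obtain ⟨ρ, t, rfl⟩ := List.exists_cons_of_ne_nil hl
  refine le_antisymm (iSup₂_le fun σ hσ => iSup_le fun hf => ?_) ?_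
  · rw [if_pos ⟨⟨hf.1.1, fun x hx => (hf.1.2 x hx).1⟩, hf.2⟩, hG σ hσ]
    exact hG0 (h.ix_anti σ ρ (hf.1.2 ρ List.mem_cons_self).2)
  · split_ifs with hf
    · have hρ := hf.1.2 ρ List.mem_cons_self
      refine le_iSup₂_of_le ρ hρ (le_iSup_of_le ⟨⟨hf.1.1, fun x hx => ⟨hf.1.2 x hx, ?_⟩⟩, hf.2⟩
        (hG ρ hρ).ge)
      rcases List.mem_cons.1 hx with e | e
      · exact e.le
      · exact (List.rel_of_pairwise_cons hf.1.1 e).subset
    · exact bot_le

theorem htr_C (h : Dict H K X) {p q : ℕ} {z : List (Set (Pt n)) →₀ Mv n} :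
    z ∈ X.C X.Flag (X.F p) q ↔ ∀ l, (htrFl X l → l.length = q + 1 → z l ∈ hd (H.FX p) (l.map H.ix))
      ∧ (¬ (htrFl X l ∧ l.length = q + 1) → z l = 0) := by
  rw [TropCx.C, mem_Ch]
  refine forall_congr' fun l => ?_
  by_cases hl : l = []
  · subst hl
    simp
  · rw [htr_sup h (H.FX_mono p) (fun σ hσ => h.F_eq σ hσ p) hl]
    by_cases a : htrFl X l ∧ l.length = q + 1
    · rw [if_pos a]
      exact ⟨fun b => ⟨fun _ _ => b, fun d => absurd a d⟩, fun b => b.1 a.1 a.2⟩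
    · rw [if_neg a, Submodule.mem_bot]
      exact ⟨fun b => ⟨fun d e => absurd ⟨d, e⟩ a, fun _ => b⟩, fun b => b.2 a⟩

theorem htr_Z (h : Dict H K X) {φ : List (Set (Pt n))} {z : List (Set (Pt n)) →₀ Mv n} :
    z ∈ X.Z X.Flag X.I ⊔ Finsupp.supported _ ℚ {l | ¬ φ ⊆ l} ↔ ∀ l, φ ⊆ l → l ≠ [] →
      (htrFl X l → z l ∈ hd H.I0 (l.map H.ix)) ∧ (¬ htrFl X l → z l = 0) := by
  rw [TropCx.Z, supported_eq_Ch, ← Ch_sup, mem_Ch]
  refine forall_congr' fun l => ?_
  by_cases h1 : φ ⊆ l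
  · by_cases hl : l = []
    · simp [hl]
    · have e := htr_sup h H.I0_mono h.I_eq hl True
      simp only [and_true] at e
      rw [if_neg hl, if_neg (not_not.2 h1), sup_bot_eq, e]
      by_cases a : htrFl X l
      · simp [a, h1, hl]
      · simp [a, h1, hl]
  · simp [h1]

theorem htr_cl (h : Dict H K X) {φ l : List (Set (Pt n))} (hl : htrFl X l) (h1 : φ ⊆ l)
    (h2 : l ≠ []) : Cl K (φ.map H.ix) ∅ (l.map H.ix) := by
  refine ⟨List.pairwise_map.2 (hl.1.imp_of_mem fun {a b} ha hb hab => ?_), fun S hS => ?_,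
    List.map_subset _ h1, ?_⟩
  · refine ⟨h.ix_anti a b hab.subset, fun e => hab.2 ?_⟩
    have := h.cx_anti _ _ e
    rwa [h.cx_ix a (hl.2 a ha), h.cx_ix b (hl.2 b hb)] at this
  · obtain ⟨σ, hσ, rfl⟩ := List.mem_map.1 hS
    exact h.ix_K σ (hl.2 σ hσ)
  · obtain ⟨ρ, t, rfl⟩ := List.exists_cons_of_ne_nil h2
    exact ⟨H.ix ρ, List.mem_cons_self, Finset.empty_subset _⟩

theorem htr_fl (h : Dict H K X) {l : List (Set (Pt n))} (h1 : ∀ ρ ∈ l, ρ ∈ X.cells)
    (h2 : (l.map H.ix).Pairwise (· ⊂ ·)) : htrFl X l := by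
  refine ⟨(List.pairwise_map.1 h2).imp_of_mem fun {a b} ha hb hab => ⟨?_, fun e => ?_⟩, h1⟩
  · have := h.cx_anti _ _ hab.subset
    rwa [h.cx_ix a (h1 a ha), h.cx_ix b (h1 b hb)] at this
  · exact hab.2 (h.ix_anti b a e)

omit [Fintype α] [Fintype β] in
theorem htr_nt {p : ℕ} {S : Finset (Ix α β)} {x : Mv n} (hx : x ∈ H.FX p S) (h0 : x ≠ 0) :
    (mons S).Nontrivial := by
  by_contra hn
  refine h0 ((Submodule.mem_bot ℚ).1 ((?_ : H.FX p S ≤ ⊥) hx))
  exact iSup₂_le fun a ha => iSup₂_le fun b hb => iSup_le fun hab => absurd ⟨a, ha, b, hb, hab⟩ hn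

theorem Dict.transfer (h : Dict H K X) {φ : List (Set (Pt n))} (hφ : ∀ σ ∈ φ, σ ∈ X.cells)
    {p q : ℕ} (e : Ex (Cl K (φ.map H.ix) ∅) (H.FX p) H.I0 (q + 1))
    {z : List (Set (Pt n)) →₀ Mv n} (hz : z ∈ X.C X.Flag (X.F p) q)
    (hb : bd z ∈ X.Z X.Flag X.I ⊔ Finsupp.supported _ ℚ {l | ¬ φ ⊆ l}) :
    z ∈ X.B X.Flag p q ⊔ Finsupp.supported _ ℚ {l | ¬ φ ⊆ l} := by
  rw [htr_C h] at hz
  rw [htr_Z h] at hb
  obtain ⟨z1, hz1⟩ : ∃ z1, z1 = z.filter fun l => φ ⊆ l := ⟨_, rfl⟩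
  have a1 : ∀ l, φ ⊆ l → z1 l = z l := fun l hl => by rw [hz1, Finsupp.filter_apply, if_pos hl]
  have a2 : ∀ l, z1 l ≠ 0 → φ ⊆ l ∧ htrFl X l ∧ l.length = q + 1 := fun l hl => by
    have h1 : φ ⊆ l := by
      by_contra h1
      exact hl (by rw [hz1, Finsupp.filter_apply, if_neg h1])
    refine ⟨h1, ?_⟩
    by_contra h2
    exact hl ((a1 l h1).trans ((hz l).2 h2))
  have a3 : ∀ l, φ ⊆ l → bd z1 l = bd z l := fun l hl => by
    have k : bd (z1 - z) l = 0 := sys_zero fun L h1 _ => by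
      rw [Finsupp.sub_apply, a1 L (List.Subset.trans hl h1.subset), sub_self]
    rwa [map_sub, Finsupp.sub_apply, sub_eq_zero] at k
  have a4 : ∀ l, z1 l ≠ 0 → ∀ x ∈ l, x ∈ X.cells := fun l hl => (a2 l hl).2.1.2
  obtain ⟨b1, b2⟩ := htr_md H.ix H.cx (· ∈ X.cells) h.cx_ix a4
  obtain ⟨b3, b4⟩ := htr_md H.ix H.cx (· ∈ X.cells) h.cx_ix (htr_bdP _ a4)
  have c0 : ∀ L, Finsupp.mapDomain (List.map H.ix) z1 L ≠ 0 →
      (Cl K (φ.map H.ix) ∅ L ∧ L.length = q + 1) ∧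
        Finsupp.mapDomain (List.map H.ix) z1 L ∈ hd (H.FX p) L := fun L hL => by
    obtain ⟨l, hl, rfl⟩ := b2 L hL
    obtain ⟨h1, h2, h3⟩ := a2 l hl
    refine ⟨⟨htr_cl h h2 h1 (fun e => by rw [e] at h3; simp at h3), by rw [List.length_map, h3]⟩, ?_⟩
    rw [b1 l h2.2, a1 l h1]
    exact (hz l).1 h2 h3
  obtain ⟨y', hy', hn⟩ := sys_Ex.1 e (Finsupp.mapDomain (List.map H.ix) z1)
    (sys_CC.2 fun L => ⟨fun _ _ => by
        by_cases h0 : Finsupp.mapDomain (List.map H.ix) z1 L = 0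
        · rw [h0]; exact zero_mem _
        · exact (c0 L h0).2,
      fun a => by
        by_contra h0
        exact a (c0 L h0).1⟩)
    (sys_NN.2 fun L a => by
      rw [htr_bd]
      by_cases h0 : Finsupp.mapDomain (List.map H.ix) (bd z1) L = 0
      · rw [h0]; exact zero_mem _
      · obtain ⟨l, hl, rfl⟩ := b4 L h0
        have h1 := htr_bdP _ a4 l hl
        have h2 : φ ⊆ l := fun σ hσ => by
          obtain ⟨ρ, hρ, e⟩ := List.mem_map.1 (a.2.2.1 (List.mem_map_of_mem hσ))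
          have := congrArg H.cx e
          rw [h.cx_ix ρ (h1 ρ hρ), h.cx_ix σ (hφ σ hσ)] at this
          exact this ▸ hρ
        have h3 : l ≠ [] := fun e => by
          subst e
          exact (cv_Cl K _ _).ne a
        rw [b3 l h1, a3 l h2]
        exact (hb l h2 h3).1 (htr_fl h h1 a.1))
  have d0 : ∀ L, y' L ≠ 0 → Cl K (φ.map H.ix) ∅ L ∧ L.length = q + 1 + 1 := fun L hL => by
    by_contra h0
    exact hL ((sys_CC.1 hy' L).2 h0)
  have d1 : ∀ L, y' L ≠ 0 → ∀ S ∈ L, H.cx S ∈ X.cells ∧ H.ix (H.cx S) = S := fun L hL S hS => by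
    obtain ⟨h1, -⟩ := d0 L hL
    refine h.cx_mem S (h1.2.1 S hS) ?_
    cases L with
    | nil => simp at hS
    | cons S0 t =>
      have h2 : (mons S0).Nontrivial := htr_nt (sys_mem hy' (S0 :: t)) hL
      rcases List.mem_cons.1 hS with e | e
      · exact e ▸ h2
      · exact h2.mono fun a ha => (List.rel_of_pairwise_cons h1.1 e).subset ha
  obtain ⟨f1, f2⟩ := htr_md H.cx H.ix (fun S => H.cx S ∈ X.cells ∧ H.ix (H.cx S) = S)
    (fun _ a => a.2) d1
  obtain ⟨f3, -⟩ := htr_md H.cx H.ix (fun S => H.cx S ∈ X.cells ∧ H.ix (H.cx S) = S)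
    (fun _ a => a.2) (htr_bdP _ d1)
  have g0 : ∀ l, Finsupp.mapDomain (List.map H.cx) y' l ≠ 0 →
      (htrFl X l ∧ l.length = q + 1 + 1) ∧
        Finsupp.mapDomain (List.map H.cx) y' l ∈ hd (H.FX p) (l.map H.ix) := fun l hl => by
    obtain ⟨L, hL, rfl⟩ := f2 l hl
    have h1 : (L.map H.cx).map H.ix = L := by
      rw [List.map_map]
      conv_rhs => rw [← List.map_id L]
      exact List.map_congr_left fun x hx => (d1 L hL x hx).2
    refine ⟨⟨htr_fl h (fun ρ hρ => ?_) (by rw [h1]; exact (d0 L hL).1.1),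
      by rw [List.length_map, (d0 L hL).2]⟩, ?_⟩
    · obtain ⟨S, hS, rfl⟩ := List.mem_map.1 hρ
      exact (d1 L hL S hS).1
    · rw [h1, f1 L (d1 L hL)]
      exact sys_mem hy' L
  have hy : Finsupp.mapDomain (List.map H.cx) y' ∈ X.C X.Flag (X.F p) (q + 1) :=
    (htr_C h).2 fun l => ⟨fun _ _ => by
        by_cases h0 : Finsupp.mapDomain (List.map H.cx) y' l = 0
        · rw [h0]; exact zero_mem _
        · exact (g0 l h0).2,
      fun a => by
        by_contra h0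
        exact a (g0 l h0).1⟩
  have hr : z - bd (Finsupp.mapDomain (List.map H.cx) y') ∈
      X.Z X.Flag X.I ⊔ Finsupp.supported _ ℚ {l | ¬ φ ⊆ l} :=
    (htr_Z h).2 fun l h1 h2 => ⟨fun h3 => by
        have h4 := sys_NN.1 hn _ (htr_cl h h3 h1 h2)
        have h5 : (l.map H.ix).map H.cx = l := by
          rw [List.map_map]
          conv_rhs => rw [← List.map_id l]
          exact List.map_congr_left fun x hx => h.cx_ix x (h3.2 x hx)
        have h6 := f3 (l.map H.ix) fun S hS => by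
          obtain ⟨σ, hσ, rfl⟩ := List.mem_map.1 hS
          rw [h.cx_ix σ (h3.2 σ hσ)]
          exact ⟨h3.2 σ hσ, rfl⟩
        rw [h5] at h6
        rw [Finsupp.sub_apply, b1 l h3.2, a1 l h1] at h4
        rw [Finsupp.sub_apply, htr_bd, h6]
        exact h4,
      fun h3 => by
        rw [Finsupp.sub_apply, (hz l).2 fun a => h3 a.1, zero_sub, neg_eq_zero]
        refine sys_zero fun L a _ => ?_
        by_contra h0
        exact h3 (htr_sub a (g0 L h0).1.1)⟩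
  rw [TropCx.B, sup_assoc]
  exact Submodule.mem_sup.2 ⟨_, ⟨_, hy, rfl⟩, _, hr, by abel⟩

end H5T.Hyp
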