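import Pool.Agent.Lib.MP_e9c0f3_ag.HY.HGeo
import Pool.Agent.Lib.MP_e9c0f3_ag.HY.HAlg
import Pool.Agent.Lib.MP_e9c0f3_ag.HY.HPieces
import Pool.Agent.Lib.MP_e9c0f3_ag.HY.HTrans

/-! Local and global vanishing of tropical homology of simple tropical hypersurfaces. -/

open scoped Classical

noncomputable section

namespace H5T

open HY

variable {n : ℕ} {X : TropCx n}

theorem hm_flag {G : Set (Pt n) → Submodule ℚ (Mv n)} {q : ℕ} {z : List (Set (Pt n)) →₀ Mv n}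
    (hz : z ∈ X.C X.Flag G q) {l : List (Set (Pt n))} (hl : z l ≠ 0) :
    ∃ σ ∈ X.cells, X.Flag l σ := by
  by_contra hc
  have h1 := mem_Ch.1 hz l
  apply hl
  rw [← Submodule.mem_bot ℚ]
  refine (iSup₂_le fun σ hσ => iSup_le fun h => ?_ : _ ≤ (⊥ : Submodule ℚ (Mv n))) h1
  exact absurd ⟨σ, hσ, h.1⟩ hc

theorem hm_empty {α β : Type} [IsEmpty α] {H : Hyp n α β} (hX : H.Is X)
    {G : Set (Pt n) → Submodule ℚ (Mv n)} {q : ℕ} {z : List (Set (Pt n)) →₀ Mv n}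
    (hz : z ∈ X.C X.Flag G q) : z = 0 := by
  ext1 l
  by_contra hl
  obtain ⟨σ, hσ, -⟩ := hm_flag hz hl
  obtain ⟨-, τ, J, hτ, -⟩ := (hX.1 σ).1 hσ
  rw [Finset.eq_empty_of_isEmpty τ] at hτ
  simp at hτ

theorem hm_K {α β : Type} {K : Finset (Ix α β) → Prop} {φ : List (Finset (Ix α β))} (S l)
    (h : Cl K φ ∅ (S :: l)) : K S := h.2.1 S List.mem_cons_self

theorem TropCx.IsHypG.locVan (h : X.IsHypG) : X.LocVan := by
  obtain ⟨α, β, _, _, H, hH, hX⟩ := h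
  intro φ hφ p q hqp z hz hb
  rcases isEmpty_or_nonempty α with ha | ha
  · rw [hm_empty hX hz]
    exact Submodule.zero_mem _
  obtain ⟨K, vx, up, rk, hF⟩ := hH.exists_fm
  have hD := hF.dict hX
  by_cases hl : ∃ l, φ ⊆ l ∧ ∃ σ ∈ X.cells, X.Flag l σ
  swap
  · refine Submodule.mem_sup_right ((Finsupp.mem_supported ℚ z).2 fun l hl' hφl => hl ?_)
    exact ⟨l, hφl, hm_flag hz (Finsupp.mem_support_iff.1 hl')⟩
  obtain ⟨l, hφl, σ, hσ, -, hl⟩ := hl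
  refine hD.transfer (fun ρ hρ => (hl ρ (hφl hρ)).1) ?_ hz hb
  by_cases hn : n ≤ p
  · refine Ex.of_le fun S l' hc _ => ?_
    rw [hD.FX_bot S (hm_K S l' hc) p hn]
    exact bot_le
  have h0 : ∀ S ∈ φ.map H.ix, none ∉ S := by
    intro S hS
    obtain ⟨ρ, -, rfl⟩ := List.mem_map.1 hS
    exact hD.ix_top ρ
  have h1 : φ.map H.ix = [] ∨ ∃ a, ∀ S ∈ φ.map H.ix, a ∈ mons S := by
    obtain ⟨a, ha⟩ := (hD.ix_mon σ hσ).nonempty
    refine Or.inr ⟨a, fun S hS => ?_⟩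
    obtain ⟨ρ, hρ, rfl⟩ := List.mem_map.1 hS
    exact hD.ix_anti σ ρ (hl ρ (hφl hρ)).2 ha
  have h2 : φ.map H.ix ≠ [] := by simpa using hφ
  exact hF.ex_FX (cv_Cl _ _ _) hm_K (hF.ex_Fh h0 (Or.inr ⟨h2, by omega⟩)) (hF.ex_Ih h0 h1 _)
    (hF.ex_FY h0 (Or.inr ⟨h2, by omega⟩)) (hF.ex_I0 h0 h1 _)

/-- Tropical Lefschetz vanishing above the middle dimension. -/
theorem TropCx.IsHypG.van (h : X.IsHypG) {p q : ℕ} (h1 : n ≤ p + q) (h2 : q < p) :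
    X.Cyc p q ≤ X.B X.Flag p q := by
  obtain ⟨α, β, _, _, H, hH, hX⟩ := h
  intro z hz
  rcases isEmpty_or_nonempty α with ha | ha
  · rw [hm_empty hX hz.1]
    exact Submodule.zero_mem _
  obtain ⟨K, vx, up, rk, hF⟩ := hH.exists_fm
  have hD := hF.dict hX
  have h0 : ∀ S ∈ ([] : List (Finset (Ix α β))), none ∉ S := by simp
  have e := hD.transfer (φ := []) (p := p) (q := q) (by simp)
    (hF.ex_FX (cv_Cl _ _ _) hm_K (hF.ex_Fh h0 (Or.inl ⟨rfl, by omega⟩))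
      (hF.ex_Ih h0 (Or.inl rfl) _) (hF.ex_FY h0 (Or.inl ⟨rfl, by omega⟩))
      (hF.ex_I0 h0 (Or.inl rfl) _)) hz.1 (Submodule.mem_sup_left hz.2)
  simpa using e

end H5T
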