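import Pool.Agent.Lib.MP_e9c0f3_ag.HY.HDefs

/-! The tight covectors at a point of the truncating polytope are independent. -/

open Matrix
open scoped Classical

noncomputable section

namespace H5T.Hyp

variable {n : ℕ} {α ι : Type} (H : Hyp n α ι)

/-- Homogenised covectors of monomials and facets. -/
def cov : α ⊕ ι → Fin (n + 1) → ℚ
  | .inl a => Fin.cons 1 (-H.ex a)
  | .inr j => Fin.cons 0 (-H.nm j)

variable {H}

theorem cons_dot (a b : ℚ) (u v : Fin n → ℚ) :
    (Fin.cons a u : Fin (n + 1) → ℚ) ⬝ᵥ Fin.cons b v = a * b + u ⬝ᵥ v := by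
  simp [dotProduct, Fin.sum_univ_succ]

theorem Good.top_dot [Fintype ι] (h : H.Good) {x : Pt n} (hx : x ∈ H.box) {μ : ι → ℚ}
    (hμ : ∀ i, ¬ H.On i x → μ i = 0) {a b : α} (ha : H.Top a x) (hb : H.Top b x) :
    H.ex a ⬝ᵥ ∑ i, μ i • H.dir i = H.ex b ⬝ᵥ ∑ i, μ i • H.dir i := by
  simp only [dotProduct_sum, dotProduct_smul]
  refine Finset.sum_congr rfl fun i _ => ?_
  by_cases hi : H.On i x
  · rw [le_antisymm (h.face x hx i b hi hb a) (h.face x hx i a hi ha b)]
  · simp [hμ i hi]

theorem Good.simple [Fintype ι] (h : H.Good) : ∀ x ∈ H.box,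
    LinearIndepOn ℚ H.cov {s | Sum.elim (H.Top · x) (H.On · x) s} := by
  intro x hx
  rw [LinearIndepOn, linearIndependent_iff']
  intro t g hg
  have hr : ∀ s ∈ t, ∀ j, s.1 = .inr j → g s = 0 := by
    intro s hs j hj
    have hOn : H.On j x := by have := s.2; rw [hj] at this; exact this
    obtain ⟨μ, -, h1, h2, h3⟩ := h.cut x hx j hOn
    obtain ⟨c, hc⟩ : ∃ c, ∀ a, H.Top a x → H.ex a ⬝ᵥ ∑ i, μ i • H.dir i = c := by
      by_cases he : ∃ a, H.Top a x
      · obtain ⟨b, hb⟩ := he
        exact ⟨_, fun a ha => h.top_dot hx h1 ha hb⟩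
      · exact ⟨0, fun a ha => absurd ⟨a, ha⟩ he⟩
    have e := congrArg (· ⬝ᵥ (Fin.cons c (∑ i, μ i • H.dir i) : Fin (n + 1) → ℚ)) hg
    simp only [sum_dotProduct, smul_dotProduct, zero_dotProduct] at e
    rw [Finset.sum_eq_single_of_mem s hs] at e
    · rw [hj] at e
      simp only [cov, cons_dot, neg_dotProduct, h2] at e
      simpa using e
    · rintro ⟨a | l, hl⟩ - hne
      · simp only [cov, cons_dot, neg_dotProduct, hc a hl]
        simp
      · have : l ≠ j := fun e => hne (Subtype.ext ((congrArg Sum.inr e).trans hj.symm))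
        simp only [cov, cons_dot, neg_dotProduct, h3 l hl this]
        simp
  let f : {a // H.Top a x} → {s | Sum.elim (H.Top · x) (H.On · x) s} := fun a => ⟨.inl a.1, a.2⟩
  have hf : Function.Injective f := fun a b e => Subtype.ext (Sum.inl.inj (congrArg Subtype.val e))
  have e : ∑ a ∈ t.preimage f hf.injOn, g (f a) • H.cov (f a) = 0 := by
    rw [Finset.sum_preimage f t hf.injOn (fun s => g s • H.cov s), hg]
    rintro ⟨a | l, hl⟩ hs hn
    · exact absurd ⟨⟨a, hl⟩, rfl⟩ hn
    · rw [hr _ hs l rfl, zero_smul]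
  have key := affineIndependent_iff.1 (h.tri x hx) (t.preimage f hf.injOn) (fun a => g (f a))
    (by simpa [f, cov, Finset.sum_apply] using congrFun e 0)
    (by
      ext i
      simpa [f, cov, Finset.sum_apply] using congrFun e i.succ)
  rintro ⟨a | l, hl⟩ hs
  · exact key ⟨a, hl⟩ (Finset.mem_preimage.2 hs)
  · exact hr _ hs l rfl

end H5T.Hyp
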