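import Pool.Agent.Lib.MP_e9c0f3_ag.H5T.Defs

/-! Simple tropical hypersurfaces. -/

open Matrix

noncomputable section

namespace H5T

/-- A tropical polynomial `max (ex a · x + co a)`, a truncating polytope `nm j · x ≤ lev j`, and
the direction `dir j` to infinity through each of its facets. -/
structure Hyp (n : ℕ) (α ι : Type) where
  ex : α → Fin n → ℚ
  co : α → ℝ
  nm : ι → Fin n → ℚ
  lev : ι → ℝ
  dir : ι → Fin n → ℚ

namespace Hyp

variable {n : ℕ} {α ι : Type} (H : Hyp n α ι)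

/-- The truncating polytope. -/
def box : Set (Pt n) := {x | ∀ j, rv (H.nm j) ⬝ᵥ x ≤ H.lev j}

/-- The monomial `a` attains the maximum at `x`. -/
def Top (a : α) (x : Pt n) : Prop := ∀ b, rv (H.ex b) ⬝ᵥ x + H.co b ≤ rv (H.ex a) ⬝ᵥ x + H.co a

/-- `x` lies on the facet `j`. -/
def On (j : ι) (x : Pt n) : Prop := rv (H.nm j) ⬝ᵥ x = H.lev j

/-- The cell where the monomials in `τ` are maximal, on the facets in `J`. -/
def cell (τ : Finset α) (J : Finset ι) : Set (Pt n) :=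
  {x ∈ H.box | (∀ a ∈ τ, H.Top a x) ∧ ∀ j ∈ J, H.On j x}

/-- The dual subdivision is a triangulation, and the truncation is transversal and far out. -/
structure Good [Fintype ι] : Prop where
  bdd : Bornology.IsBounded H.box
  tri : ∀ x ∈ H.box, AffineIndependent ℚ fun a : {a // H.Top a x} => H.ex a
  face : ∀ x ∈ H.box, ∀ j a, H.On j x → H.Top a x → ∀ b, H.ex b ⬝ᵥ H.dir j ≤ H.ex a ⬝ᵥ H.dir j
  inner : ∃ o : Fin n → ℚ, ∀ j, ∃ a, o ⬝ᵥ H.dir j < H.ex a ⬝ᵥ H.dir j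
  cut : ∀ x ∈ H.box, ∀ j, H.On j x → ∃ μ : ι → ℚ, (∀ i, 0 ≤ μ i) ∧ (∀ i, ¬ H.On i x → μ i = 0) ∧
    H.nm j ⬝ᵥ ∑ i, μ i • H.dir i = 1 ∧ ∀ l, H.On l x → l ≠ j → H.nm l ⬝ᵥ ∑ i, μ i • H.dir i = 0

/-- `X` is the truncated corner locus of `H`. -/
def Is (X : TropCx n) : Prop :=
  (∀ σ, σ ∈ X.cells ↔ σ.Nonempty ∧ ∃ τ J, 2 ≤ τ.card ∧ σ = H.cell τ J) ∧
    ∀ σ ∈ X.cells, (X.ray σ : Set (Fin n → ℚ)) = H.dir '' {j | ∀ x ∈ σ, H.On j x}

end Hyp

/-- `X` is a simple tropical hypersurface. -/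
def TropCx.IsHypG {n : ℕ} (X : TropCx n) : Prop :=
  ∃ (α ι : Type) (_ : Fintype α) (_ : Fintype ι) (H : Hyp n α ι), H.Good ∧ H.Is X

end H5T
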