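import Pool.Agent.Lib.MP_e9c0f3_ag.HY.HDefs
import Pool.Agent.Lib.MP_e9c0f3_ag.H5T.Geo

/-! Simple tropical hypersurfaces of tropical projective space. -/

open Matrix Filter
open scoped Classical

noncomputable section

namespace H5T.Hyp

variable {n : ℕ} {α : Type}

/-- The rays of the fan of projective space. -/
def sdir (n : ℕ) : Option (Fin n) → Fin n → ℚ
  | none => 1
  | some i => -Pi.single i 1

/-- A tropical polynomial, truncated by the simplex `-L ≤ x i`, `∑ x i ≤ L`. -/
def proj (ex : α → Fin n → ℚ) (co : α → ℝ) (L : ℝ) : Hyp n α (Option (Fin n)) :=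
  ⟨ex, co, sdir n, fun _ => L, sdir n⟩

theorem pj_none (x : Pt n) : rv (sdir n none) ⬝ᵥ x = ∑ i, x i := by
  simp [sdir, dotProduct, G33.rv_apply]

theorem pj_some (i : Fin n) (x : Pt n) : rv (sdir n (some i)) ⬝ᵥ x = -x i := by
  simp [sdir, dotProduct, G33.rv_apply, Pi.single_apply, apply_ite]

theorem pj_dot_none (v : Fin n → ℚ) : v ⬝ᵥ sdir n none = ∑ i, v i := by
  simp [sdir, dotProduct]

theorem pj_dot_some (i : Fin n) (v : Fin n → ℚ) : v ⬝ᵥ sdir n (some i) = -v i := by
  simp [sdir]

theorem pj_sum (μ : Option (Fin n) → ℚ) (k : Fin n) :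
    (∑ o, μ o • sdir n o) k = μ none - μ (some k) := by
  simp [Fintype.sum_option, sdir, Finset.sum_apply, Pi.single_apply, sub_eq_add_neg]

theorem pj_bdd (ex : α → Fin n → ℚ) (co : α → ℝ) (L : ℝ) :
    Bornology.IsBounded (proj ex co L).box := by
  refine (Metric.isBounded_Icc (fun _ => -L : Pt n) (fun _ => n * L)).subset fun x hx => ?_
  have h1 : ∀ i, -L ≤ x i := fun i => by
    have := hx (some i)
    simp only [proj, pj_some] at this
    linarith
  have h2 : ∑ i, x i ≤ L := by simpa only [proj, pj_none] using hx none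
  refine ⟨h1, fun i => ?_⟩
  have h3 := Finset.single_le_sum (f := fun i => x i + L) (s := Finset.univ)
    (fun j _ => by linarith [h1 j]) (Finset.mem_univ i)
  simp only [Finset.sum_add_distrib, Finset.sum_const, Finset.card_univ, Fintype.card_fin,
    nsmul_eq_mul] at h3
  change x i ≤ n * L
  linarith

theorem pj_cut (ex : α → Fin n → ℚ) (co : α → ℝ) {L : ℝ} (hL : 0 < L) (x : Pt n)
    (j : Option (Fin n)) (hj : (proj ex co L).On j x) : ∃ μ : Option (Fin n) → ℚ,
    (∀ i, 0 ≤ μ i) ∧ (∀ i, ¬ (proj ex co L).On i x → μ i = 0) ∧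
    sdir n j ⬝ᵥ ∑ i, μ i • sdir n i = 1 ∧
    ∀ l, (proj ex co L).On l x → l ≠ j → sdir n l ⬝ᵥ ∑ i, μ i • sdir n i = 0 := by
  obtain ⟨ν, h0, h1, h2, h3⟩ : ∃ ν : Option (Fin n) → ℚ, (∀ i, 0 ≤ ν i) ∧
      (∀ i, ¬ (proj ex co L).On i x → ν i = 0) ∧
      ((proj ex co L).On none x → ∑ k, (ν none - ν (some k)) = 1) ∧
      ∀ k, (proj ex co L).On (some k) x → ν (some k) = ν none := by
    by_cases hn : (proj ex co L).On none x
    swap
    · exact ⟨0, fun _ => le_rfl, fun _ _ => rfl, fun h => absurd h hn, fun _ _ => rfl⟩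
    let T := Finset.univ.filter fun k => ¬ (proj ex co L).On (some k) x
    have hT : 0 < T.card := by
      rw [Finset.card_pos]
      by_contra hc
      have e : ∀ k, x k = -L := fun k => by
        have : (proj ex co L).On (some k) x := by
          by_contra h
          exact hc ⟨k, Finset.mem_filter.2 ⟨Finset.mem_univ _, h⟩⟩
        simp only [On, proj, pj_some] at this
        linarith
      simp only [On, proj, pj_none, e, Finset.sum_const, Finset.card_univ, Fintype.card_fin,
        nsmul_eq_mul] at hn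
      nlinarith [Nat.cast_nonneg (α := ℝ) n]
    have hT' : (0 : ℚ) < T.card := by exact_mod_cast hT
    refine ⟨fun i => if (proj ex co L).On i x then (T.card : ℚ)⁻¹ else 0, fun i => ?_,
      fun i hi => if_neg hi, fun _ => ?_, fun k hk => (if_pos hk).trans (if_pos hn).symm⟩
    · positivity
    · have : ∀ k, ((if (proj ex co L).On none x then (T.card : ℚ)⁻¹ else 0) -
          if (proj ex co L).On (some k) x then (T.card : ℚ)⁻¹ else 0) =
          if ¬ (proj ex co L).On (some k) x then (T.card : ℚ)⁻¹ else 0 := fun k => by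
        rw [if_pos hn]
        by_cases h : (proj ex co L).On (some k) x <;> simp [h]
      simp only [this]
      rw [← Finset.sum_filter, Finset.sum_const, nsmul_eq_mul]
      exact mul_inv_cancel₀ hT'.ne'
  have e0 : ∀ μ : Option (Fin n) → ℚ, sdir n none ⬝ᵥ ∑ i, μ i • sdir n i =
      ∑ k, (μ none - μ (some k)) := fun μ => by
    rw [dotProduct_comm, pj_dot_none]
    simp only [pj_sum]
  have e1 : ∀ (μ : Option (Fin n) → ℚ) k, sdir n (some k) ⬝ᵥ ∑ i, μ i • sdir n i =
      μ (some k) - μ none := fun μ k => by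
    rw [dotProduct_comm, pj_dot_some, pj_sum, neg_sub]
  rcases j with _ | j
  · refine ⟨ν, h0, h1, by rw [e0, h2 hj], ?_⟩
    rintro (_ | l) hl hne
    · exact absurd rfl hne
    · rw [e1, h3 l hl, sub_self]
  · refine ⟨ν + Pi.single (some j) 1, fun i => add_nonneg (h0 i) ?_, fun i hi => ?_, ?_, ?_⟩
    · rw [Pi.single_apply]
      split_ifs <;> norm_num
    · have : i ≠ some j := fun e => hi (e ▸ hj)
      simp [h1 i hi, this]
    · rw [e1]
      simp [h3 j hj]
    · rintro (_ | l) hl hne
      · rw [e0]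
        have := h2 hl
        simp only [Finset.sum_sub_distrib] at this
        simp only [Pi.add_apply, Finset.sum_sub_distrib, Finset.sum_add_distrib]
        simp [Pi.single_apply] at this ⊢
        linarith
      · rw [e1]
        simp [h3 l hl, hne]

/-- A tropical polynomial whose Newton polytope is the simplex of size `δ` and whose dual
subdivision is a triangulation is good, once the truncation is far out. -/
theorem good_proj [Fintype α] (hn : 0 < n) {δ : ℚ} (hδ : 0 < δ) (ex : α → Fin n → ℚ) (co : α → ℝ)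
    (h0 : ∀ a i, 0 ≤ ex a i) (h1 : ∀ a, ∑ i, ex a i ≤ δ) (v0 : ∃ a, ex a = 0)
    (v1 : ∀ i, ∃ a, ex a = Pi.single i δ)
    (ht : ∀ x, AffineIndependent ℚ fun a : {a // (proj ex co 0).Top a x} => ex a) :
    ∀ᶠ L in atTop, (proj ex co L).Good := by
  have hn' : (0 : ℝ) < n := by exact_mod_cast hn
  have big : ∀ c e : ℝ, ∀ᶠ L in atTop, 0 < e → c < e * L := fun c e => by
    by_cases he : 0 < e
    · exact ((tendsto_id.const_mul_atTop he).eventually_gt_atTop c).mono fun _ h _ => h
    · exact Eventually.of_forall fun _ h => absurd h he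
  have E1 : ∀ᶠ L : ℝ in atTop, ∀ a b i, (0 : ℝ) < ex a i → co a - co b < ex a i * L := by
    simp only [eventually_all, big, implies_true]
  have E2 : ∀ᶠ L : ℝ in atTop, ∀ a b, (0 : ℝ) < (δ - ∑ i, (ex a i : ℝ)) / n →
      co a - co b < (δ - ∑ i, (ex a i : ℝ)) / n * L := by
    simp only [eventually_all, big, implies_true]
  filter_upwards [E1, E2, eventually_gt_atTop 0] with L e1 e2 hL
  refine ⟨pj_bdd ex co L, fun x _ => ht x, ?_, ?_, fun x _ j hj => pj_cut ex co hL x j hj⟩
  · intro x _ j a hj ha b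
    obtain ⟨m, hm0, hm, c, hc⟩ : ∃ m : ℝ, 0 ≤ m ∧ (∀ i, x i ≤ m) ∧
        ∃ c, rv (ex c) ⬝ᵥ x = δ * m := by
      have : Nonempty (Fin n) := ⟨⟨0, hn⟩⟩
      obtain ⟨i, hi⟩ := Finite.exists_max x
      rcases le_total 0 (x i) with h | h
      · obtain ⟨c, hc⟩ := v1 i
        refine ⟨x i, h, hi, c, ?_⟩
        simp [hc, dotProduct, G33.rv_apply, Pi.single_apply, apply_ite]
      · obtain ⟨c, hc⟩ := v0
        exact ⟨0, le_rfl, fun k => (hi k).trans h, c, by simp [hc]⟩
    have h0' : ∀ i, (0 : ℝ) ≤ ex a i := fun i => by exact_mod_cast h0 a i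
    have h1' : ∑ i, (ex a i : ℝ) ≤ δ := by exact_mod_cast h1 a
    have ht := ha c
    simp only [proj] at ht
    rw [hc] at ht
    have hd : rv (ex a) ⬝ᵥ x = (∑ i, (ex a i : ℝ)) * m - ∑ i, (ex a i : ℝ) * (m - x i) := by
      simp only [dotProduct, G33.rv_apply, Finset.sum_mul, ← Finset.sum_sub_distrib]
      exact Finset.sum_congr rfl fun i _ => by ring
    have hp : ∀ i ∈ Finset.univ, 0 ≤ (ex a i : ℝ) * (m - x i) := fun i _ =>
      mul_nonneg (h0' i) (sub_nonneg.2 (hm i))
    rcases j with _ | j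
    · change ex b ⬝ᵥ sdir n none ≤ ex a ⬝ᵥ sdir n none
      rw [pj_dot_none, pj_dot_none]
      refine (h1 b).trans (le_of_not_gt fun hlt => ?_)
      have hlt' : (0 : ℝ) < δ - ∑ i, (ex a i : ℝ) := by
        rw [sub_pos]
        exact_mod_cast hlt
      have e := e2 a c (div_pos hlt' hn')
      have hs : L ≤ n * m := by
        simp only [On, proj, pj_none] at hj
        have := Finset.sum_le_sum (s := Finset.univ) fun i _ => hm i
        simpa [hj] using this
      have h5 : (δ - ∑ i, (ex a i : ℝ)) / n * L ≤ (δ - ∑ i, (ex a i : ℝ)) * m := by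
        rw [div_mul_eq_mul_div, div_le_iff₀ hn']
        nlinarith
      nlinarith [Finset.sum_nonneg hp]
    · change ex b ⬝ᵥ sdir n (some j) ≤ ex a ⬝ᵥ sdir n (some j)
      rw [pj_dot_some, pj_dot_some]
      refine (neg_nonpos.2 (h0 b j)).trans (neg_nonneg.2 (le_of_not_gt fun hlt => ?_))
      have hlt' : (0 : ℝ) < ex a j := by exact_mod_cast hlt
      have e := e1 a c j hlt'
      simp only [On, proj, pj_some] at hj
      have h5 := Finset.single_le_sum hp (Finset.mem_univ j)
      have h6 : x j = -L := by linarith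
      rw [h6] at h5
      nlinarith [mul_nonneg (sub_nonneg.2 h1') hm0, mul_nonneg hlt'.le hm0]
  · refine ⟨fun _ => δ / (n + 1), ?_⟩
    have hq : (0 : ℚ) < n + 1 := by positivity
    rintro (_ | j)
    · obtain ⟨a, ha⟩ := v1 ⟨0, hn⟩
      refine ⟨a, ?_⟩
      change _ ⬝ᵥ sdir n none < ex a ⬝ᵥ sdir n none
      rw [pj_dot_none, pj_dot_none, ha]
      simp only [Finset.sum_const, Finset.card_univ, Fintype.card_fin, nsmul_eq_mul,
        Finset.sum_pi_single', Finset.mem_univ, if_true]
      rw [← mul_div_assoc, div_lt_iff₀ hq]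
      nlinarith
    · obtain ⟨a, ha⟩ := v0
      refine ⟨a, ?_⟩
      change _ ⬝ᵥ sdir n (some j) < ex a ⬝ᵥ sdir n (some j)
      rw [pj_dot_some, pj_dot_some, ha]
      simpa using div_pos hδ hq

/-- Coefficients that are independent over the rationals give a triangulation. -/
theorem tri_of_indep {ι : Type} (H : Hyp n α ι) (h : LinearIndependent ℚ H.co) (x : Pt n) :
    AffineIndependent ℚ fun a : {a // H.Top a x} => H.ex a := by
  rw [affineIndependent_iff]
  intro s w h0 h1
  refine linearIndependent_iff'.1 (h.comp _ Subtype.val_injective) s w ?_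
  rcases s.eq_empty_or_nonempty with rfl | ⟨b, -⟩
  · simp
  have e : ∀ a : {a // H.Top a x}, H.co a = (rv (H.ex b) ⬝ᵥ x + H.co b) - rv (H.ex a) ⬝ᵥ x :=
    fun a => by linarith [a.2 b.1, b.2 a.1]
  have e1 := congrArg (fun v => rv v ⬝ᵥ x) h1
  simp only [map_sum, map_smul, sum_dotProduct, smul_dotProduct, map_zero, zero_dotProduct] at e1
  refine (Finset.sum_congr rfl fun a _ => congrArg (w a • ·) (e a)).trans ?_
  simp only [smul_sub, Finset.sum_sub_distrib, e1, ← Finset.sum_smul, h0]
  simp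

end H5T.Hyp
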