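import Pool.Agent.Lib.MP_e9c0f3_ag.HY.HEx
import Pool.Agent.Lib.MP_e9c0f3_ag.HY.HProj

/-! Good data define a complex; every triangulated tropical hypersurface of projective space is
an example. -/

open scoped Classical

noncomputable section

namespace H5T.Hyp

variable {n : ℕ} {α ι : Type} [Fintype α] [Fintype ι] {H : Hyp n α ι}

theorem Good.exists_cx (h : H.Good) : ∃ X : TropCx n, H.Is X := by
  choose! pt hpt using cells_pt (H := H)
  have hr : ∀ σ, (((Finset.univ.filter (· ∈ H.fac σ)).image H.dir : Finset (Fin n → ℚ)) :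
      Set (Fin n → ℚ)) = H.dir '' H.fac σ := fun σ => by
    rw [Finset.coe_image]
    congr 1
    ext j
    simp
  refine ⟨⟨H.cells, pt, fun σ => (Finset.univ.filter (· ∈ H.fac σ)).image H.dir, cells_poly,
    cells_face, cells_inter, hpt, fun σ _ ρ _ hρ => ?_, fun σ hσ => ?_, fun σ hσ => ?_⟩,
    fun σ => mem_cells, fun σ _ => hr σ⟩
  · exact Finset.image_subset_image fun j hj => Finset.mem_filter.2
      ⟨Finset.mem_univ _, fun x hx => (Finset.mem_filter.1 hj).2 x (hρ hx)⟩
  · rw [hr]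
    exact (h.fac_indep σ hσ).id_image
  · rw [hr]
    exact h.fac_disj σ hσ

/-- Every tropical polynomial whose Newton polytope is a multiple of the standard simplex and whose
dual subdivision is a triangulation gives a simple tropical hypersurface. -/
theorem exists_proj (hn : 0 < n) {δ : ℚ} (hδ : 0 < δ) (ex : α → Fin n → ℚ) (co : α → ℝ)
    (h0 : ∀ a i, 0 ≤ ex a i) (h1 : ∀ a, ∑ i, ex a i ≤ δ) (v0 : ∃ a, ex a = 0)
    (v1 : ∀ i, ∃ a, ex a = Pi.single i δ)
    (ht : ∀ x, AffineIndependent ℚ fun a : {a // (proj ex co 0).Top a x} => ex a) :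
    ∃ (L : ℝ) (X : TropCx n), (proj ex co L).Good ∧ (proj ex co L).Is X := by
  obtain ⟨L, hL⟩ := (good_proj hn hδ ex co h0 h1 v0 v1 ht).exists
  obtain ⟨X, hX⟩ := hL.exists_cx
  exact ⟨L, X, hL, hX⟩

end H5T.Hyp
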