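import Pool.Agent.Lib.MP_e9c0f3_ag.HY.Frame
import Pool.Agent.Lib.MP_e9c0f3_ag.HY.Poly

/-! The epigraph polytope is simple; a shelling adapted to the truncation. -/

open Matrix
open scoped Classical

noncomputable section

namespace H5T.Hyp

variable {n : ℕ} {α β : Type} [Fintype α] [Fintype β] [Nonempty α] {H : Hyp n α β}

lemma hgeo_cons (c : ℚ) (u : Fin n → ℚ) (y : Pt (n + 1)) :
    rv (Fin.cons c u : Fin (n + 1) → ℚ) ⬝ᵥ y = c * y 0 + rv u ⬝ᵥ Fin.tail y := by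
  simp [dotProduct, Fin.sum_univ_succ, rv, Fin.tail]

lemma hgeo_consq (c d : ℚ) (u w : Fin n → ℚ) :
    (Fin.cons c u : Fin (n + 1) → ℚ) ⬝ᵥ (Fin.cons d w : Fin (n + 1) → ℚ) = c * d + u ⬝ᵥ w := by
  simp [dotProduct, Fin.sum_univ_succ]

/-- The constants of the constraints. -/
def hgeoC (H : Hyp n α β) (t : ℝ) : Ix α β → ℝ
  | none => -t
  | some (.inl a) => H.co a
  | some (.inr j) => -H.lev j

omit [Fintype α] [Fintype β] [Nonempty α] in
lemma hgeo_lid (y : Pt (n + 1)) : rv (H.lam none) ⬝ᵥ y = -y 0 := by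
  rw [lam, hgeo_cons]; simp

omit [Fintype α] [Fintype β] [Nonempty α] in
lemma hgeo_mon (a : α) (y : Pt (n + 1)) :
    rv (H.lam (some (.inl a))) ⬝ᵥ y = y 0 - rv (H.ex a) ⬝ᵥ Fin.tail y := by
  rw [lam, cov, hgeo_cons, map_neg, neg_dotProduct]; simp [sub_eq_add_neg]

omit [Fintype α] [Fintype β] [Nonempty α] in
lemma hgeo_cut (j : β) (y : Pt (n + 1)) :
    rv (H.lam (some (.inr j))) ⬝ᵥ y = -(rv (H.nm j) ⬝ᵥ Fin.tail y) := by
  rw [lam, cov, hgeo_cons, map_neg, neg_dotProduct]; simp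

omit [Fintype α] [Fintype β] [Nonempty α] in
lemma hgeo_body {t : ℝ} {y : Pt (n + 1)} : y ∈ HY.body H.lam (hgeoC H t) ↔
    y 0 ≤ t ∧ (∀ a, rv (H.ex a) ⬝ᵥ Fin.tail y + H.co a ≤ y 0) ∧ Fin.tail y ∈ H.box := by
  constructor
  · intro h
    refine ⟨?_, fun a => ?_, fun j => ?_⟩
    · have := h none
      rw [hgeo_lid, hgeoC] at this; linarith
    · have := h (some (.inl a))
      rw [hgeo_mon, hgeoC] at this; linarith
    · have := h (some (.inr j))
      rw [hgeo_cut, hgeoC] at this; linarith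
  · rintro ⟨h1, h2, h3⟩ (_ | a | j)
    · rw [hgeo_lid, hgeoC]; linarith
    · rw [hgeo_mon, hgeoC]; linarith [h2 a]
    · rw [hgeo_cut, hgeoC]; linarith [h3 j]

omit [Fintype α] [Fintype β] [Nonempty α] in
lemma hgeo_top {t : ℝ} {y : Pt (n + 1)} (hy : y ∈ HY.body H.lam (hgeoC H t)) {a : α}
    (ha : rv (H.lam (some (.inl a))) ⬝ᵥ y = hgeoC H t (some (.inl a))) :
    H.Top a (Fin.tail y) := fun b => by
  rw [hgeo_mon, hgeoC] at ha
  linarith [(hgeo_body.1 hy).2.1 b]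

omit [Fintype α] [Fintype β] [Nonempty α] in
lemma hgeo_on {t : ℝ} {y : Pt (n + 1)} {j : β} :
    rv (H.lam (some (.inr j))) ⬝ᵥ y = hgeoC H t (some (.inr j)) ↔ H.On j (Fin.tail y) := by
  rw [hgeo_cut, hgeoC, neg_inj, On]

omit [Nonempty α] in
lemma Good.hgeo_bound (h : H.Good) :
    ∃ R : ℝ, ∀ x ∈ H.box, ∀ a, |rv (H.ex a) ⬝ᵥ x + H.co a| ≤ R := by
  have hc : Continuous fun x : Pt n => fun a => rv (H.ex a) ⬝ᵥ x + H.co a := by
    refine continuous_pi fun a => ?_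
    exact (continuous_const.dotProduct continuous_id).add continuous_const
  obtain ⟨R, hR⟩ := isBounded_iff_forall_norm_le.1
    ((h.bdd.isCompact_closure.image hc).isBounded)
  exact ⟨R, fun x hx a => (norm_le_pi_norm (fun a => rv (H.ex a) ⬝ᵥ x + H.co a) a).trans
    (hR _ ⟨x, subset_closure hx, rfl⟩)⟩

omit [Fintype β] in
lemma hgeo_hh_le (b : α) (j : β) : H.ex b ⬝ᵥ H.dir j ≤ H.hh j := by
  have h : ∃ a, ∀ b, H.ex b ⬝ᵥ H.dir j ≤ H.ex a ⬝ᵥ H.dir j :=
    Finite.exists_max fun a => H.ex a ⬝ᵥ H.dir j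
  rw [hh, dif_pos h]
  exact h.choose_spec b

omit [Fintype α] [Fintype β] [Nonempty α] in
lemma hgeo_hh_eq {a : α} {j : β} (ha : ∀ b, H.ex b ⬝ᵥ H.dir j ≤ H.ex a ⬝ᵥ H.dir j) :
    H.ex a ⬝ᵥ H.dir j = H.hh j := by
  have h : ∃ a, ∀ b, H.ex b ⬝ᵥ H.dir j ≤ H.ex a ⬝ᵥ H.dir j := ⟨a, ha⟩
  rw [hh, dif_pos h]
  exact le_antisymm (h.choose_spec a) (ha _)

omit [Fintype α] [Nonempty α] in
lemma Good.hgeo_dirs (h : H.Good) {x : Pt n} (hx : x ∈ H.box) :
    LinearIndepOn ℚ H.dir {j | H.On j x} := by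
  choose μ _ h0 h1 h2 using fun j : {j | H.On j x} => h.cut x hx j j.2
  let A : Matrix {j | H.On j x} {j | H.On j x} ℚ := fun l i => H.nm l ⬝ᵥ H.dir i
  let M : Matrix {j | H.On j x} {j | H.On j x} ℚ := fun i j => μ j i
  have hAM : A * M = 1 := by
    ext l j
    have e : ∑ i, μ j i • H.dir i = ∑ i : {j | H.On j x}, μ j i • H.dir i := by
      rw [← Finset.sum_subtype (p := fun i => i ∈ {j | H.On j x})
        (Finset.univ.filter fun i => H.On i x) (by simp) fun i => μ j i • H.dir i]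
      refine (Finset.sum_subset (Finset.filter_subset _ _) fun i _ hi => ?_).symm
      rw [h0 j i (by simpa using hi), zero_smul]
    have e2 : (A * M) l j = H.nm l ⬝ᵥ ∑ i, μ j i • H.dir i := by
      rw [e, dotProduct_sum, Matrix.mul_apply]
      exact Finset.sum_congr rfl fun i _ => by rw [dotProduct_smul, smul_eq_mul, mul_comm]
    rw [e2]
    by_cases c : l = j
    · rw [c, h1, Matrix.one_apply_eq]
    · rw [Matrix.one_apply_ne c, h2 j l l.2 fun c' => c (Subtype.ext c')]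
  have hMA : M * A = 1 := mul_eq_one_comm.1 hAM
  refine Fintype.linearIndependent_iff.2 fun g hg i => ?_
  have e : A *ᵥ g = 0 := by
    ext l
    have := congrArg (H.nm l ⬝ᵥ ·) hg
    simp only [dotProduct_sum, dotProduct_smul, smul_eq_mul, dotProduct_zero] at this
    rw [Pi.zero_apply, ← this]
    exact Finset.sum_congr rfl fun i _ => mul_comm _ _
  have e2 : g = M *ᵥ (A *ᵥ g) := by rw [Matrix.mulVec_mulVec, hMA, Matrix.one_mulVec]
  rw [e2, e, Matrix.mulVec_zero, Pi.zero_apply]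

omit [Fintype α] in
lemma Good.hgeo_simple (h : H.Good) {R : ℝ}
    (hR : ∀ x ∈ H.box, ∀ a, |rv (H.ex a) ⬝ᵥ x + H.co a| ≤ R) :
    HY.Simple H.lam (hgeoC H (R + 1)) := by
  constructor
  · obtain ⟨R', hR'⟩ := isBounded_iff_forall_norm_le.1 h.bdd
    refine isBounded_iff_forall_norm_le.2 ⟨max (R + 1) R', fun y hy => ?_⟩
    obtain ⟨h1, h2, h3⟩ := hgeo_body.1 hy
    obtain ⟨a⟩ := ‹Nonempty α›
    have h4 := abs_le.1 (hR _ h3 a)
    refine (pi_norm_le_iff_of_nonneg ((norm_nonneg _).trans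
      ((hR' _ h3).trans (le_max_right _ _)))).2 fun i => ?_
    refine Fin.cases ?_ (fun i => ?_) i
    · refine le_trans ?_ (le_max_left _ _)
      rw [Real.norm_eq_abs, abs_le]
      constructor <;> linarith [h2 a]
    · exact (norm_le_pi_norm (Fin.tail y) i).trans ((hR' _ h3).trans (le_max_right _ _))
  · intro y hy
    obtain ⟨h1, h2, h3⟩ := hgeo_body.1 hy
    have h4 : ∀ A ⊆ {s | Sum.elim (H.Top · (Fin.tail y)) (H.On · (Fin.tail y)) s},
        LinearIndepOn ℚ H.lam (some '' A) := fun A hA =>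
      LinearIndepOn.image_of_comp some H.lam ((h.simple _ h3).mono hA)
    by_cases c : y 0 = R + 1
    · have h5 := h4 (Sum.inr '' {j | H.On j (Fin.tail y)}) (by rintro _ ⟨j, hj, rfl⟩; exact hj)
      refine (h5.insert (x := none) fun hn => ?_).mono ?_
      · have h6 : Submodule.span ℚ (H.lam '' (some '' (Sum.inr '' {j | H.On j (Fin.tail y)})))
            ≤ LinearMap.ker (LinearMap.proj 0) := by
          refine Submodule.span_le.2 ?_
          rintro _ ⟨_, ⟨_, ⟨j, _, rfl⟩, rfl⟩, rfl⟩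
          simp [lam, cov]
        have := h6 hn
        simp [lam] at this
      · rintro (_ | a | j) hs
        · exact Set.mem_insert _ _
        · have hs' : rv (H.lam (some (.inl a))) ⬝ᵥ y = hgeoC H (R + 1) (some (.inl a)) := hs
          rw [hgeo_mon, hgeoC] at hs'
          linarith [(abs_le.1 (hR _ h3 a)).2]
        · exact Set.mem_insert_of_mem _ ⟨_, ⟨j, hgeo_on.1 hs, rfl⟩, rfl⟩
    · refine (h4 _ le_rfl).mono ?_
      rintro (_ | a | j) hs
      · have hs' : rv (H.lam none) ⬝ᵥ y = hgeoC H (R + 1) none := hs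
        rw [hgeo_lid, hgeoC] at hs'
        exact absurd (neg_inj.1 hs') c
      · exact ⟨_, hgeo_top hy hs, rfl⟩
      · exact ⟨_, hgeo_on.1 hs, rfl⟩

theorem Good.exists_fm (h : H.Good) : ∃ K vx up rk, H.Fm K vx up rk := by
  obtain ⟨R, hR⟩ := h.hgeo_bound
  have hs := h.hgeo_simple hR
  obtain ⟨o, ho⟩ := h.inner
  obtain ⟨vx, up, rk, hsh, hv⟩ := hs.shell (Fin.cons 1 (-o))
  have hsep : ∀ S, HY.nerve H.lam (hgeoC H (R + 1)) S → none ∈ S →
      ∀ a, some (.inl a) ∉ S := by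
    rintro S ⟨y, hy, hS⟩ hn a ha
    have h1 := hS _ hn
    have h2 := hS _ ha
    rw [hgeo_lid, hgeoC] at h1
    rw [hgeo_mon, hgeoC] at h2
    linarith [(abs_le.1 (hR _ (hgeo_body.1 hy).2.2 a)).2]
  have hup : ∀ S, HY.nerve H.lam (hgeoC H (R + 1)) S → up (vx S) ⊆ vx S := fun S hS =>
    (hsh.up_le S hS).trans (hsh.le S hS)
  refine ⟨_, vx, up, rk, hsh, fun S hS => (hv S hS).1, fun S hS hn => ?_,
    fun S hS hn j hj => ?_, fun S hS hn => ?_, fun S hS hn => ?_, ?_, ?_, ?_, fun S hS ha => ?_,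
    fun x hx S hn h1 h2 => ?_⟩
  · have h1 := hsep _ (hsh.mem S hS) (hup S hS hn)
    have h2 := (hv S hS).2.2 (Fin.cons (-1) 0) ?_ ?_
    · rw [hgeo_consq] at h2
      norm_num at h2
    · rintro (_ | a | j) hm
      · simp [lam, hgeo_consq]
      · exact absurd hm (h1 a)
      · simp [lam, cov, hgeo_consq]
    · rintro (_ | a | j) hm hm'
      · exact absurd hn hm'
      · exact absurd hm (h1 a)
      · simp [lam, cov, hgeo_consq]
  · obtain ⟨y, hy, hS'⟩ := hsh.mem S hS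
    have hx := (hgeo_body.1 hy).2.2
    obtain ⟨μ, h0, h1, h2, h3⟩ := h.cut _ hx j (hgeo_on.1 (hS' _ (hup S hS hj)))
    have hmon : ∀ a, some (.inl a) ∈ vx S → H.lam (some (.inl a)) ⬝ᵥ
        (Fin.cons (-∑ i, μ i * H.hh i) (-∑ i, μ i • H.dir i) : Fin (n + 1) → ℚ) = 0 := by
      intro a ha
      rw [lam, cov, hgeo_consq, neg_dotProduct_neg, dotProduct_sum, one_mul, neg_add_eq_zero]
      refine Finset.sum_congr rfl fun i _ => ?_
      rw [dotProduct_smul, smul_eq_mul]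
      by_cases c : H.On i (Fin.tail y)
      · rw [hgeo_hh_eq (h.face _ hx i a c (hgeo_top hy (hS' _ ha)))]
      · rw [h1 i c, zero_mul, zero_mul]
    have hcut : ∀ l, H.lam (some (.inr l)) ⬝ᵥ
        (Fin.cons (-∑ i, μ i * H.hh i) (-∑ i, μ i • H.dir i) : Fin (n + 1) → ℚ)
          = H.nm l ⬝ᵥ ∑ i, μ i • H.dir i := by
      intro l
      rw [lam, cov, hgeo_consq, neg_dotProduct_neg, zero_mul, zero_add]
    have h4 := (hv S hS).2.2 (Fin.cons (-∑ i, μ i * H.hh i) (-∑ i, μ i • H.dir i)) ?_ ?_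
    · rw [hgeo_consq, neg_dotProduct_neg, dotProduct_sum, one_mul, neg_add_eq_sub, sub_nonneg] at h4
      have h5 : ∀ i, o ⬝ᵥ H.dir i < H.hh i := fun i => by
        obtain ⟨a, ha⟩ := ho i
        exact ha.trans_le (hgeo_hh_le a i)
      have h6 : ∃ i, μ i ≠ 0 := by
        by_contra! c
        simp [c] at h2
      obtain ⟨i, hi⟩ := h6
      refine absurd h4 (not_le.2 (Finset.sum_lt_sum (fun l _ => ?_) ⟨i, Finset.mem_univ _, ?_⟩))
      · rw [dotProduct_smul, smul_eq_mul]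
        exact mul_le_mul_of_nonneg_left (h5 l).le (h0 l)
      · rw [dotProduct_smul, smul_eq_mul]
        exact mul_lt_mul_of_pos_left (h5 i) ((h0 i).lt_of_ne' hi)
    · rintro (_ | a | l) hm
      · exact absurd hm hn
      · exact (hmon a hm).ge
      · rw [hcut]
        by_cases c : l = j
        · rw [c, h2]; exact zero_le_one
        · exact (h3 l (hgeo_on.1 (hS' _ hm)) c).ge
    · rintro (_ | a | l) hm hm'
      · exact absurd hm hn
      · exact hmon a hm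
      · rw [hcut]
        exact h3 l (hgeo_on.1 (hS' _ hm)) fun c => hm' (c ▸ hj)
  · by_contra! c
    have h2 := (hv S hS).2.1 (Fin.cons 1 0) ?_ ?_
    · rw [hgeo_consq] at h2
      norm_num at h2
    · rintro (_ | a | j) hm
      · exact absurd hm hn
      · simp [lam, cov, hgeo_consq]
      · simp [lam, cov, hgeo_consq]
    · rintro (_ | a | j) hm
      · exact absurd (hup S hS hm) hn
      · exact absurd hm (c a)
      · simp [lam, cov, hgeo_consq]
  · exact Set.eq_empty_of_forall_notMem (hsep S hS hn)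
  · rintro S ⟨y, hy, hS⟩
    exact (hs.indep y hy).mono hS
  · rintro S ⟨y, hy, hS⟩ a ha j hj
    exact hgeo_hh_eq (h.face _ (hgeo_body.1 hy).2.2 j a (hgeo_on.1 (hS _ hj))
      (hgeo_top hy (hS _ ha)))
  · rintro S ⟨y, hy, hS⟩
    exact (h.hgeo_dirs (hgeo_body.1 hy).2.2).mono fun j hj => hgeo_on.1 (hS _ hj)
  · obtain ⟨y, hy, hS'⟩ := hs.exists_exact hS
    obtain ⟨a₀, ha₀⟩ := ha
    refine ⟨Fin.tail y, (hgeo_body.1 hy).2.2, fun a => ⟨fun ht => (hS' _).1 ?_,
      fun ha => hgeo_top hy ((hS' _).2 ha)⟩, fun j => hgeo_on.symm.trans (hS' _)⟩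
    have h1 := (hS' _).2 ha₀
    rw [hgeo_mon, hgeoC] at h1 ⊢
    linarith [ht a₀, (hgeo_body.1 hy).2.1 a]
  · obtain ⟨b, hb⟩ := Finite.exists_max fun a => rv (H.ex a) ⬝ᵥ x + H.co a
    refine ⟨Fin.cons (rv (H.ex b) ⬝ᵥ x + H.co b) x, hgeo_body.2 ⟨?_, ?_, ?_⟩, ?_⟩
    · rw [Fin.cons_zero]
      linarith [(abs_le.1 (hR x hx b)).2]
    · simpa using hb
    · simpa using hx
    · rintro (_ | a | j) hm
      · exact absurd hm hn
      · rw [hgeo_mon, hgeoC, Fin.cons_zero, Fin.tail_cons]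
        linarith [hb a, h1 a hm b]
      · exact hgeo_on.2 (by simpa using h2 j hm)

end H5T.Hyp
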