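import Pool.Agent.Lib.MP_e9c0f3_ag.HY.Sys

/-! The prism operator and the cone operator on flags. -/

open scoped Classical

noncomputable section

namespace H5T.HY

variable {I E : Type} [AddCommGroup E] [Module ℚ E]
variable {P P' : Finset I → Prop} {φ : List (Finset I)} {u : Finset I}
  {G J : Finset I → Submodule ℚ E} {g : ℕ}

namespace PrA

section

variable {V : Type} (a b : V → V)

/-- The prism on one list. -/
def pr : List V → E →ₗ[ℚ] (List V →₀ E)
  | [] => 0
  | x :: l => Finsupp.lsingle (a x :: b x :: l.map b) - cons (a x) ∘ₗ pr l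

/-- The prism operator. -/
def PR : (List V →₀ E) →ₗ[ℚ] (List V →₀ E) := Finsupp.lsum ℚ (pr a b)

/-- The chain map of a vertex map. -/
def mp : (List V →₀ E) →ₗ[ℚ] (List V →₀ E) := Finsupp.lmapDomain E ℚ (List.map a)

theorem PR_single (l : List V) (β : E) : PR a b (Finsupp.single l β) = pr a b l β := by
  simp [PR]

theorem mp_single (l : List V) (β : E) :
    mp a (Finsupp.single l β) = Finsupp.single (l.map a) β := by
  simp [mp]

theorem mp_id (z : List V →₀ E) : mp id z = z := by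
  induction z using Finsupp.induction_linear with
  | zero => simp
  | add y z hy hz => simp only [map_add, hy, hz]
  | single l β => simp [mp_single]

theorem mp_cons (x : V) (z : List V →₀ E) : mp a (cons x z) = cons (a x) (mp a z) := by
  induction z using Finsupp.induction_linear with
  | zero => simp
  | add y z hy hz => simp only [map_add, hy, hz]
  | single l β => simp [mp_single]

theorem bd_mp (z : List V →₀ E) : bd (mp a z) = mp a (bd z) := by
  induction z using Finsupp.induction_linear with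
  | zero => simp
  | add y z hy hz => simp only [map_add, hy, hz]
  | single l β =>
    induction l with
    | nil => simp [mp_single]
    | cons x l ih =>
      rw [mp_single] at ih
      rw [mp_single, List.map_cons, bd_single_cons, bd_single_cons, map_sub, mp_cons, mp_single, ih]

theorem PR_cons (x : V) (z : List V →₀ E) :
    PR a b (cons x z) = cons (a x) (cons (b x) (mp b z)) - cons (a x) (PR a b z) := by
  induction z using Finsupp.induction_linear with
  | zero => simp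
  | add y z hy hz => simp only [map_add, hy, hz]; abel
  | single l β => simp [mp_single, PR_single, pr]

theorem prism (z : List V →₀ E) : bd (PR a b z) + PR a b (bd z) = mp b z - mp a z := by
  induction z using Finsupp.induction_linear with
  | zero => simp
  | add y z hy hz => simp only [map_add]; linear_combination (norm := abel1) hy + hz
  | single l β =>
    induction l with
    | nil => simp [mp_single, PR_single, pr]
    | cons x l ih =>
      have h := congrArg (cons (a x)) ih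
      rw [← cons_single]
      generalize Finsupp.single l β = y at *
      simp only [map_add, map_sub, bd_cons, PR_cons, mp_cons, bd_mp] at h ⊢
      linear_combination (norm := abel1) h

theorem pr_mem (l : List V) (β : E) : ∀ M : Submodule ℚ (List V →₀ E),
    (∀ l₁ x l₂, l = l₁ ++ x :: l₂ →
      Finsupp.single ((l₁ ++ [x]).map a ++ (x :: l₂).map b) β ∈ M) → pr a b l β ∈ M := by
  induction l with
  | nil => exact fun M _ => M.zero_mem
  | cons x l ih =>
    intro M h
    refine M.sub_mem (h [] x l rfl) (ih (M.comap (cons (a x))) fun l₁ y l₂ e => ?_)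
    rw [Submodule.mem_comap, cons_single]
    exact h (x :: l₁) y l₂ (by rw [e]; rfl)

/-- Chains that vanish on the class. -/
def N0 (c : List V → Prop) : Submodule ℚ (List V →₀ E) := Ch fun l => if c l then ⊥ else ⊤

/-- Restriction to a class. -/
def rs (c : List V → Prop) : (List V →₀ E) →ₗ[ℚ] (List V →₀ E) :=
  coL fun l => if c l then LinearMap.id else 0

theorem rs_apply (c : List V → Prop) (z : List V →₀ E) (l : List V) :
    rs c z l = if c l then z l else 0 := by
  rw [rs, coL_apply]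
  split_ifs <;> rfl

theorem single_N0 {c : List V → Prop} {l : List V} (h : ¬ c l) (β : E) :
    Finsupp.single l β ∈ N0 c :=
  single_mem_Ch (by rw [if_neg h]; trivial)

theorem N0_mono {c c' : List V → Prop} (h : ∀ l, c l → c' l) : N0 (E := E) c' ≤ N0 c :=
  Ch_mono fun l => by
    by_cases k : c l
    · rw [if_pos k, if_pos (h l k)]
    · rw [if_neg k]; exact le_top

end

theorem N0_le (c : List (Finset I) → Prop) : N0 c ≤ NN c J :=
  Ch_mono fun l => by split_ifs <;> simp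

theorem bd_weak (β : E) (l : List (Finset I)) (h : l.Pairwise (· ⊆ ·)) (k : ¬ l.Pairwise (· ⊂ ·)) :
    bd (Finsupp.single l β) ∈ N0 fun l : List (Finset I) => l.Pairwise (· ⊂ ·) := by
  induction l with
  | nil => simp
  | cons x l ih =>
    rw [bd_single_cons]
    obtain ⟨h1, h2⟩ := List.pairwise_cons.1 h
    by_cases k' : l.Pairwise (· ⊂ ·)
    · cases l with
      | nil => simp at k
      | cons y l =>
        obtain rfl : x = y := by
          by_contra hne
          have h3 : x ⊂ y := Finset.ssubset_iff_subset_ne.2 ⟨h1 y List.mem_cons_self, hne⟩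
          refine k (List.pairwise_cons.2 ⟨fun S hS => ?_, k'⟩)
          rcases List.mem_cons.1 hS with rfl | hS
          · exact h3
          · exact h3.trans ((List.pairwise_cons.1 k').1 S hS)
        rw [bd_single_cons, map_sub, cons_single, sub_sub_cancel]
        refine map_mem_of_Ch (G := fun _ => ⊤) (cons x ∘ₗ cons x) (fun l β _ => ?_)
          (mem_Ch.2 fun _ => trivial)
        simp only [LinearMap.comp_apply, cons_single]
        exact single_N0 (by simp) β
    · refine Submodule.sub_mem _ (single_N0 k' β) (map_mem_of_Ch (cons x) (fun l β hβ => ?_)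
        (ih h2 k'))
      rw [cons_single]
      by_cases e : l.Pairwise (· ⊂ ·)
      · rw [if_pos e] at hβ
        rw [(Submodule.mem_bot ℚ).1 hβ, Finsupp.single_zero]
        exact Submodule.zero_mem _
      · exact single_N0 (fun k => e (List.pairwise_cons.1 k).2) β

theorem bd_out (β : E) {l : List (Finset I)} (h : l.Pairwise (· ⊆ ·)) (hP : ∀ S ∈ l, P S)
    (k : ¬ Cl P φ u l) : bd (Finsupp.single l β) ∈ N0 (Cl P φ u) := by
  by_cases e : l.Pairwise (· ⊂ ·)
  · rw [bd_single]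
    refine Submodule.sum_mem _ fun i _ => Submodule.smul_mem _ _ (single_N0 ?_ β)
    rintro ⟨-, -, h3, S, h4, h5⟩
    have s := (List.eraseIdx_sublist l i).subset
    exact k ⟨e, hP, fun _ h => s (h3 h), S, s h4, h5⟩
  · exact N0_mono (fun _ h => h.1) (bd_weak β l h e)

/-- Transfer along an operator whose terms are controlled. -/
theorem gen {g' : ℕ} (T : (List (Finset I) →₀ E) →ₗ[ℚ] (List (Finset I) →₀ E))
    (Tm : List (Finset I) → List (Finset I) → Prop)
    (hT : ∀ l β (M : Submodule ℚ _), (∀ l', Tm l l' → Finsupp.single l' β ∈ M) →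
      T (Finsupp.single l β) ∈ M)
    (h : ∀ l l', l.Pairwise (· ⊂ ·) → (∀ S ∈ l, P S) → Tm l l' →
      hd G l ≤ hd G l' ∧ hd J l ≤ hd J l' ∧ l'.Pairwise (· ⊆ ·) ∧ (∀ S ∈ l', P' S) ∧
        (l.length = g → l'.length = g') ∧ (Cl P' φ u l' → Cl P φ u l))
    {z : List (Finset I) →₀ E} (hz : z ∈ CC (Cl P φ u) G g) (hb : bd z ∈ NN (Cl P φ u) J) :
    rs (Cl P' φ u) (T z) ∈ CC (Cl P' φ u) G g' ∧
      bd (T z) - bd (rs (Cl P' φ u) (T z)) ∈ N0 (Cl P' φ u) ∧ T (bd z) ∈ NN (Cl P' φ u) J ∧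
      T z ∈ N0 fun l => ¬ ∀ S ∈ l, P' S := by
  have h1 : T z ∈ Ch fun l => if (l.Pairwise (· ⊆ ·) ∧ ∀ S ∈ l, P' S) ∧ l.length = g'
      then hd G l else ⊥ := by
    refine map_mem_of_Ch T (fun l β hβ => hT l β _ fun l' ht => single_mem_Ch ?_) hz
    split_ifs at hβ with k
    · obtain ⟨t1, -, t3, t4, t5, -⟩ := h l l' k.1.1 k.1.2.1 ht
      rw [if_pos ⟨⟨t3, t4⟩, t5 k.2⟩]
      exact t1 hβ
    · exact bot_le (α := Submodule ℚ E) hβ
  have h2 : bd z ∈ Ch fun l => if l.Pairwise (· ⊂ ·) ∧ ∀ S ∈ l, P S then (⊤ : Submodule ℚ E)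
      else ⊥ := by
    refine bd_mem_Ch (fun l l' s _ => ?_) hz
    by_cases k : Cl P φ u l ∧ l.length = g
    · rw [if_pos (c := l'.Pairwise (· ⊂ ·) ∧ ∀ S ∈ l', P S)
        ⟨k.1.1.sublist s, fun S hS => k.1.2.1 S (s.subset hS)⟩]
      exact le_top
    · rw [if_neg k]
      exact bot_le
  have h3 : bd z ∈ Ch fun l => if l.Pairwise (· ⊂ ·) ∧ ∀ S ∈ l, P S then
      (if Cl P φ u l then hd J l else ⊤) else ⊥ := mem_Ch.2 fun l => by
    have a := mem_Ch.1 h2 l
    have b := mem_Ch.1 hb l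
    by_cases k : l.Pairwise (· ⊂ ·) ∧ ∀ S ∈ l, P S
    · rwa [if_pos k]
    · rwa [if_neg k] at a ⊢
  refine ⟨mem_Ch.2 fun l => ?_, ?_, ?_, mem_Ch.2 fun l => ?_⟩
  · have a := mem_Ch.1 h1 l
    rw [rs_apply]
    by_cases k : Cl P' φ u l
    · simpa only [k, k.1.imp (fun h => h.subset), eq_true k.2.1, true_and, if_true] using a
    · rw [if_neg k]
      exact Submodule.zero_mem _
  · refine map_mem_of_Ch (bd - bd ∘ₗ rs (Cl P' φ u)) (fun l β hβ => ?_) h1
    simp only [LinearMap.sub_apply, LinearMap.comp_apply, rs, coL_single]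
    split_ifs at hβ ⊢ with k1 k2 k2
    · simp
    · simp
    · simpa using bd_out β k2.1.1 k2.1.2 k1
    · simp [(Submodule.mem_bot ℚ).1 hβ]
  · refine map_mem_of_Ch T (fun l β hβ => hT l β _ fun l' ht => single_mem_Ch ?_) h3
    by_cases k : l.Pairwise (· ⊂ ·) ∧ ∀ S ∈ l, P S
    · obtain ⟨-, t2, -, -, -, t6⟩ := h l l' k.1 k.2 ht
      by_cases k' : Cl P' φ u l'
      · rw [if_pos k, if_pos (t6 k')] at hβ
        rw [if_pos k']
        exact t2 hβ
      · rw [if_neg k']
        trivial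
    · rw [if_neg k] at hβ
      exact bot_le (α := Submodule ℚ E) hβ
  · have a := mem_Ch.1 h1 l
    by_cases k : ∀ S ∈ l, P' S
    · rw [if_neg (not_not.2 k)]
      trivial
    · rw [if_neg fun h => k h.1.2] at a
      rwa [if_pos k]

/-- The map does not create members of `φ` or supersets of `u`. -/
def Ok (P : Finset I → Prop) (φ : List (Finset I)) (u : Finset I) (a : Finset I → Finset I) : Prop :=
  ∀ S, P S → (∀ T ∈ φ, a S = T → S = T) ∧ (u ⊆ a S → u ⊆ S)

theorem ok_id : Ok P φ u id := fun _ _ => ⟨fun _ _ h => h, fun h => h⟩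

theorem cl_of {a b : Finset I → Finset I} (ha : Ok P φ u a) (hb : Ok P φ u b)
    {l l' : List (Finset I)} (h1 : l.Pairwise (· ⊂ ·)) (h2 : ∀ S ∈ l, P S)
    (h3 : ∀ T ∈ l', ∃ S ∈ l, a S = T ∨ b S = T) (h : Cl P' φ u l') : Cl P φ u l := by
  obtain ⟨-, -, h4, T, h5, h6⟩ := h
  refine ⟨h1, h2, fun T hT => ?_, ?_⟩
  · obtain ⟨S, hS, e | e⟩ := h3 T (h4 hT)
    · exact (ha S (h2 S hS)).1 T hT e ▸ hS
    · exact (hb S (h2 S hS)).1 T hT e ▸ hS
  · obtain ⟨S, hS, rfl | rfl⟩ := h3 T h5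
    · exact ⟨S, hS, (ha S (h2 S hS)).2 h6⟩
    · exact ⟨S, hS, (hb S (h2 S hS)).2 h6⟩

theorem pw_map {a : Finset I → Finset I} (hm : ∀ S S', P S → P S' → S ⊆ S' → a S ⊆ a S')
    {l l' : List (Finset I)} (h1 : l.Pairwise (· ⊂ ·)) (h2 : ∀ S ∈ l, P S) (s : l'.Sublist l) :
    (l'.map a).Pairwise (· ⊆ ·) :=
  List.pairwise_map.2 ((h1.sublist s).imp_of_mem fun x y h =>
    hm _ _ (h2 _ (s.subset x)) (h2 _ (s.subset y)) h.subset)

theorem homot {a b : Finset I → Finset I} (ha : Ok P φ u a) (hb : Ok P φ u b)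
    (hP : ∀ S, P S → P (a S) ∧ P (b S) ∧ a S ⊆ b S)
    (ma : ∀ S S', P S → P S' → S ⊆ S' → a S ⊆ a S') (mb : ∀ S S', P S → P S' → S ⊆ S' → b S ⊆ b S')
    (hG : ∀ S, P S → G S ≤ G (a S)) (hJ : ∀ S, P S → J S ≤ J (a S))
    {z : List (Finset I) →₀ E} (hz : z ∈ CC (Cl P φ u) G g) (hb' : bd z ∈ NN (Cl P φ u) J) :
    mp b z - mp a z ∈ (CC (Cl P φ u) G (g + 1)).map bd ⊔ NN (Cl P φ u) J := by
  obtain ⟨h1, h2, h3, -⟩ := gen (P' := P) (g' := g + 1) (PR a b)
    (fun l l' => ∃ l₁ x l₂, l = l₁ ++ x :: l₂ ∧ l' = (l₁ ++ [x]).map a ++ (x :: l₂).map b)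
    (fun l β M h => by
      rw [PR_single]
      exact pr_mem a b l β M fun l₁ x l₂ e => h _ ⟨l₁, x, l₂, e, rfl⟩)
    (by
      rintro _ _ p1 p2 ⟨l₁, x, l₂, rfl, rfl⟩
      have s1 : (l₁ ++ [x]).Sublist (l₁ ++ x :: l₂) := by simp
      have s2 : (x :: l₂).Sublist (l₁ ++ x :: l₂) := by simp
      have m : ∀ T ∈ (l₁ ++ [x]).map a ++ (x :: l₂).map b,
          ∃ S ∈ l₁ ++ x :: l₂, a S = T ∨ b S = T := fun T hT => by
        rcases List.mem_append.1 hT with hT | hT <;> obtain ⟨S, hS, e⟩ := List.mem_map.1 hT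
        exacts [⟨S, s1.subset hS, Or.inl e⟩, ⟨S, s2.subset hS, Or.inr e⟩]
      refine ⟨?_, ?_, List.pairwise_append.2 ⟨pw_map ma p1 p2 s1, pw_map mb p1 p2 s2, ?_⟩,
        fun T hT => ?_, fun e => ?_, cl_of ha hb p1 p2 m⟩
      · cases l₁ <;> exact hG _ (p2 _ List.mem_cons_self)
      · cases l₁ <;> exact hJ _ (p2 _ List.mem_cons_self)
      · intro _ m1 _ m2
        obtain ⟨S, hS, rfl⟩ := List.mem_map.1 m1
        obtain ⟨S', hS', rfl⟩ := List.mem_map.1 m2
        have q := p2 _ (s2.subset hS')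
        refine (ma S S' (p2 _ (s1.subset hS)) q ?_).trans (hP S' q).2.2
        obtain ⟨-, q2, q3⟩ := List.pairwise_append.1 p1
        rcases List.mem_append.1 hS with hS | hS
        · exact (q3 S hS S' hS').subset
        · obtain rfl := List.mem_singleton.1 hS
          rcases List.mem_cons.1 hS' with rfl | hS'
          · exact subset_rfl
          · exact ((List.pairwise_cons.1 q2).1 S' hS').subset
      · obtain ⟨S, hS, rfl | rfl⟩ := m T hT
        exacts [(hP S (p2 S hS)).1, (hP S (p2 S hS)).2.1]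
      · simp at e ⊢
        omega) hz hb'
  rw [← prism, ← add_sub_cancel (bd (rs (Cl P φ u) (PR a b z))) (bd (PR a b z)), add_assoc]
  exact Submodule.add_mem_sup (Submodule.mem_map_of_mem h1)
    (Submodule.add_mem _ (N0_le _ h2) h3)

theorem push {f : Finset I → Finset I} (hP : ∀ S, P' S → P S) (ho : Ok P φ u f)
    (hf : ∀ S, P S → P' (f S)) (hm : ∀ S S', P S → P S' → S ⊆ S' → f S ⊆ f S')
    (hG : ∀ S, P S → G S ≤ G (f S)) (hJ : ∀ S, P S → J S ≤ J (f S)) (e : Ex (Cl P' φ u) G J g)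
    {z : List (Finset I) →₀ E} (hz : z ∈ CC (Cl P φ u) G g) (hb : bd z ∈ NN (Cl P φ u) J) :
    mp f z ∈ (CC (Cl P φ u) G (g + 1)).map bd ⊔ NN (Cl P φ u) J := by
  obtain ⟨h1, h2, h3, h4⟩ := gen (P' := P') (g' := g) (mp f) (fun l l' => l' = l.map f)
    (fun l β M h => by
      rw [mp_single]
      exact h _ rfl)
    (by
      rintro l _ p1 p2 rfl
      refine ⟨?_, ?_, pw_map hm p1 p2 (List.Sublist.refl l), fun T hT => ?_, fun e => by simpa using e,
        cl_of ho ho p1 p2 fun T hT => ?_⟩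
      · cases l
        exacts [le_rfl, hG _ (p2 _ List.mem_cons_self)]
      · cases l
        exacts [le_rfl, hJ _ (p2 _ List.mem_cons_self)]
      · obtain ⟨S, hS, rfl⟩ := List.mem_map.1 hT
        exact hf S (p2 S hS)
      · obtain ⟨S, hS, e⟩ := List.mem_map.1 hT
        exact ⟨S, hS, Or.inl e⟩) hz hb
  have h5 : bd (rs (Cl P' φ u) (mp f z)) ∈ NN (Cl P' φ u) J := by
    have := Submodule.sub_mem _ h3 (N0_le (J := J) _ h2)
    rwa [← bd_mp, sub_sub_cancel] at this
  obtain ⟨_, ⟨y, hy, rfl⟩, n, hn, h6⟩ := Submodule.mem_sup.1 (e _ h1 h5)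
  have h7 : bd y ∈ N0 fun l => ¬ ∀ S ∈ l, P' S := by
    refine bd_mem_Ch (fun l l' s _ => ?_) hy
    by_cases k : Cl P' φ u l ∧ l.length = g + 1
    · rw [if_neg (c := ¬ ∀ S ∈ l', P' S) (not_not.2 fun S hS => k.1.2.1 S (s.subset hS))]
      exact le_top
    · rw [if_neg k]
      exact bot_le
  rw [← add_sub_cancel (bd y) (mp f z)]
  refine Submodule.add_mem_sup (Submodule.mem_map_of_mem (Ch_mono (fun l => ?_) hy))
    (mem_Ch.2 fun l => ?_)
  · by_cases k : Cl P' φ u l ∧ l.length = g + 1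
    · rw [if_pos k, if_pos ⟨⟨k.1.1, fun S hS => hP S (k.1.2.1 S hS), k.1.2.2⟩, k.2⟩]
    · rw [if_neg k]
      exact bot_le
  · by_cases k : Cl P φ u l
    swap
    · rw [if_neg k]
      trivial
    rw [if_pos k, Finsupp.sub_apply]
    by_cases k' : ∀ S ∈ l, P' S
    · have c' : Cl P' φ u l := ⟨k.1, k', k.2.2⟩
      have a := mem_Ch.1 hn l
      have b := DFunLike.congr_fun h6 l
      rw [if_pos c'] at a
      rw [Finsupp.add_apply, rs_apply, if_pos c'] at b
      rwa [← b, add_sub_cancel_left]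
    · have a := mem_Ch.1 h4 l
      have b := mem_Ch.1 h7 l
      rw [if_pos k'] at a b
      exact bot_le (α := Submodule ℚ E) (Submodule.sub_mem _ a b)

end PrA

open PrA

/-- Retraction along a monotone map with `f S ⊆ S`. -/
theorem Ex.retract_down (f : Finset I → Finset I) (hP : ∀ S, P' S → P S)
    (hf : ∀ S, P S → P' (f S) ∧ f S ⊆ S)
    (hm : ∀ S S', P S → P S' → S ⊆ S' → f S ⊆ f S')
    (hφ : ∀ T ∈ φ, ∀ S, P S → f S = T → S = T)
    (hG : ∀ S, P S → G S ≤ G (f S)) (hJ : ∀ S, P S → J S ≤ J (f S))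
    (e : Ex (Cl P' φ u) G J g) : Ex (Cl P φ u) G J g := by
  intro z hz hb
  have ho : Ok P φ u f := fun S hS => ⟨fun T hT => hφ T hT S hS, fun h => h.trans (hf S hS).2⟩
  have h1 := homot ho ok_id (fun S hS => ⟨hP _ (hf S hS).1, hS, (hf S hS).2⟩) hm
    (fun _ _ _ _ h => h) hG hJ hz hb
  have h2 := Submodule.add_mem _ h1 (push hP ho (fun S hS => (hf S hS).1) hm hG hJ e hz hb)
  rwa [sub_add_cancel, mp_id] at h2

/-- Retraction along a monotone map with `S ⊆ f S`. -/
theorem Ex.retract_up (f : Finset I → Finset I) (hP : ∀ S, P' S → P S)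
    (hf : ∀ S, P S → P' (f S) ∧ S ⊆ f S)
    (hm : ∀ S S', P S → P S' → S ⊆ S' → f S ⊆ f S')
    (hφ : ∀ T ∈ φ, ∀ S, P S → f S = T → S = T) (hu : ∀ S, P S → u ⊆ f S → u ⊆ S)
    (hG : ∀ S, P S → G S ≤ G (f S)) (hJ : ∀ S, P S → J S ≤ J (f S))
    (e : Ex (Cl P' φ u) G J g) : Ex (Cl P φ u) G J g := by
  intro z hz hb
  have ho : Ok P φ u f := fun S hS => ⟨fun T hT => hφ T hT S hS, hu S hS⟩
  have h1 := homot ok_id ho (fun S hS => ⟨hS, hP _ (hf S hS).1, (hf S hS).2⟩)
    (fun _ _ _ _ h => h) hm (fun _ _ => le_rfl) (fun _ _ => le_rfl) hz hb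
  have h2 := Submodule.sub_mem _ (push hP ho (fun S hS => (hf S hS).1) hm hG hJ e hz hb) h1
  rwa [sub_sub_cancel, mp_id] at h2

/-- A class with a set comparable to all others is a cone. -/
theorem Ex.cone (M : Finset I) (hM : P M) (hc : ∀ S, P S → S ⊆ M ∨ M ⊆ S) (h1 : M ∉ φ)
    (h2 : φ ≠ []) (W W' : Submodule ℚ E) : Ex (Cl P φ ∅) (fun _ => W) (fun _ => W') g := by
  refine Ex.retract_down (P' := fun S => P S ∧ S ⊆ M) (fun S => if S ⊆ M then S else M)
    (fun _ h => h.1) (fun S hS => ?_) (fun S S' _ _ h => ?_) (fun T hT S _ e => ?_)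
    (fun _ _ => le_rfl) (fun _ _ => le_rfl) ?_
  · split_ifs with k
    exacts [⟨⟨hS, k⟩, subset_rfl⟩, ⟨⟨hM, subset_rfl⟩, (hc S hS).resolve_left k⟩]
  · split_ifs with k k' k'
    exacts [h, k, (k (h.trans k')).elim, subset_rfl]
  · split_ifs at e
    exacts [e, (h1 (e ▸ hT)).elim]
  refine Ex.retract_up (P' := fun S => S = M) (fun _ => M)
    (fun _ h => by rw [h]; exact ⟨hM, subset_rfl⟩)
    (fun S hS => ⟨rfl, hS.2⟩) (fun _ _ _ _ _ => subset_rfl) (fun T hT _ _ e => (h1 (e ▸ hT)).elim)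
    (fun _ _ h => Finset.empty_subset _) (fun _ _ => le_rfl) (fun _ _ => le_rfl) ?_
  refine fun z _ _ => Submodule.mem_sup_right (mem_Ch.2 fun l => ?_)
  obtain ⟨T, hT⟩ := List.exists_mem_of_ne_nil φ h2
  rw [if_neg fun k : Cl (fun S => S = M) φ ∅ l => h1 ((k.2.1 T (k.2.2.1 hT) : T = M) ▸ hT)]
  trivial

end H5T.HY
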