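import Pool.Agent.Lib.MP_e9c0f3_ag.H5T.EndsA

/-! Chains on flags of finite sets with coefficients that depend on the first set. -/

open scoped Classical

noncomputable section

namespace H5T.HY

variable {I E E' : Type} [AddCommGroup E] [Module ℚ E] [AddCommGroup E'] [Module ℚ E']

/-- The coefficient space of a list is that of its head. -/
def hd (G : Finset I → Submodule ℚ E) : List (Finset I) → Submodule ℚ E
  | [] => ⊥
  | S :: _ => G S

/-- Chains of length `g` on the lists in the class `c`. -/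
def CC (c : List (Finset I) → Prop) (G : Finset I → Submodule ℚ E) (g : ℕ) :
    Submodule ℚ (List (Finset I) →₀ E) := Ch fun l => if c l ∧ l.length = g then hd G l else ⊥

/-- Null chains. -/
def NN (c : List (Finset I) → Prop) (J : Finset I → Submodule ℚ E) :
    Submodule ℚ (List (Finset I) →₀ E) := Ch fun l => if c l then hd J l else ⊤

/-- Exactness in length `g` of the complex with coefficients `G` modulo `J`. -/
def Ex (c : List (Finset I) → Prop) (G J : Finset I → Submodule ℚ E) (g : ℕ) : Prop :=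
  ∀ z ∈ CC c G g, bd z ∈ NN c J → z ∈ (CC c G (g + 1)).map bd ⊔ NN c J

/-- A convex class of nonempty strictly increasing flags. -/
structure Cv (c : List (Finset I) → Prop) : Prop where
  flag : ∀ l, c l → l.Pairwise (· ⊂ ·)
  ne : ¬ c []
  conv : ∀ l₁ l₂ l₃, l₁.Sublist l₂ → l₂.Sublist l₃ → c l₁ → c l₃ → c l₂

/-- Flags of sets in `P` that contain `φ` and have a member that contains `u`. -/
def Cl (P : Finset I → Prop) (φ : List (Finset I)) (u : Finset I) (l : List (Finset I)) : Prop :=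
  l.Pairwise (· ⊂ ·) ∧ (∀ S ∈ l, P S) ∧ φ ⊆ l ∧ ∃ S ∈ l, u ⊆ S

variable {c c' : List (Finset I) → Prop} {G G' J : Finset I → Submodule ℚ E} {g : ℕ}

theorem sys_CC {z : List (Finset I) →₀ E} : z ∈ CC c G g ↔
    ∀ l, (c l → l.length = g → z l ∈ hd G l) ∧ (¬ (c l ∧ l.length = g) → z l = 0) := by
  rw [CC, mem_Ch]
  refine forall_congr' fun l => ?_
  by_cases h : c l ∧ l.length = g
  · rw [if_pos h]
    exact ⟨fun a => ⟨fun _ _ => a, fun b => absurd h b⟩, fun a => a.1 h.1 h.2⟩
  · rw [if_neg h, Submodule.mem_bot]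
    exact ⟨fun a => ⟨fun b d => absurd ⟨b, d⟩ h, fun _ => a⟩, fun a => a.2 h⟩

theorem sys_NN {z : List (Finset I) →₀ E} : z ∈ NN c J ↔ ∀ l, c l → z l ∈ hd J l := by
  rw [NN, mem_Ch]
  refine forall_congr' fun l => ?_
  by_cases h : c l <;> simp [h]

theorem sys_mem {z : List (Finset I) →₀ E} (hz : z ∈ CC c G g) (l : List (Finset I)) :
    z l ∈ hd G l := by
  by_cases h : c l ∧ l.length = g
  · exact (sys_CC.1 hz l).1 h.1 h.2
  · rw [(sys_CC.1 hz l).2 h]; exact zero_mem _

theorem sys_Ex : Ex c G J g ↔ ∀ z ∈ CC c G g, bd z ∈ NN c J →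
    ∃ y ∈ CC c G (g + 1), z - bd y ∈ NN c J := by
  refine forall₃_congr fun z _ _ => ⟨fun h => ?_, fun ⟨y, hy, h⟩ => ?_⟩
  · obtain ⟨_, ⟨y, hy, rfl⟩, n, hn, rfl⟩ := Submodule.mem_sup.1 h
    exact ⟨y, hy, by simpa using hn⟩
  · exact Submodule.mem_sup.2 ⟨bd y, ⟨y, hy, rfl⟩, _, h, by abel⟩

theorem sys_at {V : Type} {z : List V →₀ E} {l₀ : List V} {S : Submodule ℚ E}
    (h : ∀ l, l₀.Sublist l → l₀.length + 1 = l.length → z l ∈ S) : bd z l₀ ∈ S := by
  have := mem_Ch.1 (bd_mem_Ch
    (G := fun l => if l₀.Sublist l ∧ l₀.length + 1 = l.length then S else ⊤)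
    (H := fun l => if l = l₀ then S else ⊤) (z := z) (fun l l' h1 h2 => ?_)
    (mem_Ch.2 fun l => ?_)) l₀
  · simpa using this
  · by_cases e : l' = l₀
    · subst e; simp [h1, h2]
    · simp [e]
  · split_ifs with e
    · exact h l e.1 e.2
    · trivial

theorem sys_zero {V : Type} {z : List V →₀ E} {l₀ : List V}
    (h : ∀ l, l₀.Sublist l → l₀.length + 1 = l.length → z l = 0) : bd z l₀ = 0 :=
  (Submodule.mem_bot ℚ).1 (sys_at fun l h1 h2 => (Submodule.mem_bot ℚ).2 (h l h1 h2))

theorem sys_hd (hc : Cv c) (hG : Monotone G) {l l' : List (Finset I)} (h : l'.Sublist l)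
    (h1 : c l) (h2 : c l') : hd G l ≤ hd G l' := by
  cases l' with
  | nil => exact absurd h2 hc.ne
  | cons S' t' =>
    cases l with
    | nil => exact bot_le
    | cons S t =>
      rcases List.mem_cons.1 (h.subset List.mem_cons_self) with e | e
      · subst e; exact le_rfl
      · exact hG (List.rel_of_pairwise_cons (hc.flag _ h1) e).subset

theorem sys_bd (hc : Cv c) (hG : Monotone G) {y : List (Finset I) →₀ E} (hy : y ∈ CC c G g)
    {l : List (Finset I)} (hl : c l) : bd y l ∈ hd G l := by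
  refine sys_at fun L h1 _ => ?_
  by_cases h : c L
  · exact sys_hd hc hG h1 h hl (sys_mem hy L)
  · rw [(sys_CC.1 hy L).2 fun a => h a.1]; exact zero_mem _

theorem sys_len {y : List (Finset I) →₀ E} (hy : y ∈ CC c G (g + 1)) {l : List (Finset I)}
    (hl : l.length ≠ g) : bd y l = 0 :=
  sys_zero fun L _ h2 => (sys_CC.1 hy L).2 fun a => hl (by omega)

theorem sys_out (hc : Cv c) {y : List (Finset I) →₀ E} (hy : y ∈ CC c G g)
    {l₀ l : List (Finset I)} (h0 : c l₀) (h : l₀.Sublist l) (hl : ¬ c l) : bd y l = 0 :=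
  sys_zero fun L h1 _ => (sys_CC.1 hy L).2 fun a => hl (hc.conv _ _ _ h h1 h0 a.1)

theorem sys_sub (h : ∀ l, c' l → c l) {y : List (Finset I) →₀ E} (hy : y ∈ CC c' G g) :
    y ∈ CC c G g :=
  sys_CC.2 fun l => ⟨fun _ _ => sys_mem hy l, fun a => (sys_CC.1 hy l).2 fun b => a ⟨h l b.1, b.2⟩⟩

theorem sys_sup (l : List (Finset I)) : hd (fun S => J S ⊔ G S) l = hd J l ⊔ hd G l := by
  cases l <;> simp [hd]

theorem cv_Cl (P : Finset I → Prop) (φ : List (Finset I)) (u : Finset I) : Cv (Cl P φ u) := by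
  refine ⟨fun _ h => h.1, fun h => ?_, fun l₁ l₂ l₃ a b h1 h3 => ?_⟩
  · obtain ⟨S, hS, -⟩ := h.2.2.2
    simp at hS
  · obtain ⟨S, hS, hu⟩ := h1.2.2.2
    exact ⟨h3.1.sublist b, fun S hS => h3.2.1 S (b.subset hS), fun _ hx => a.subset (h1.2.2.1 hx),
      S, a.subset hS, hu⟩

/-- Only the values at heads of lists of the class matter. -/
theorem Ex.congr {J' : Finset I → Submodule ℚ E} (h : Ex c G J g) (hc : ∀ l, c' l ↔ c l)
    (hG : ∀ S l, c (S :: l) → G' S = G S) (hJ : ∀ S l, c (S :: l) → J' S = J S) :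
    Ex c' G' J' g := by
  have k : ∀ {A A' : Finset I → Submodule ℚ E}, (∀ S l, c (S :: l) → A' S = A S) →
      ∀ l, c l → hd A' l = hd A l := fun hA l hl => by
    cases l with
    | nil => rfl
    | cons S t => exact hA S t hl
  have e1 : ∀ n, CC c' G' n = CC c G n := fun n => by
    ext z
    simp only [sys_CC, hc]
    exact forall_congr' fun l => and_congr_left' (forall_congr' fun hl => by rw [k hG l hl])
  have e2 : NN c' J' = NN c J := by
    ext z
    simp only [sys_NN, hc]
    exact forall₂_congr fun l hl => by rw [k hJ l hl]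
  unfold Ex
  rw [e1, e1, e2]
  exact h

theorem Ex.of_le (h : ∀ S l, c (S :: l) → (S :: l).length = g → G S ≤ J S) : Ex c G J g := by
  refine fun z hz _ => Submodule.mem_sup_right (sys_NN.2 fun l hl => ?_)
  by_cases e : l.length = g
  · cases l with
    | nil => exact sys_mem hz []
    | cons S t => exact h S t hl e (sys_mem hz (S :: t))
  · rw [(sys_CC.1 hz l).2 fun a => e a.2]; exact zero_mem _

/-- A subclass closed under faces and its complement. -/
theorem Ex.glue (hc : Cv c) (hG : Monotone G) (hJ : Monotone J) (h1 : ∀ l, c' l → c l)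
    (h2 : ∀ l l', c' l → l'.Sublist l → c l' → c' l') (e1 : Ex c' G J g)
    (e2 : Ex (fun l => c l ∧ ¬ c' l) G J g) : Ex c G J g := by
  refine sys_Ex.2 fun z hz hb => ?_
  have hz0 : ∀ l, ¬ c l → z l = 0 := fun l a => (sys_CC.1 hz l).2 fun b => a b.1
  obtain ⟨y2, hy2, n2⟩ := sys_Ex.1 e2 (z.filter fun l => c l ∧ ¬ c' l)
    (sys_CC.2 fun l => ⟨fun a _ => by rw [Finsupp.filter_apply, if_pos a]; exact sys_mem hz l,
      fun a => by
        rw [Finsupp.filter_apply]
        split_ifs with b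
        · exact (sys_CC.1 hz l).2 fun d => a ⟨b, d.2⟩
        · rfl⟩)
    (sys_NN.2 fun l₀ a => by
      have k : bd (z - z.filter fun l => c l ∧ ¬ c' l) l₀ = 0 := sys_zero fun l b _ => by
        rw [Finsupp.sub_apply, Finsupp.filter_apply]
        split_ifs with d
        · exact sub_self _
        · rw [sub_zero]
          exact hz0 l fun e => d ⟨e, fun e' => a.2 (h2 l l₀ e' b a.1)⟩
      rw [map_sub, Finsupp.sub_apply, sub_eq_zero] at k
      rw [← k]
      exact sys_NN.1 hb l₀ a.1)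
  have hy2' : y2 ∈ CC c G (g + 1) := sys_sub (fun _ a => a.1) hy2
  have r2 : ∀ l, c l → ¬ c' l → (z - bd y2) l ∈ hd J l := fun l a b => by
    have := sys_NN.1 n2 l ⟨a, b⟩
    rwa [Finsupp.sub_apply, Finsupp.filter_apply, if_pos (⟨a, b⟩ : c l ∧ ¬ c' l),
      ← Finsupp.sub_apply] at this
  have r0 : ∀ l : List (Finset I), l.length ≠ g → (z - bd y2) l = 0 := fun l a => by
    rw [Finsupp.sub_apply, sys_len hy2 a, (sys_CC.1 hz l).2 fun b => a b.2, sub_zero]
  obtain ⟨y1, hy1, n1⟩ := sys_Ex.1 e1 ((z - bd y2).filter c')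
    (sys_CC.2 fun l => ⟨fun a _ => by
        rw [Finsupp.filter_apply_pos _ _ a, Finsupp.sub_apply]
        exact sub_mem (sys_mem hz l) (sys_bd hc hG hy2' (h1 l a)),
      fun a => by
        rw [Finsupp.filter_apply]
        split_ifs with b
        · exact r0 l fun d => a ⟨b, d⟩
        · rfl⟩)
    (sys_NN.2 fun l₀ a => by
      have k : bd (z - bd y2 - (z - bd y2).filter c') l₀ ∈ hd J l₀ := sys_at fun l b _ => by
        rw [Finsupp.sub_apply, Finsupp.filter_apply]
        split_ifs with d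
        · rw [sub_self]; exact zero_mem _
        · rw [sub_zero]
          by_cases e : c l
          · exact sys_hd hc hJ b e (h1 _ a) (r2 l e d)
          · rw [Finsupp.sub_apply, hz0 l e, sys_out hc hy2' (h1 _ a) b e, sub_zero]
            exact zero_mem _
      rw [map_sub, map_sub, bd_bd, sub_zero, Finsupp.sub_apply] at k
      simpa using sub_mem (sys_NN.1 hb l₀ (h1 _ a)) k)
  refine ⟨y2 + y1, add_mem hy2' (sys_sub h1 hy1), sys_NN.2 fun l a => ?_⟩
  rw [map_add, ← sub_sub, Finsupp.sub_apply]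
  by_cases b : c' l
  · have := sys_NN.1 n1 l b
    rwa [Finsupp.sub_apply, Finsupp.filter_apply_pos _ _ b] at this
  · rw [sys_zero fun L d _ => (sys_CC.1 hy1 L).2 fun e => b (h2 L l e.1 d a), sub_zero]
    exact r2 l a b

/-- A subsystem of coefficients. -/
theorem Ex.sub (hc : Cv c) (hG : Monotone G) (hG' : Monotone G') (hJ : Monotone J)
    (hle : ∀ S l, c (S :: l) → G' S ≤ G S) (e1 : Ex c G (fun S => J S ⊔ G' S) (g + 1))
    (e2 : Ex c G J g) : Ex c G' J g := by
  refine sys_Ex.2 fun z hz hb => ?_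
  have hzG : z ∈ CC c G g := sys_CC.2 fun l => ⟨fun a _ => by
    cases l with
    | nil => exact sys_mem hz []
    | cons S t => exact hle S t a (sys_mem hz (S :: t)), (sys_CC.1 hz l).2⟩
  obtain ⟨y, hy, n⟩ := sys_Ex.1 e2 z hzG hb
  obtain ⟨w, hw, n'⟩ := sys_Ex.1 e1 y hy (sys_NN.2 fun l a => by
    rw [sys_sup]
    have := sub_mem (Submodule.mem_sup_right (S := hd J l) (sys_mem hz l))
      (Submodule.mem_sup_left (T := hd G' l) (sys_NN.1 n l a))
    simpa using this)
  have hm : (y - bd w).filter (fun l => c l ∧ l.length = g + 1) ∈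
      CC c J (g + 1) ⊔ CC c G' (g + 1) := by
    rw [CC, CC, ← Ch_sup, mem_Ch]
    intro l
    rw [Finsupp.filter_apply]
    split_ifs with a
    · rw [← sys_sup]; exact sys_NN.1 n' l a.1
    · exact zero_mem _
  obtain ⟨j, hj, y', hy', e⟩ := Submodule.mem_sup.1 hm
  refine ⟨y', hy', sys_NN.2 fun l₀ a => ?_⟩
  have k : bd (y - bd w - (j + y')) l₀ = 0 := sys_zero fun l b _ => by
    rw [e, Finsupp.sub_apply, Finsupp.filter_apply]
    split_ifs with d
    · exact sub_self _
    · rw [sub_zero, Finsupp.sub_apply, (sys_CC.1 hy l).2 d, zero_sub, neg_eq_zero]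
      by_cases f : c l
      · exact sys_len hw fun f' => d ⟨f, f'⟩
      · exact sys_out hc hw a b f
  rw [map_sub, map_sub, bd_bd, sub_zero, map_add, Finsupp.sub_apply, Finsupp.add_apply,
    sub_eq_zero] at k
  have := add_mem (sys_NN.1 n l₀ a) (sys_bd hc hJ hj a)
  rw [Finsupp.sub_apply, k] at this
  rw [Finsupp.sub_apply]
  convert this using 1
  abel

/-- Pull back along a map that is bijective on the subquotients. -/
theorem Ex.pull {H L : Finset I → Submodule ℚ E'} (f : E →ₗ[ℚ] E') (hc : Cv c) (hG : Monotone G)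
    (h1 : ∀ S l, c (S :: l) → ∀ x ∈ G S, f x ∈ H S)
    (h2 : ∀ S l, c (S :: l) → ∀ x ∈ J S, f x ∈ L S)
    (h3 : ∀ S l, c (S :: l) → H S ≤ (G S).map f)
    (h4 : ∀ S l, c (S :: l) → ∀ x ∈ G S, f x ∈ L S → x ∈ J S) (e : Ex c H L g) :
    Ex c G J g := by
  refine sys_Ex.2 fun z hz hb => ?_
  obtain ⟨y', hy', n⟩ := sys_Ex.1 e (co f z)
    (sys_CC.2 fun l => ⟨fun a _ => by
      cases l with
      | nil => exact absurd a hc.ne
      | cons S t => exact h1 S t a _ (sys_mem hz (S :: t)),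
      fun a => by rw [co_apply, (sys_CC.1 hz l).2 a, map_zero]⟩)
    (sys_NN.2 fun l a => by
      rw [bd_co, co_apply]
      cases l with
      | nil => exact absurd a hc.ne
      | cons S t => exact h2 S t a _ (sys_NN.1 hb (S :: t) a))
  have hl : CC c H (g + 1) ≤ (CC c G (g + 1)).map (co f) := Ch_le fun l β hβ => by
    split_ifs at hβ with a
    · cases l with
      | nil => exact absurd a.1 hc.ne
      | cons S t =>
        obtain ⟨x, hx, rfl⟩ := h3 S t a.1 hβ
        exact ⟨Finsupp.single (S :: t) x, single_mem_Ch (by rw [if_pos a]; exact hx),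
          co_single _ _ _⟩
    · rw [(Submodule.mem_bot ℚ).1 hβ, Finsupp.single_zero]; exact zero_mem _
  obtain ⟨y, hy, rfl⟩ := hl hy'
  refine ⟨y, hy, sys_NN.2 fun l a => ?_⟩
  have k1 : (z - bd y) l ∈ hd G l := sub_mem (sys_mem hz l) (sys_bd hc hG hy a)
  have k2 := sys_NN.1 n l a
  rw [bd_co, ← map_sub, co_apply] at k2
  cases l with
  | nil => exact absurd a hc.ne
  | cons S t => exact h4 S t a _ k1 k2

end H5T.HY
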